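import Pool.Agent.Lib.MP_a24e3f_co.CR.SpecA

/-! # ADE -/

namespace Pool.Agent.Lib.MPa24e3f.CR

namespace ADEM

theorem rat_div (E : ℕ) (s s' : Circle) : RatE E s s' ↔ RatE E (s / s') 1 := by
  have h : ‖((s / s' : Circle) : ℂ) - ((1 : Circle) : ℂ)‖ = ‖(s : ℂ) - (s' : ℂ)‖ := by
    have h1 : (s : ℂ) - (s' : ℂ) = (((s / s' : Circle) : ℂ) - ((1 : Circle) : ℂ)) * (s' : ℂ) := by
      rw [Circle.coe_div, Circle.coe_one, sub_mul, one_mul,
        div_mul_cancel₀ _ (Circle.coe_ne_zero s')]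
    rw [h1, norm_mul, Circle.norm_coe, mul_one]
  unfold RatE
  rw [h]

end ADEM

open ADEM in
theorem specADE (hPAR : SpecPAR) (hJCL : SpecJCL) (hDEE : SpecDEE) (hUNE : SpecUNE)
    (hCHE : SpecCHE) : SpecADE := by
  intro E hE1 hEs s s' t ht
  rw [rat_div, hCHE E hE1 hEs]
  constructor
  · rintro ⟨D, hD, hz⟩
    obtain ⟨p1, p2, p3, -⟩ := hPAR D E hD hEs
    obtain ⟨q1, q2, q3, -⟩ := hPAR (par D E) E p1 hEs
    have hzJ : s / s' ∈ J E (par D E) := Or.inr (by rw [p2]; exact hz)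
    have h1 := (hDEE E hE1 hEs).2 (par D E) (s / s') p1 hzJ
    have h2 := hUNE E hE1 hEs _ _ _ ht h1
    by_cases hmE : par D E = E
    · left
      intro m hm
      rw [h2]
      exact Pi.mulSingle_eq_of_ne (by rw [hmE]; exact hm) _
    · right
      refine ⟨par D E, hmE, p1, ?_, fun m hm => ?_⟩
      · rw [h2, Pi.mulSingle_eq_same, p2]
        exact hz
      · rw [h2]
        exact Pi.mulSingle_eq_of_ne hm _
  · rintro (h | ⟨m0, hm0, hms, hT, h⟩)
    · refine ⟨1, squarefree_one, ?_⟩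
      have hz : s / s' = t E := by
        rw [ht.2.2.2]
        exact finprod_eq_single t E h
      rw [hz, ← (hJCL E E hE1 hEs hEs).2.2.2.2 rfl]
      exact ht.1 E
    · refine ⟨par m0 E, (hPAR m0 E hms hEs).1, ?_⟩
      have hz : s / s' = t m0 := by
        rw [ht.2.2.2]
        exact finprod_eq_single t m0 h
      rw [hz]
      exact hT

end Pool.Agent.Lib.MPa24e3f.CR

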