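import Pool.Agent.Lib.MP_a24e3f_co.CR.Spec

/-! # ADJ -/

namespace Pool.Agent.Lib.MPa24e3f.CR

namespace ADJM

theorem sq1 : Squarefree (1 : ℕ) := squarefree_one

theorem neg_one_mul_neg (z : Circle) : (-1 : Circle) * (-z) = z := by
  apply Circle.ext
  simp

theorem neg_eq (z : Circle) : -z = (-1 : Circle) * z := by
  apply Circle.ext
  simp

theorem sub1 {z : Circle} (hSUB : SpecSUB) (h : -z ∈ S 1) : z ∈ S 1 := by
  rw [← neg_one_mul_neg z]
  exact (hSUB.1 1).2.1 _ _ hSUB.2.1 h

theorem case1 (hSUB : SpecSUB) (z : Circle) (t : ℕ → Circle) (ht : IsDec z t)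
    (h : ∀ D, D ≠ 1 → t D = 1) : ∃ D, Squarefree D ∧ -z ∈ S D := by
  obtain ⟨h1, h2, h3, h4⟩ := ht
  have hz : z = t 1 := by
    rw [h4]
    exact finprod_eq_single t 1 h
  refine ⟨1, sq1, ?_⟩
  rw [neg_eq]
  refine (hSUB.1 1).2.1 _ _ hSUB.2.1 ?_
  rw [hz]
  exact h1 1

end ADJM

open ADJM in
theorem specADJ (hSUB : SpecSUB) (hCHD : SpecCHD) (hDEC : SpecDEC) (hUNQ : SpecUNQ) : SpecADJ := by
  intro s s' t ht
  rw [hSUB.2.2.1 s s', hCHD (s / s')]
  set z := s / s' with hz
  constructor
  · rintro ⟨E, hE, hzE⟩
    by_cases hE1 : E = 1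
    · subst hE1
      left
      have hz1 : z ∈ S 1 := sub1 hSUB hzE
      have h1 := hDEC.2 1 z sq1 hz1
      have h2 := hUNQ z _ _ ht h1
      intro D hD
      rw [h2]
      exact Pi.mulSingle_eq_of_ne hD _
    · right
      have h1 := hDEC.2 1 (-1) sq1 hSUB.2.1
      have h2 := hDEC.2 E (-z) hE hzE
      have h3 := (hDEC.1 _ _ _ _ h1 h2).1
      rw [neg_one_mul_neg z] at h3
      have h4 := hUNQ z _ _ ht h3
      refine ⟨?_, E, ?_⟩
      · rw [h4]
        simp only [Pi.mulSingle_eq_same]
        rw [Pi.mulSingle_eq_of_ne (Ne.symm hE1), mul_one]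
      · intro D hD hDE
        rw [h4]
        simp only
        rw [Pi.mulSingle_eq_of_ne hD, Pi.mulSingle_eq_of_ne hDE, mul_one]
  · rintro (h | ⟨h1, E, hE⟩)
    · exact case1 hSUB z t ht h
    · by_cases hE1 : E = 1
      · subst hE1
        exact case1 hSUB z t ht (fun D hD => hE D hD hD)
      · by_cases hEs : Squarefree E
        · refine ⟨E, hEs, ?_⟩
          obtain ⟨g1, g2, g3, g4⟩ := ht
          have hzE : z = t 1 * t E := by
            rw [g4]
            rw [finprod_eq_prod_of_mulSupport_subset (s := {1, E})]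
            · rw [Finset.prod_pair (Ne.symm hE1)]
            · intro D hD
              rw [Function.mem_mulSupport] at hD
              simp only [Finset.coe_insert, Finset.coe_singleton, Set.mem_insert_iff,
                Set.mem_singleton_iff]
              by_contra hcon
              push Not at hcon
              exact hD (hE D hcon.1 hcon.2)
          have : -z = t E := by
            rw [hzE, h1, neg_eq, ← mul_assoc]
            have : (-1 : Circle) * (-1) = 1 := by
              apply Circle.ext
              simp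
            rw [this, one_mul]
          rw [this]
          exact g1 E
        · refine case1 hSUB z t ht (fun D hD => ?_)
          by_cases hDE : D = E
          · rw [hDE]
            exact ht.2.1 E hEs
          · exact hE D hD hDE

end Pool.Agent.Lib.MPa24e3f.CR
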