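import Pool.Agent.Lib.MP_a24e3f_co.CR.Spec

/-!
# CHD: the points of the unit circle with rational distance from `1`
-/

namespace Pool.Agent.Lib.MPa24e3f.CR

open Pool.Agent.Lib.MP_a24e3f_co

namespace CHDM

theorem sqrt_mul (D : ℕ) : √(D : ℝ) * √(D : ℝ) = D := Real.mul_self_sqrt (Nat.cast_nonneg D)

theorem h_re (D : ℕ) (u v : ℚ) : (h D u v ^ 2).re = (u : ℝ) ^ 2 - (D : ℝ) * (v : ℝ) ^ 2 := by
  have h1 := sqrt_mul D
  rw [sq, Complex.mul_re]
  show (u : ℝ) * u - ((v : ℝ) * √(D : ℝ)) * ((v : ℝ) * √(D : ℝ)) = _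
  linear_combination (-(v : ℝ) ^ 2) * h1

theorem h_im (D : ℕ) (u v : ℚ) : (h D u v ^ 2).im = 2 * (u : ℝ) * (v : ℝ) * √(D : ℝ) := by
  rw [sq, Complex.mul_im]
  show (u : ℝ) * ((v : ℝ) * √(D : ℝ)) + ((v : ℝ) * √(D : ℝ)) * (u : ℝ) = _
  ring

theorem circ (s : Circle) : (s : ℂ).re ^ 2 + (s : ℂ).im ^ 2 = 1 := by
  have h1 : Complex.normSq (s : ℂ) = 1 := by
    rw [Complex.normSq_eq_norm_sq, Circle.norm_coe, one_pow]
  rw [Complex.normSq_apply] at h1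
  nlinarith [h1]

theorem dist_sq (s : Circle) : ‖(s : ℂ) - ((1 : Circle) : ℂ)‖ ^ 2 = 2 - 2 * (s : ℂ).re := by
  rw [← Complex.normSq_eq_norm_sq, Complex.normSq_apply, Circle.coe_one, Complex.sub_re, Complex.sub_im,
    Complex.one_re, Complex.one_im]
  have h1 := circ s
  nlinarith [h1]

theorem rat_form (r : ℚ) (hr : 0 ≤ r) : ∃ (D : ℕ) (w : ℚ), Squarefree D ∧ r = (D : ℚ) * w ^ 2 := by
  obtain ⟨D, k, hk, hD⟩ := Nat.sq_mul_squarefree (r.num.toNat * r.den)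
  refine ⟨D, (k : ℚ) / (r.den : ℚ), hD, ?_⟩
  have hden : (r.den : ℚ) ≠ 0 := Nat.cast_ne_zero.mpr r.den_ne_zero
  have hnum : ((r.num.toNat : ℕ) : ℚ) = (r.num : ℚ) := by
    have h1 : ((r.num.toNat : ℕ) : ℤ) = r.num := Int.toNat_of_nonneg (Rat.num_nonneg.mpr hr)
    exact_mod_cast congrArg (Int.cast : ℤ → ℚ) h1
  have hk' : (k : ℚ) ^ 2 * (D : ℚ) = (r.num : ℚ) * (r.den : ℚ) := by
    rw [← hnum]
    exact_mod_cast hk
  have hr' : r = (r.num : ℚ) / (r.den : ℚ) := (Rat.num_div_den r).symm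
  have h2 : (D : ℚ) * ((k : ℚ) / (r.den : ℚ)) ^ 2 = ((k : ℚ) ^ 2 * (D : ℚ)) / (r.den : ℚ) ^ 2 := by
    rw [div_pow]
    ring
  rw [h2, hk', sq, mul_div_mul_right _ _ hden]
  exact hr'

end CHDM

open CHDM in
theorem specCHD : SpecCHD := by
  intro s
  constructor
  · rintro ⟨q, hq⟩
    have hxy := circ s
    have hd := dist_sq s
    rw [hq] at hd
    have hx : (s : ℂ).re = 1 - 2 * ((q : ℝ) / 2) ^ 2 := by linarith
    have hc1 : ((q : ℝ) / 2) ^ 2 ≤ 1 := by nlinarith [sq_nonneg (s : ℂ).im, sq_nonneg ((s : ℂ).re + 1)]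
    have hr : 0 ≤ 1 - (q / 2) ^ 2 := by
      have h1 : (0 : ℝ) ≤ ((1 - (q / 2) ^ 2 : ℚ) : ℝ) := by
        push_cast
        linarith
      exact_mod_cast h1
    obtain ⟨D, w, hD, hw⟩ := rat_form _ hr
    have hw' : 1 - ((q : ℝ) / 2) ^ 2 = (D : ℝ) * (w : ℝ) ^ 2 := by
      have h1 : ((1 - (q / 2) ^ 2 : ℚ) : ℝ) = (((D : ℚ) * w ^ 2 : ℚ) : ℝ) := by rw [hw]
      push_cast at h1
      exact h1
    have hs := sqrt_mul D
    have hy : (s : ℂ).im ^ 2 = (2 * ((q : ℝ) / 2) * (w : ℝ) * √(D : ℝ)) ^ 2 := by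
      have h1 : (s : ℂ).im ^ 2 = 4 * ((q : ℝ) / 2) ^ 2 * (1 - ((q : ℝ) / 2) ^ 2) := by
        rw [hx] at hxy
        linear_combination hxy
      rw [h1, hw']
      linear_combination (-(4 * ((q : ℝ) / 2) ^ 2 * (w : ℝ) ^ 2)) * hs
    refine ⟨D, hD, ?_⟩
    have hn : ((-s : Circle) : ℂ) = -(s : ℂ) := rfl
    rcases sq_eq_sq_iff_eq_or_eq_neg.mp hy with h1 | h1
    · refine ⟨q / 2, -w, ?_, ?_⟩
      · linear_combination (-1 : ℚ) * hw
      · rw [hn]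
        apply Complex.ext
        · rw [h_re, Complex.neg_re, hx]
          push_cast
          linear_combination (-1 : ℝ) * hw'
        · rw [h_im, Complex.neg_im, h1]
          push_cast
          ring
    · refine ⟨q / 2, w, ?_, ?_⟩
      · linear_combination (-1 : ℚ) * hw
      · rw [hn]
        apply Complex.ext
        · rw [h_re, Complex.neg_re, hx]
          push_cast
          linear_combination (-1 : ℝ) * hw'
        · rw [h_im, Complex.neg_im, h1]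
          push_cast
          ring
  · rintro ⟨D, -, u, v, huv, hs⟩
    refine ⟨|2 * u|, ?_⟩
    have hn : ((-s : Circle) : ℂ) = -(s : ℂ) := rfl
    rw [hn] at hs
    have hd := dist_sq s
    have hre : (s : ℂ).re = -((u : ℝ) ^ 2 - (D : ℝ) * (v : ℝ) ^ 2) := by
      have h1 := congrArg Complex.re hs
      rw [h_re, Complex.neg_re] at h1
      linarith
    have huv' : (u : ℝ) ^ 2 + (D : ℝ) * (v : ℝ) ^ 2 = 1 := by exact_mod_cast huv
    have h2 : ‖(s : ℂ) - ((1 : Circle) : ℂ)‖ ^ 2 = (2 * (u : ℝ)) ^ 2 := by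
      rw [hd, hre]
      linear_combination (-2 : ℝ) * huv'
    have h3 := abs_eq_abs.mpr (sq_eq_sq_iff_eq_or_eq_neg.mp h2)
    rw [abs_of_nonneg (norm_nonneg _)] at h3
    rw [h3]
    push_cast
    rfl

end Pool.Agent.Lib.MPa24e3f.CR
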