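import Pool.Agent.Lib.MP_a24e3f_co.CR.Spec

/-! # Module COD: codes for the elements of `S D` -/

set_option autoImplicit false

namespace Pool.Agent.Lib.MPa24e3f.CR

namespace CODM

lemma sq_iff (s s' : Circle) : s ^ 2 = s' ^ 2 ↔ s = s' ∨ s = -s' := by
  constructor
  · intro h
    have h1 : (s : ℂ) ^ 2 = (s' : ℂ) ^ 2 := by exact_mod_cast congrArg (fun z : Circle => (z : ℂ)) h
    rcases sq_eq_sq_iff_eq_or_eq_neg.1 h1 with h2 | h2
    · exact Or.inl (Circle.ext h2)
    · exact Or.inr (Circle.ext (by rw [h2]; rfl))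
  · rintro (rfl | rfl)
    · rfl
    · rw [neg_sq]

lemma ne_neg (s : Circle) : s ≠ -s := by
  intro h
  have h1 : (s : ℂ) = -(s : ℂ) := by
    conv_lhs => rw [h]
    rfl
  have h2 : (s : ℂ) = 0 := by
    have : (2 : ℂ) * s = 0 := by linear_combination h1
    simpa using this
  exact s.coe_ne_zero h2

end CODM

open CODM in
theorem specCOD (hSUB : SpecSUB) : SpecCOD := by
  classical
  obtain ⟨hS, hm1, -, -⟩ := hSUB
  refine ⟨?_, ?_⟩
  · intro D
    obtain ⟨e, he⟩ := Set.countable_iff_exists_injOn.1 (hS D).2.2.2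
    refine ⟨fun s => if s = 1 then 0 else e s + 1, by simp, ?_⟩
    intro s hs s' hs' h
    by_cases h1 : s = 1
    · by_cases h2 : s' = 1
      · rw [h1, h2]
      · simp [h1, h2] at h
    · by_cases h2 : s' = 1
      · simp [h1, h2] at h
      · simp only [h1, h2, if_false] at h
        exact he hs hs' (by omega)
  · obtain ⟨e, he⟩ := Set.countable_iff_exists_injOn.1 (hS 1).2.2.2
    have hmul := (hS 1).2.1
    have hneg : ∀ s, s ∈ S 1 → -s ∈ S 1 := by
      intro s hs
      have := hmul (-1) s hm1 hs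
      rwa [neg_one_mul] at this
    have hsq : ∀ s, s ∈ S 1 → s ^ 2 ∈ S 1 := by
      intro s hs
      rw [sq]
      exact hmul s s hs hs
    refine ⟨fun s => 2 * e (s ^ 2) + (if e s < e (-s) then 0 else 1), ?_⟩
    intro s hs s' hs'
    have hhalf : ∀ t : Circle, (2 * e (t ^ 2) + (if e t < e (-t) then 0 else 1)) / 2 = e (t ^ 2) := by
      intro t
      split_ifs <;> omega
    have key : (2 * e (s ^ 2) + (if e s < e (-s) then 0 else 1)) / 2 =
        (2 * e (s' ^ 2) + (if e s' < e (-s') then 0 else 1)) / 2 ↔ s = s' ∨ s = -s' := by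
      rw [hhalf, hhalf, ← sq_iff]
      exact ⟨fun h => he (hsq s hs) (hsq s' hs') h, fun h => by rw [h]⟩
    refine ⟨⟨fun h => ?_, fun h => by rw [h]⟩, key⟩
    rcases key.1 (by simp only at h; rw [h]) with h1 | h1
    · exact h1
    · exfalso
      have h2 : s ^ 2 = s' ^ 2 := (sq_iff s s').2 (Or.inr h1)
      simp only at h
      rw [h2] at h
      have h3 : (if e s < e (-s) then 0 else 1) = (if e s' < e (-s') then 0 else 1) := by omega
      rw [h1, neg_neg] at h3
      have h4 : e s' ≠ e (-s') := fun h5 => ne_neg s' (he hs' (hneg s' hs') h5)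
      split_ifs at h3 <;> omega

end Pool.Agent.Lib.MPa24e3f.CR
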