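import Pool.Agent.Lib.MP_a24e3f_co.CR.Spec

/-!
# Module DEC: products and quotients of decompositions
-/

set_option autoImplicit false

namespace Pool.Agent.Lib.MPa24e3f.CR

/-- **DEC** -/
theorem specDEC (hSUB : SpecSUB) : SpecDEC := by
  refine ⟨?_, ?_⟩
  · rintro s s' t t' ⟨h1, h2, h3, h4⟩ ⟨h1', h2', h3', h4'⟩
    refine ⟨⟨fun D => (hSUB.1 D).2.1 _ _ (h1 D) (h1' D),
      fun D hD => ?_, ?_, ?_⟩, ⟨fun D => ?_, fun D hD => ?_, ?_, ?_⟩⟩
    · change t D * t' D = 1
      rw [h2 D hD, h2' D hD, one_mul]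
    · exact (h3.union h3').subset (Function.mulSupport_mul t t')
    · rw [h4, h4', finprod_mul_distrib h3 h3']
    · change t D / t' D ∈ S D
      rw [div_eq_mul_inv]
      exact (hSUB.1 D).2.1 _ _ (h1 D) ((hSUB.1 D).2.2.1 _ (h1' D))
    · change t D / t' D = 1
      rw [h2 D hD, h2' D hD, div_one]
    · exact (h3.union h3').subset (Function.mulSupport_div t t')
    · rw [h4, h4', finprod_div_distrib h3 h3']
  · intro D s hD hs
    refine ⟨fun E => ?_, fun E hE => ?_, ?_, ?_⟩
    · by_cases h : E = D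
      · subst h
        rw [Pi.mulSingle_eq_same]
        exact hs
      · rw [Pi.mulSingle_eq_of_ne h]
        exact (hSUB.1 E).1
    · rw [Pi.mulSingle_eq_of_ne]
      rintro rfl
      exact hE hD
    · refine (Set.finite_singleton D).subset fun E hE => ?_
      by_contra h
      exact hE (Pi.mulSingle_eq_of_ne (M := fun _ => Circle) h s)
    · rw [finprod_eq_single _ D (fun E hE => Pi.mulSingle_eq_of_ne hE _), Pi.mulSingle_eq_same]

end Pool.Agent.Lib.MPa24e3f.CR
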