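import Pool.Agent.Lib.MP_a24e3f_co.CR.SpecA

/-!
# Module DEE: products and quotients of decompositions in the groups `J E m`
-/

set_option autoImplicit false

namespace Pool.Agent.Lib.MPa24e3f.CR

namespace DEEM

lemma one_mem_J (E m : ℕ) : (1 : Circle) ∈ J E m := by
  refine Or.inl ⟨1, 0, by norm_num, ?_⟩
  have e : h m 1 0 = 1 := by
    apply Complex.ext
    · simp [h]
    · simp [h]
  rw [e, Circle.coe_one, one_pow]

lemma mul_mem (hJCL : SpecJCL) (E m : ℕ) (hE : 1 < E) (hE' : Squarefree E) (s s' : Circle)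
    (hs : s ∈ J E m) (hs' : s' ∈ J E m) (h1 : ¬ Squarefree m → s = 1)
    (h1' : ¬ Squarefree m → s' = 1) : s * s' ∈ J E m := by
  by_cases hm : Squarefree m
  · exact (hJCL E m hE hE' hm).1.2.1 _ _ hs hs'
  · rw [h1 hm, h1' hm, one_mul]
    exact one_mem_J E m

lemma div_mem (hJCL : SpecJCL) (E m : ℕ) (hE : 1 < E) (hE' : Squarefree E) (s s' : Circle)
    (hs : s ∈ J E m) (hs' : s' ∈ J E m) (h1 : ¬ Squarefree m → s = 1)
    (h1' : ¬ Squarefree m → s' = 1) : s / s' ∈ J E m := by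
  by_cases hm : Squarefree m
  · rw [div_eq_mul_inv]
    exact (hJCL E m hE hE' hm).1.2.1 _ _ hs ((hJCL E m hE hE' hm).1.2.2.1 _ hs')
  · rw [h1 hm, h1' hm, div_one]
    exact one_mem_J E m

end DEEM

/-- **DEE** -/
theorem specDEE (hJCL : SpecJCL) : SpecDEE := by
  intro E hE hE'
  refine ⟨?_, ?_⟩
  · rintro s s' t t' ⟨h1, h2, h3, h4⟩ ⟨h1', h2', h3', h4'⟩
    refine ⟨⟨fun D => DEEM.mul_mem hJCL E D hE hE' _ _ (h1 D) (h1' D) (h2 D) (h2' D),
      fun D hD => ?_, ?_, ?_⟩,
      ⟨fun D => DEEM.div_mem hJCL E D hE hE' _ _ (h1 D) (h1' D) (h2 D) (h2' D),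
      fun D hD => ?_, ?_, ?_⟩⟩
    · change t D * t' D = 1
      rw [h2 D hD, h2' D hD, one_mul]
    · exact (h3.union h3').subset (Function.mulSupport_mul t t')
    · rw [h4, h4', finprod_mul_distrib h3 h3']
    · change t D / t' D = 1
      rw [h2 D hD, h2' D hD, div_one]
    · exact (h3.union h3').subset (Function.mulSupport_div t t')
    · rw [h4, h4', finprod_div_distrib h3 h3']
  · intro D s hD hs
    refine ⟨fun F => ?_, fun F hF => ?_, ?_, ?_⟩
    · by_cases h : F = D
      · subst h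
        rw [Pi.mulSingle_eq_same]
        exact hs
      · rw [Pi.mulSingle_eq_of_ne h]
        exact DEEM.one_mem_J E F
    · rw [Pi.mulSingle_eq_of_ne]
      rintro rfl
      exact hF hD
    · refine (Set.finite_singleton D).subset fun F hF => ?_
      by_contra h
      exact hF (Pi.mulSingle_eq_of_ne (M := fun _ => Circle) h s)
    · rw [finprod_eq_single _ D (fun F hF => Pi.mulSingle_eq_of_ne hF _), Pi.mulSingle_eq_same]

end Pool.Agent.Lib.MPa24e3f.CR
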