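import Pool.Agent.Lib.MP_a24e3f_co.CR.Spec

/-!
# Module EM1: the universal graph `Circ` on the circle
-/

namespace Pool.Agent.Lib.MPa24e3f.CR

open Pool.Agent.Lib.MP_a24e3f_co

namespace EM1M

/-- the components of the point with the label `p` -/
noncomputable def T (β : ℕ → Circle) (g : ℕ → ℕ → Circle) (p : ℕ × (ℕ →₀ ℕ)) (D : ℕ) : Circle :=
  if D = 1 then β p.1 else if D.Prime then g D (p.2 (Nat.count Nat.Prime D)) else 1

theorem T_one (β : ℕ → Circle) (g : ℕ → ℕ → Circle) (p : ℕ × (ℕ →₀ ℕ)) : T β g p 1 = β p.1 := by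
  unfold T
  rw [if_pos rfl]

theorem T_prime (β : ℕ → Circle) (g : ℕ → ℕ → Circle) (p : ℕ × (ℕ →₀ ℕ)) {D : ℕ}
    (hD : D.Prime) : T β g p D = g D (p.2 (Nat.count Nat.Prime D)) := by
  unfold T
  rw [if_neg hD.one_lt.ne', if_pos hD]

theorem T_other (β : ℕ → Circle) (g : ℕ → ℕ → Circle) (p : ℕ × (ℕ →₀ ℕ)) {D : ℕ}
    (h1 : D ≠ 1) (hD : ¬ D.Prime) : T β g p D = 1 := by
  unfold T
  rw [if_neg h1, if_neg hD]

theorem count_nth (k : ℕ) : Nat.count Nat.Prime (Nat.nth Nat.Prime k) = k :=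
  Nat.count_nth_of_infinite Nat.infinite_setOfPred_prime k

theorem nth_count {D : ℕ} (hD : D.Prime) : Nat.nth Nat.Prime (Nat.count Nat.Prime D) = D :=
  Nat.nth_count hD

theorem T_nth (β : ℕ → Circle) (g : ℕ → ℕ → Circle) (p : ℕ × (ℕ →₀ ℕ)) (k : ℕ) :
    T β g p (Nat.nth Nat.Prime k) = g (Nat.nth Nat.Prime k) (p.2 k) := by
  rw [T_prime β g p (Nat.prime_nth_prime k), count_nth]

theorem isDec (hSUB : SpecSUB) {β : ℕ → Circle} {g : ℕ → ℕ → Circle} (hβ : ∀ n, β n ∈ S 1)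
    (hg : ∀ D : ℕ, 0 < D → Function.Injective (g D) ∧ g D 0 = 1 ∧ ∀ n, g D n ∈ S D)
    (p : ℕ × (ℕ →₀ ℕ)) : IsDec (∏ᶠ D, T β g p D) (T β g p) := by
  refine ⟨fun D => ?_, fun D hD => ?_, ?_, rfl⟩
  · by_cases h1 : D = 1
    · subst h1
      rw [T_one]
      exact hβ _
    · by_cases h2 : D.Prime
      · rw [T_prime β g p h2]
        exact (hg D h2.pos).2.2 _
      · rw [T_other β g p h1 h2]
        exact (hSUB.1 D).1
  · have h1 : D ≠ 1 := by
      rintro rfl
      exact hD squarefree_one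
    have h2 : ¬ D.Prime := fun h => hD h.prime.squarefree
    exact T_other β g p h1 h2
  · have hfin : ({1} ∪ (Nat.nth Nat.Prime) '' (p.2.support : Set ℕ) : Set ℕ).Finite :=
      (Set.finite_singleton 1).union (p.2.support.finite_toSet.image _)
    refine hfin.subset fun D hD => ?_
    have hD' : T β g p D ≠ 1 := hD
    by_cases h1 : D = 1
    · exact Or.inl h1
    · by_cases h2 : D.Prime
      · refine Or.inr ⟨Nat.count Nat.Prime D, ?_, nth_count h2⟩
        rw [Finset.mem_coe, Finsupp.mem_support_iff]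
        intro h3
        apply hD'
        rw [T_prime β g p h2, h3]
        exact (hg D h2.pos).2.1
      · exact absurd (T_other β g p h1 h2) hD'

theorem partner {β : ℕ → Circle} (hβ : ∀ m, β (2 * m + 1) = -β (2 * m)) (b : ℕ) :
    ∃ c, β c = -β b ∧ c / 2 = b / 2 ∧ c ≠ b := by
  rcases Nat.even_or_odd' b with ⟨m, hm | hm⟩
  · exact ⟨2 * m + 1, by rw [hβ, hm], by omega, by omega⟩
  · exact ⟨2 * m, by rw [hm, hβ, neg_neg], by omega, by omega⟩

theorem neg_iff {β : ℕ → Circle} (hinj : Function.Injective β)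
    (hβ : ∀ m, β (2 * m + 1) = -β (2 * m)) (b b' : ℕ) :
    β b / β b' = -1 ↔ b / 2 = b' / 2 ∧ b ≠ b' := by
  obtain ⟨c, hc1, hc2, hc3⟩ := partner hβ b'
  rw [div_eq_iff_eq_mul, neg_one_mul, ← hc1, hinj.eq_iff]
  omega

end EM1M

open EM1M in
theorem specEM1 (hSUB : SpecSUB) (hINF : SpecINF) (hDEC : SpecDEC) (hUNQ : SpecUNQ)
    (hADJ : SpecADJ) : SpecEM1 := by
  obtain ⟨hI1, β, hβi, hβS, hβn⟩ := hINF
  choose! g hg using hI1
  have hdec := fun p => isDec hSUB hβS hg p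
  refine ⟨fun p => ∏ᶠ D, T β g p D, ?_, ?_⟩
  · intro p q hpq
    have hpq' : (∏ᶠ D, T β g p D) = ∏ᶠ D, T β g q D := hpq
    have h1 : T β g p = T β g q := by
      refine hUNQ _ _ _ (hdec p) ?_
      rw [hpq']
      exact hdec q
    apply Prod.ext
    · have h2 := congrFun h1 1
      rw [T_one, T_one] at h2
      exact hβi h2
    · apply Finsupp.ext
      intro k
      have h2 := congrFun h1 (Nat.nth Nat.Prime k)
      rw [T_nth, T_nth] at h2
      exact (hg _ (Nat.prime_nth_prime k).pos).1 h2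
  · intro p q hpq
    have hA := hADJ (∏ᶠ D, T β g p D) (∏ᶠ D, T β g q D) _ ((hDEC.1 _ _ _ _ (hdec p) (hdec q)).2)
    show Circ.Adj p q ↔ RatD (∏ᶠ D, T β g p D) (∏ᶠ D, T β g q D)
    rw [hA]
    simp only [T_one, neg_iff hβi hβn]
    have hR : ∀ k : ℕ, T β g p (Nat.nth Nat.Prime k) / T β g q (Nat.nth Nat.Prime k) = 1 ↔
        p.2 k = q.2 k := by
      intro k
      rw [div_eq_one, T_nth, T_nth, (hg _ (Nat.prime_nth_prime k).pos).1.eq_iff]
    have hRn : ∀ D : ℕ, D ≠ 1 → ¬ D.Prime → T β g p D / T β g q D = 1 := by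
      intro D h1 h2
      rw [T_other β g p h1 h2, T_other β g q h1 h2, div_one]
    have hne1 : ∀ k : ℕ, Nat.nth Nat.Prime k ≠ 1 := fun k => (Nat.prime_nth_prime k).one_lt.ne'
    have hall : (∀ D, D ≠ 1 → T β g p D / T β g q D = 1) ↔ p.2 = q.2 := by
      constructor
      · intro h
        apply Finsupp.ext
        intro k
        exact (hR k).1 (h _ (hne1 k))
      · intro h D h1
        by_cases h2 : D.Prime
        · rw [← nth_count h2]
          exact (hR _).2 (by rw [h])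
        · exact hRn D h1 h2
    have hex : (∃ E, ∀ D, D ≠ 1 → D ≠ E → T β g p D / T β g q D = 1) ↔
        ∃ k, ∀ j, j ≠ k → p.2 j = q.2 j := by
      constructor
      · rintro ⟨E, hE⟩
        refine ⟨Nat.count Nat.Prime E, fun j hj => (hR j).1 (hE _ (hne1 j) ?_)⟩
        intro h
        apply hj
        rw [← h, count_nth]
      · rintro ⟨k, hk⟩
        refine ⟨Nat.nth Nat.Prime k, fun D h1 h2 => ?_⟩
        by_cases h3 : D.Prime
        · rw [← nth_count h3]
          refine (hR _).2 (hk _ ?_)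
          intro h4
          apply h2
          rw [← h4, nth_count h3]
        · exact hRn D h1 h3
    rw [hall, hex]
    have hadj : Circ.Adj p q ↔ (p.2 = q.2 ∧ p.1 ≠ q.1) ∨
        ((∃ k, p.2 k ≠ q.2 k ∧ ∀ j, j ≠ k → p.2 j = q.2 j) ∧ p.1 / 2 = q.1 / 2 ∧ p.1 ≠ q.1) :=
      Iff.rfl
    rw [hadj]
    constructor
    · rintro (⟨h1, _⟩ | ⟨⟨k, _, h2⟩, h3⟩)
      · exact Or.inl h1
      · exact Or.inr ⟨h3, k, h2⟩
    · intro h
      have hfst : p.2 = q.2 → p.1 ≠ q.1 := fun h1 h2 => hpq (Prod.ext h2 h1)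
      rcases h with h1 | ⟨h3, k, h2⟩
      · exact Or.inl ⟨h1, hfst h1⟩
      · by_cases h4 : p.2 k = q.2 k
        · have h5 : p.2 = q.2 := by
            apply Finsupp.ext
            intro j
            by_cases hj : j = k
            · rw [hj]; exact h4
            · exact h2 j hj
          exact Or.inl ⟨h5, hfst h5⟩
        · exact Or.inr ⟨⟨k, h4, h2⟩, h3⟩

end Pool.Agent.Lib.MPa24e3f.CR
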