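import Pool.Agent.Lib.MP_a24e3f_co.CR.Spec

/-! # Module EM2: connected graphs on the circle embed into `Circ` -/

set_option autoImplicit false

namespace Pool.Agent.Lib.MPa24e3f.CR

open Pool.Agent.Lib.MP_a24e3f_co

namespace EM2M

theorem ne_neg (s : Circle) : s ≠ -s := by
  intro h
  have h1 : (s : ℂ) = ((-s : Circle) : ℂ) := congrArg (fun z : Circle => (z : ℂ)) h
  have h2 : ((-s : Circle) : ℂ) = -(s : ℂ) := rfl
  rw [h2] at h1
  have h3 : (s : ℂ) = 0 := by
    have h4 : (2 : ℂ) * s = 0 := by linear_combination h1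
    simp at h4
  exact Circle.coe_ne_zero s h3

end EM2M

theorem specEM2 (_hSUB : SpecSUB) (hCOD : SpecCOD) (hDEC : SpecDEC) (hADJ : SpecADJ)
    (hGEN : SpecGEN) : SpecEM2 := by
  intro V G P hconn hinj hadj
  obtain ⟨v0⟩ := hconn.nonempty
  have hT : ∀ v, ∃ t, IsDec (P v / P v0) t := fun v =>
    hGEN.2 V G P hconn (fun u v huv => (hadj u v huv.ne).1 huv) v0 v
  choose T hT using hT
  have hq : ∀ u v, IsDec (P u / P v) (fun D => T u D / T v D) := by
    intro u v
    have h1 := (hDEC.1 _ _ _ _ (hT u) (hT v)).2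
    rwa [div_div_div_cancel_right] at h1
  choose c hc0 hc using hCOD.1
  obtain ⟨b, hb⟩ := hCOD.2
  have hfin : ∀ v, (Function.support fun D => if D = 1 then 0 else c D (T v D)).Finite := by
    intro v
    refine (hT v).2.2.1.subset ?_
    intro D hD
    rw [Function.mem_support] at hD
    rw [Function.mem_mulSupport]
    intro h1
    apply hD
    rw [h1, hc0]
    split_ifs <;> rfl
  obtain ⟨X, hX0⟩ : ∃ X : V → ℕ →₀ ℕ, ∀ v D, X v D = if D = 1 then 0 else c D (T v D) :=
    ⟨fun v => Finsupp.ofSupportFinite _ (hfin v), fun v D => rfl⟩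
  have hX : ∀ u v D, D ≠ 1 → (X u D = X v D ↔ T u D = T v D) := by
    intro u v D hD
    rw [hX0, hX0, if_neg hD, if_neg hD]
    exact ⟨fun h => hc D ((hT u).1 D) ((hT v).1 D) h, fun h => by rw [h]⟩
  have hX1 : ∀ u v, X u 1 = X v 1 := by
    intro u v
    rw [hX0, hX0, if_pos rfl, if_pos rfl]
  have hb1 : ∀ u v, b (T u 1) = b (T v 1) ↔ T u 1 = T v 1 := fun u v =>
    (hb _ ((hT u).1 1) _ ((hT v).1 1)).1
  have hb2 : ∀ u v, b (T u 1) / 2 = b (T v 1) / 2 ↔ T u 1 = T v 1 ∨ T u 1 = -T v 1 := fun u v =>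
    (hb _ ((hT u).1 1) _ ((hT v).1 1)).2
  have hT1 : ∀ u v, T u 1 = T v 1 → (∀ D, D ≠ 1 → T u D = T v D) → u = v := by
    intro u v h1 h2
    have h3 : T u = T v := by
      funext D
      by_cases hD : D = 1
      · rw [hD, h1]
      · exact h2 D hD
    have h4 : P u / P v0 = P v / P v0 := by
      rw [(hT u).2.2.2, (hT v).2.2.2, h3]
    exact hinj (div_left_injective h4)
  have hXe : ∀ u v, (X u = X v ↔ ∀ D, D ≠ 1 → T u D = T v D) := by
    intro u v
    constructor
    · intro h D hD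
      exact (hX u v D hD).1 (by rw [h])
    · intro h
      ext D
      by_cases hD : D = 1
      · rw [hD]; exact hX1 u v
      · exact (hX u v D hD).2 (h D hD)
  have hdiv : ∀ u v, (∀ D, D ≠ 1 → T u D / T v D = 1) ↔ ∀ D, D ≠ 1 → T u D = T v D := by
    intro u v
    exact forall_congr' fun D => imp_congr_right fun _ => div_eq_one
  refine ⟨⟨⟨fun v => (b (T v 1), X v), ?_⟩, ?_⟩⟩
  · intro u v huv
    have h1 : b (T u 1) = b (T v 1) := congrArg Prod.fst huv
    have h2 : X u = X v := congrArg Prod.snd huv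
    exact hT1 u v ((hb1 u v).1 h1) ((hXe u v).1 h2)
  · intro u v
    show Circ.Adj (b (T u 1), X u) (b (T v 1), X v) ↔ G.Adj u v
    by_cases huv : u = v
    · subst huv
      exact ⟨fun h => absurd h (Circ.loopless.irrefl _), fun h => absurd h (G.loopless.irrefl _)⟩
    rw [hadj u v huv, hADJ _ _ _ (hq u v)]
    show ((X u = X v ∧ b (T u 1) ≠ b (T v 1)) ∨
      ((∃ k, X u k ≠ X v k ∧ ∀ j, j ≠ k → X u j = X v j) ∧ b (T u 1) / 2 = b (T v 1) / 2 ∧
        b (T u 1) ≠ b (T v 1))) ↔ _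
    have hone : T u 1 / T v 1 = -1 ↔ T u 1 = -T v 1 := by
      rw [div_eq_iff_eq_mul, neg_one_mul]
    constructor
    · rintro (⟨h1, _⟩ | ⟨⟨k, hk, hj⟩, h2, h3⟩)
      · exact Or.inl ((hdiv u v).2 ((hXe u v).1 h1))
      · refine Or.inr ⟨hone.2 ?_, k, fun D hD hDk => div_eq_one.2 ((hX u v D hD).1 (hj D hDk))⟩
        rcases (hb2 u v).1 h2 with h4 | h4
        · exact absurd ((hb1 u v).2 h4) h3
        · exact h4
    · have first : (∀ D, D ≠ 1 → T u D = T v D) → X u = X v ∧ b (T u 1) ≠ b (T v 1) := fun h =>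
        ⟨(hXe u v).2 h, fun h1 => huv (hT1 u v ((hb1 u v).1 h1) h)⟩
      rintro (h | ⟨h1, E, hE⟩)
      · exact Or.inl (first ((hdiv u v).1 h))
      · have h1' := hone.1 h1
        have hE' : ∀ D, D ≠ 1 → D ≠ E → T u D = T v D := fun D hD hDE => div_eq_one.1 (hE D hD hDE)
        by_cases hEE : E = 1 ∨ T u E = T v E
        · refine Or.inl (first fun D hD => ?_)
          by_cases hDE : D = E
          · rcases hEE with h2 | h2
            · exact absurd (hDE.trans h2) hD
            · rw [hDE]; exact h2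
          · exact hE' D hD hDE
        · obtain ⟨hE1, hE2⟩ := not_or.1 hEE
          refine Or.inr ⟨⟨E, fun h2 => hE2 ((hX u v E hE1).1 h2), fun j hj => ?_⟩,
            (hb2 u v).2 (Or.inr h1'), fun h2 => ?_⟩
          · by_cases hj1 : j = 1
            · rw [hj1]; exact hX1 u v
            · exact (hX u v j hj1).2 (hE' j hj1 hj)
          · have h3 := (hb1 u v).1 h2
            exact EM2M.ne_neg (T v 1) (h3.symm.trans h1')

end Pool.Agent.Lib.MPa24e3f.CR
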