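import Pool.Agent.Lib.MP_a24e3f_co.CR.SpecA

/-! # Module EME: connected graphs on the circle of radius `√E` embed into `Circ` -/

set_option autoImplicit false

namespace Pool.Agent.Lib.MPa24e3f.CR

open Pool.Agent.Lib.MP_a24e3f_co

namespace EMEM

/-- A countable set has an injection to the naturals with value `0` at `1`. -/
theorem cod (A : Set Circle) (hA : A.Countable) :
    ∃ c : Circle → ℕ, c 1 = 0 ∧ Set.InjOn c A := by
  classical
  obtain ⟨e, he⟩ := Set.countable_iff_exists_injOn.1 hA
  refine ⟨fun s => if s = 1 then 0 else e s + 1, by simp, ?_⟩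
  intro s hs s' hs' h
  by_cases h1 : s = 1 <;> by_cases h2 : s' = 1
  · rw [h1, h2]
  · simp [h1, h2] at h
  · simp [h1, h2] at h
  · simp only [h1, h2, if_false] at h
    exact he hs hs' (by omega)

/-- Parity of two finite sets which agree outside one element. -/
theorem parity (A B : Finset ℕ) (k : ℕ) (h : ∀ m, m ≠ k → (m ∈ A ↔ m ∈ B)) :
    A.card % 2 = B.card % 2 ↔ (k ∈ A ↔ k ∈ B) := by
  have he : A.erase k = B.erase k := by
    ext m
    rw [Finset.mem_erase, Finset.mem_erase]
    exact and_congr_right fun hm => h m hm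
  have hc : (A.erase k).card = (B.erase k).card := by rw [he]
  by_cases hA : k ∈ A <;> by_cases hB : k ∈ B
  · have h1 := Finset.card_erase_add_one hA
    have h2 := Finset.card_erase_add_one hB
    constructor
    · intro _; exact ⟨fun _ => hB, fun _ => hA⟩
    · intro _; omega
  · have h1 := Finset.card_erase_add_one hA
    rw [Finset.erase_eq_of_notMem hB] at hc
    constructor
    · intro h3; omega
    · intro h3; exact absurd (h3.1 hA) hB
  · have h2 := Finset.card_erase_add_one hB
    rw [Finset.erase_eq_of_notMem hA] at hc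
    constructor
    · intro h3; omega
    · intro h3; exact absurd (h3.2 hB) hA
  · rw [Finset.erase_eq_of_notMem hA, Finset.erase_eq_of_notMem hB] at hc
    constructor
    · intro _; exact ⟨fun h3 => absurd h3 hA, fun h3 => absurd h3 hB⟩
    · intro _; omega

end EMEM

open EMEM

theorem specEME (hJCL : SpecJCL) (hDEE : SpecDEE) (hADE : SpecADE) (hGNE : SpecGNE) :
    SpecEME := by
  classical
  intro E hE1 hE V G P hconn hinj hadj
  obtain ⟨v0⟩ := hconn.nonempty
  have ht0 : ∀ v, ∃ t, IsDecE E (P v / P v0) t := fun v =>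
    hGNE E hE1 hE V G P hconn (fun u v huv => (hadj u v huv.ne).1 huv) v0 v
  choose t ht using ht0
  have hq : ∀ u v, IsDecE E (P u / P v) (fun m => t u m / t v m) := by
    intro u v
    have h1 := ((hDEE E hE1 hE).1 _ _ _ _ (ht u) (ht v)).2
    rwa [div_div_div_cancel_right] at h1
  -- codings
  have hcod : ∀ m, ∃ c : Circle → ℕ, c 1 = 0 ∧ (Squarefree m → Set.InjOn c (J E m)) := by
    intro m
    by_cases hm : Squarefree m
    · obtain ⟨c, h0, h1⟩ := cod (J E m) (hJCL E m hE1 hE hm).1.2.2.2
      exact ⟨c, h0, fun _ => h1⟩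
    · exact ⟨fun _ => 0, rfl, fun h => absurd h hm⟩
  choose c hc0 hc using hcod
  have hinjc : ∀ u v m, c m (t u m) = c m (t v m) ↔ t u m = t v m := by
    intro u v m
    refine ⟨fun h => ?_, fun h => by rw [h]⟩
    by_cases hm : Squarefree m
    · exact hc m hm ((ht u).1 m) ((ht v).1 m) h
    · rw [(ht u).2.1 m hm, (ht v).2.1 m hm]
  -- the finitely supported sequence
  have hfin : ∀ v, (Function.support fun m => if m = E then 0 else c m (t v m)).Finite := by
    intro v
    refine (ht v).2.2.1.subset ?_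
    intro m hm
    rw [Function.mem_support] at hm
    rw [Function.mem_mulSupport]
    intro h1
    apply hm
    rw [h1, hc0]
    split_ifs <;> rfl
  obtain ⟨X, hX0⟩ : ∃ X : V → ℕ →₀ ℕ, ∀ v m, X v m = if m = E then 0 else c m (t v m) :=
    ⟨fun v => Finsupp.ofSupportFinite _ (hfin v), fun v m => rfl⟩
  have hX : ∀ u v m, m ≠ E → (X u m = X v m ↔ t u m = t v m) := by
    intro u v m hm
    rw [hX0, hX0, if_neg hm, if_neg hm]
    exact hinjc u v m
  have hX1 : ∀ u v, X u E = X v E := by
    intro u v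
    rw [hX0, hX0, if_pos rfl, if_pos rfl]
  have hXe : ∀ u v, (X u = X v ↔ ∀ m, m ≠ E → t u m = t v m) := by
    intro u v
    constructor
    · intro h m hm
      exact (hX u v m hm).1 (by rw [h])
    · intro h
      ext m
      by_cases hm : m = E
      · rw [hm]; exact hX1 u v
      · exact (hX u v m hm).2 (h m hm)
  -- the parities
  have hSfin : ∀ v, {m | m ≠ E ∧ Squarefree m ∧ t v m ∈ T E (par m E)}.Finite := by
    intro v
    refine (ht v).2.2.1.subset ?_
    rintro m ⟨h1, h2, h3⟩
    rw [Function.mem_mulSupport]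
    intro h4
    rw [h4] at h3
    exact ((hJCL E m hE1 hE h2).2.2.2.1 h1).1 h3
  obtain ⟨F, hF⟩ : ∃ F : V → Finset ℕ, ∀ v m,
      m ∈ F v ↔ m ≠ E ∧ Squarefree m ∧ t v m ∈ T E (par m E) :=
    ⟨fun v => (hSfin v).toFinset, fun v m => by
      rw [Set.Finite.mem_toFinset]; exact Iff.rfl⟩
  obtain ⟨b, hb⟩ : ∃ b : V → ℕ, ∀ v, b v = 2 * c E (t v E) + (F v).card % 2 := ⟨_, fun v => rfl⟩
  have hb2 : ∀ u v, b u / 2 = b v / 2 ↔ t u E = t v E := by
    intro u v
    rw [← hinjc u v E, hb, hb]
    omega
  have hb1 : ∀ u v, t u E = t v E → (b u = b v ↔ (F u).card % 2 = (F v).card % 2) := by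
    intro u v h
    rw [hb, hb, h]
    omega
  have htE : ∀ u v, t u E = t v E → (∀ m, m ≠ E → t u m = t v m) → u = v := by
    intro u v h1 h2
    have h3 : t u = t v := by
      funext m
      by_cases hm : m = E
      · rw [hm, h1]
      · exact h2 m hm
    have h4 : P u / P v0 = P v / P v0 := by
      rw [(ht u).2.2.2, (ht v).2.2.2, h3]
    exact hinj (div_left_injective h4)
  -- parities of sets which agree outside one place
  have hpar : ∀ u v k, k ≠ E → Squarefree k → (∀ m, m ≠ k → t u m = t v m) →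
      ((F u).card % 2 = (F v).card % 2 ↔ ¬ t u k / t v k ∈ T E (par k E)) := by
    intro u v k hk hks h
    rw [parity (F u) (F v) k (fun m hm => by rw [hF, hF, h m hm]), hF, hF,
      ((hJCL E k hE1 hE hks).2.2.2.1 hk).2 _ _ ((ht u).1 k) ((ht v).1 k), not_not]
    constructor
    · intro h1
      exact ⟨fun h2 => (h1.1 ⟨hk, hks, h2⟩).2.2, fun h2 => (h1.2 ⟨hk, hks, h2⟩).2.2⟩
    · intro h1
      exact ⟨fun h2 => ⟨hk, hks, h1.1 h2.2.2⟩, fun h2 => ⟨hk, hks, h1.2 h2.2.2⟩⟩
  refine ⟨⟨⟨fun v => (b v, X v), ?_⟩, ?_⟩⟩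
  · intro u v huv
    have h1 : b u = b v := congrArg Prod.fst huv
    have h2 : X u = X v := congrArg Prod.snd huv
    exact htE u v ((hb2 u v).1 (by rw [h1])) ((hXe u v).1 h2)
  · intro u v
    show Circ.Adj (b u, X u) (b v, X v) ↔ G.Adj u v
    by_cases huv : u = v
    · subst huv
      exact ⟨fun h => absurd h (Circ.loopless.irrefl _), fun h => absurd h (G.loopless.irrefl _)⟩
    rw [hadj u v huv, hADE E hE1 hE _ _ _ (hq u v)]
    show ((X u = X v ∧ b u ≠ b v) ∨
      ((∃ k, X u k ≠ X v k ∧ ∀ j, j ≠ k → X u j = X v j) ∧ b u / 2 = b v / 2 ∧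
        b u ≠ b v)) ↔ _
    constructor
    · rintro (⟨h1, _⟩ | ⟨⟨k, hk, hj⟩, h2, h3⟩)
      · exact Or.inl fun m hm => div_eq_one.2 ((hXe u v).1 h1 m hm)
      · have hkE : k ≠ E := fun h4 => hk (by rw [h4]; exact hX1 u v)
        have hkt : t u k ≠ t v k := fun h4 => hk ((hX u v k hkE).2 h4)
        have hks : Squarefree k := by
          by_contra h4
          exact hkt (by rw [(ht u).2.1 k h4, (ht v).2.1 k h4])
        have hE2 := (hb2 u v).1 h2
        have hall : ∀ m, m ≠ k → t u m = t v m := by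
          intro m hm
          by_cases hmE : m = E
          · rw [hmE]; exact hE2
          · exact (hX u v m hmE).1 (hj m hm)
        refine Or.inr ⟨k, hkE, hks, ?_, fun m hm => div_eq_one.2 (hall m hm)⟩
        by_contra h4
        exact h3 ((hb1 u v hE2).2 ((hpar u v k hkE hks hall).2 h4))
    · rintro (h | ⟨k, hkE, hks, hkT, hall'⟩)
      · have h' : ∀ m, m ≠ E → t u m = t v m := fun m hm => div_eq_one.1 (h m hm)
        exact Or.inl ⟨(hXe u v).2 h', fun h1 => huv (htE u v ((hb2 u v).1 (by rw [h1])) h')⟩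
      · have hall : ∀ m, m ≠ k → t u m = t v m := fun m hm => div_eq_one.1 (hall' m hm)
        have hE2 : t u E = t v E := hall E (fun h1 => hkE h1.symm)
        have hkt : t u k ≠ t v k := by
          intro h1
          have h2 : t u k / t v k = 1 := div_eq_one.2 h1
          simp only [h2] at hkT
          exact ((hJCL E k hE1 hE hks).2.2.2.1 hkE).1 hkT
        refine Or.inr ⟨⟨k, fun h1 => hkt ((hX u v k hkE).1 h1), fun j hj => ?_⟩,
          (hb2 u v).2 hE2, fun h1 => ?_⟩
        · by_cases hjE : j = E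
          · rw [hjE]; exact hX1 u v
          · exact (hX u v j hjE).2 (hall j hj)
        · exact (hpar u v k hkE hks hall).1 ((hb1 u v hE2).1 h1) hkT

end Pool.Agent.Lib.MPa24e3f.CR
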