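import Pool.Agent.Lib.MP_a24e3f_co.CR.Spec

namespace Pool.Agent.Lib.MPa24e3f.CR

open Pool.Agent.Lib.MP_a24e3f_co

theorem specFIN (hGEA : SpecGEA) (hGEB : SpecGEB) (hIFF : SpecIFF) : SpecFIN := by
  intro V _ G
  constructor
  · rintro ⟨f, hf, z, r, hr⟩
    exact (hIFF V G).1 (hGEB V G f z r hf hr)
  · intro hc
    obtain ⟨P, hP, hadj⟩ := (hIFF V G).2 hc
    obtain ⟨f, hf, h1⟩ := hGEA V G P hP hadj
    exact ⟨f, hf, 0, 1, fun v => by rw [h1 v]; norm_num⟩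

end Pool.Agent.Lib.MPa24e3f.CR
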