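import Pool.Agent.Lib.MP_a24e3f_co.CR.SpecA

/-! # Module FNA: the final form of the criterion for circles -/

set_option autoImplicit false

namespace Pool.Agent.Lib.MPa24e3f.CR

open Pool.Agent.Lib.MP_a24e3f_co

namespace FNAM

theorem part1 (hEM2 : SpecEM2) (hEME : SpecEME) (hSCA : SpecSCA) {V : Type} (G : SimpleGraph V)
    (f : V → Plane) (hf : IsRationalRep G f) (z : Plane) (ρ : ℝ) (a : ℚ)
    (ha : ρ ^ 2 = (a : ℝ)) (hd : ∀ v, dist (f v) z = ρ) (c : G.ConnectedComponent) :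
    Nonempty (G.induce c.supp ↪g Circ) := by
  obtain ⟨E, hE, P, hP, hadj⟩ := hSCA V G f z ρ a hf ha hd
  have hPinj : Function.Injective (fun v : c.supp => P v.1) := fun u v huv =>
    Subtype.ext (hP huv)
  have hadj' : ∀ u v : c.supp, u ≠ v →
      ((G.induce c.supp).Adj u v ↔ RatE E (P u.1) (P v.1)) := fun u v huv =>
    hadj u.1 v.1 (fun h => huv (Subtype.ext h))
  by_cases h1 : E = 1
  · subst h1
    refine hEM2 c.supp (G.induce c.supp) (fun v => P v.1) c.connected_toSimpleGraph hPinj ?_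
    intro u v huv
    rw [hadj' u v huv]
    unfold RatE RatD
    simp
  · have hE1 : 1 < E := by
      have h0 : E ≠ 0 := hE.ne_zero
      omega
    exact hEME E hE1 hE c.supp (G.induce c.supp) (fun v => P v.1) c.connected_toSimpleGraph
      hPinj hadj'

theorem part2 (hIFF : SpecIFF) (hGEA : SpecGEA) {V : Type} [Countable V] (G : SimpleGraph V)
    (hc : ∀ c : G.ConnectedComponent, Nonempty (G.induce c.supp ↪g Circ)) :
    ∃ f : V → Plane, IsRationalRep G f ∧ ∀ v, dist (f v) 0 = 1 := by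
  obtain ⟨P, hP, hadj⟩ := (hIFF V G).2 hc
  exact hGEA V G P hP hadj

end FNAM

open FNAM

theorem specFNA (hEM2 : SpecEM2) (hIFF : SpecIFF) (hGEA : SpecGEA) (hEME : SpecEME)
    (hSCA : SpecSCA) (hTRI : SpecTRI) : SpecFNA := by
  intro V _ G
  refine ⟨⟨?_, ?_⟩, ?_⟩
  · rintro ⟨f, hf, z, ρ, ⟨a, ha⟩, hd⟩ c
    exact part1 hEM2 hEME hSCA G f hf z ρ a ha hd c
  · intro hc
    obtain ⟨f, hf, h1⟩ := part2 hIFF hGEA G hc
    exact ⟨f, hf, 0, 1, ⟨1, by norm_num⟩, h1⟩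
  · intro ht
    constructor
    · rintro ⟨f, hf, z, ρ, hd⟩ c
      obtain ⟨a, ha⟩ := hTRI V G f z ρ hf hd ht
      exact part1 hEM2 hEME hSCA G f hf z ρ a ha hd c
    · intro hc
      obtain ⟨f, hf, h1⟩ := part2 hIFF hGEA G hc
      exact ⟨f, hf, 0, 1, h1⟩

end Pool.Agent.Lib.MPa24e3f.CR
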