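import Pool.Agent.Lib.MP_a24e3f_co.CR.Spec

/-!
# MP_a24e3f_co: module GEA
-/

set_option autoImplicit false

namespace Pool.Agent.Lib.MPa24e3f.CR

open Pool.Agent.Lib.MP_a24e3f_co

theorem specGEA : SpecGEA := by
  intro V G P hP hadj
  let e := Complex.orthonormalBasisOneI.repr
  have hd : ∀ z w : ℂ, dist (e z) (e w) = ‖z - w‖ := fun z w => by
    rw [e.dist_map, dist_eq_norm]
  have hd0 : ∀ v, dist (e (P v : ℂ)) 0 = 1 := fun v => by
    have h1 := hd (P v : ℂ) 0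
    rw [map_zero] at h1
    rw [h1, sub_zero, Circle.norm_coe]
  have hinj : Function.Injective (fun v => e (P v : ℂ)) :=
    e.injective.comp (Circle.coe_injective.comp hP)
  refine ⟨fun v => e (P v : ℂ), ⟨hinj, ?_, ?_⟩, hd0⟩
  · intro u v w huv hvw huw
    rw [← affineIndependent_iff_not_collinear_set]
    refine EuclideanGeometry.Cospherical.affineIndependent_of_ne ⟨0, 1, ?_⟩ (hinj.ne huv)
      (hinj.ne huw) (hinj.ne hvw)
    rintro p (rfl | rfl | rfl)
    · exact hd0 u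
    · exact hd0 v
    · exact hd0 w
  · intro u v huv
    rw [hadj u v huv]
    show (∃ q : ℚ, ‖(P u : ℂ) - (P v : ℂ)‖ = (q : ℝ)) ↔
      ∃ q : ℚ, dist (e (P u : ℂ)) (e (P v : ℂ)) = (q : ℝ)
    rw [hd]

end Pool.Agent.Lib.MPa24e3f.CR
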