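import Pool.Agent.Lib.MP_a24e3f_co.CR.Spec

/-!
# GEB: from the plane to the unit circle (MP_a24e3f_co)
-/

namespace Pool.Agent.Lib.MPa24e3f.CR

open Pool.Agent.Lib.MP_a24e3f_co

namespace GEBM

theorem dist_plane (a b : Plane) : dist a b = √((a 0 - b 0) ^ 2 + (a 1 - b 1) ^ 2) := by
  rw [EuclideanSpace.dist_eq]
  congr 1
  rw [Fin.sum_univ_two, Real.dist_eq, Real.dist_eq, sq_abs, sq_abs]

end GEBM

open GEBM in
theorem specGEB : SpecGEB := by
  intro V G f z r hrep hr
  have hinj : Function.Injective f := hrep.1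
  by_cases hsub : Subsingleton V
  · exact ⟨fun _ => 1, fun u v _ => Subsingleton.elim u v, fun u v huv =>
      absurd (Subsingleton.elim u v) huv⟩
  rw [not_subsingleton_iff_nontrivial] at hsub
  obtain ⟨u0, v0, h0⟩ := hsub
  have hrpos : (0 : ℝ) < (r : ℝ) := by
    rcases lt_or_eq_of_le (show (0 : ℝ) ≤ (r : ℝ) by rw [← hr u0]; exact dist_nonneg) with h | h
    · exact h
    · exfalso
      have h1 := hr u0
      have h2 := hr v0
      rw [← h, dist_eq_zero] at h1 h2
      exact h0 (hinj (h1.trans h2.symm))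
  have hsq : ∀ v, (f v 0 - z 0) ^ 2 + (f v 1 - z 1) ^ 2 = (r : ℝ) ^ 2 := by
    intro v
    have h1 := hr v
    rw [dist_plane] at h1
    rw [← h1, Real.sq_sqrt (by positivity)]
  have hnorm : ∀ v, ‖(⟨(f v 0 - z 0) / r, (f v 1 - z 1) / r⟩ : ℂ)‖ = 1 := by
    intro v
    rw [Complex.norm_def, Real.sqrt_eq_one, Complex.normSq_mk]
    have := hsq v
    field_simp
    linarith
  let P : V → Circle := fun v => ⟨⟨(f v 0 - z 0) / r, (f v 1 - z 1) / r⟩, by
    exact mem_sphere_zero_iff_norm.2 (hnorm v)⟩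
  have hd : ∀ u v, ‖(P u : ℂ) - (P v : ℂ)‖ = dist (f u) (f v) / r := by
    intro u v
    have e1 : (P u : ℂ) - (P v : ℂ) = ⟨(f u 0 - f v 0) / r, (f u 1 - f v 1) / r⟩ := by
      apply Complex.ext
      · change (f u 0 - z 0) / r - (f v 0 - z 0) / r = (f u 0 - f v 0) / r
        ring
      · change (f u 1 - z 1) / r - (f v 1 - z 1) / r = (f u 1 - f v 1) / r
        ring
    rw [e1, dist_plane, Complex.norm_def, Complex.normSq_mk]
    rw [show (f u 0 - f v 0) / (r : ℝ) * ((f u 0 - f v 0) / r) +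
      (f u 1 - f v 1) / (r : ℝ) * ((f u 1 - f v 1) / r) =
      ((f u 0 - f v 0) ^ 2 + (f u 1 - f v 1) ^ 2) / (r : ℝ) ^ 2 by field_simp]
    rw [Real.sqrt_div (by positivity), Real.sqrt_sq hrpos.le]
  have hrat : ∀ u v, RatD (P u) (P v) ↔ ∃ q : ℚ, dist (f u) (f v) = (q : ℝ) := by
    intro u v
    unfold RatD
    rw [hd]
    constructor
    · rintro ⟨q, hq⟩
      refine ⟨q * r, ?_⟩
      rw [div_eq_iff hrpos.ne'] at hq
      push_cast
      exact hq
    · rintro ⟨q, hq⟩
      exact ⟨q / r, by rw [hq]; push_cast; rfl⟩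
  refine ⟨P, fun u v huv => ?_, fun u v huv => ?_⟩
  · have h1 := hd u v
    rw [huv, sub_self, norm_zero] at h1
    have h2 : dist (f u) (f v) = 0 := by
      rcases div_eq_zero_iff.1 h1.symm with h | h
      · exact h
      · exact absurd h hrpos.ne'
    exact hinj (dist_eq_zero.1 h2)
  · rw [hrat]
    exact hrep.adj_iff u v huv

end Pool.Agent.Lib.MPa24e3f.CR
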