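import Pool.Agent.Lib.MP_a24e3f_co.CR.Spec

/-!
# CR (MP_a24e3f_co), module GEN: decompositions in a connected graph
-/

namespace Pool.Agent.Lib.MPa24e3f.CR

open Pool.Agent.Lib.MP_a24e3f_co

theorem specGEN (hSUB : SpecSUB) (hCHD : SpecCHD) (hDEC : SpecDEC) : SpecGEN := by
  have h1 : ∀ s s' : Circle, RatD s s' → ∃ t, IsDec (s / s') t := by
    intro s s' h
    have h2 : RatD (s / s') 1 := (hSUB.2.2.1 s s').1 h
    obtain ⟨D, hD, hS⟩ := (hCHD (s / s')).1 h2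
    have h3 := hDEC.2 1 (-1) squarefree_one hSUB.2.1
    have h4 := hDEC.2 D (-(s / s')) hD hS
    have h5 := (hDEC.1 _ _ _ _ h3 h4).1
    have h6 : (-1 : Circle) * -(s / s') = s / s' := by
      rw [neg_mul_neg, one_mul]
    rw [h6] at h5
    exact ⟨_, h5⟩
  refine ⟨h1, ?_⟩
  intro V G P hG hP v0 v
  obtain ⟨w⟩ := hG.preconnected v0 v
  induction w with
  | nil =>
    rename_i u
    have h2 := hDEC.2 1 1 squarefree_one (hSUB.1 1).1
    rw [← div_self' (P u)] at h2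
    exact ⟨_, h2⟩
  | cons h p ih =>
    rename_i u v' w
    obtain ⟨t, ht⟩ := ih
    obtain ⟨t', ht'⟩ := h1 (P v') (P u) (hP v' u h.symm)
    have h5 := (hDEC.1 _ _ _ _ ht ht').1
    rw [div_mul_div_cancel] at h5
    exact ⟨_, h5⟩

end Pool.Agent.Lib.MPa24e3f.CR
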