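import Pool.Agent.Lib.MP_a24e3f_co.CR.SpecA

/-!
# CR (MP_a24e3f_co), module GNE: decompositions in a connected graph, radius `√E`
-/

set_option autoImplicit false

namespace Pool.Agent.Lib.MPa24e3f.CR

open Pool.Agent.Lib.MP_a24e3f_co

namespace GNEM

theorem rate_div (E : ℕ) (s s' : Circle) (h : RatE E s s') : RatE E (s / s') 1 := by
  obtain ⟨q, hq⟩ := h
  refine ⟨q, ?_⟩
  rw [← hq]
  congr 1
  have h0 : (s' : ℂ) ≠ 0 := Circle.coe_ne_zero s'
  have h1 : ((s / s' : Circle) : ℂ) - ((1 : Circle) : ℂ) = ((s : ℂ) - (s' : ℂ)) / (s' : ℂ) := by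
    rw [Circle.coe_div, Circle.coe_one, sub_div, div_self h0]
  rw [h1, norm_div, Circle.norm_coe, div_one]

theorem one_mem_S (m : ℕ) : (1 : Circle) ∈ S m := by
  refine ⟨1, 0, by norm_num, ?_⟩
  have h1 : h m 1 0 = 1 := by
    apply Complex.ext
    · simp [h]
    · simp [h]
  rw [h1, Circle.coe_one, one_pow]

end GNEM

open GNEM in
/-- **GNE** -/
theorem specGNE (hPAR : SpecPAR) (hDEE : SpecDEE) (hCHE : SpecCHE) : SpecGNE := by
  intro E hE1 hE
  have h1 : ∀ s s' : Circle, RatE E s s' → ∃ t, IsDecE E (s / s') t := by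
    intro s s' hs
    obtain ⟨D, hD, hT⟩ := (hCHE E hE1 hE (s / s')).1 (rate_div E s s' hs)
    obtain ⟨hsq, hpar, -⟩ := hPAR D E hD hE
    refine ⟨_, (hDEE E hE1 hE).2 (par D E) (s / s') hsq ?_⟩
    refine Or.inr ?_
    rw [hpar]
    exact hT
  intro V G P hG hP v0 v
  obtain ⟨w⟩ := hG.preconnected v0 v
  induction w with
  | nil =>
    rename_i u
    have h2 := (hDEE E hE1 hE).2 1 1 squarefree_one (Or.inl (one_mem_S 1))
    rw [← div_self' (P u)] at h2
    exact ⟨_, h2⟩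
  | cons h p ih =>
    rename_i u v' w
    obtain ⟨t, ht⟩ := ih
    obtain ⟨t', ht'⟩ := h1 (P v') (P u) (hP v' u h.symm)
    have h5 := ((hDEE E hE1 hE).1 _ _ _ _ ht ht').1
    rw [div_mul_div_cancel] at h5
    exact ⟨_, h5⟩

end Pool.Agent.Lib.MPa24e3f.CR
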