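import Pool.Agent.Lib.MP_a24e3f_co.CR.Spec

/-!
# Module IFF: the criterion for points on the unit circle
-/

set_option autoImplicit false

namespace Pool.Agent.Lib.MPa24e3f.CR

open Pool.Agent.Lib.MP_a24e3f_co

namespace IFFM

theorem ratD_self (s : Circle) : RatD s s := ⟨0, by simp⟩

end IFFM

open IFFM

theorem specIFF (hSUB : SpecSUB) (hEM1 : SpecEM1) (hEM2 : SpecEM2) (hROT : SpecROT) :
    SpecIFF := by
  intro V _ G
  constructor
  · rintro ⟨P, hP, hadj⟩ c
    refine hEM2 c.supp (G.induce c.supp) (fun v => P v.1) c.connected_toSimpleGraph ?_ ?_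
    · intro u v huv
      exact Subtype.ext (hP huv)
    · intro u v huv
      exact hadj u.1 v.1 (fun h => huv (Subtype.ext h))
  · intro hemb
    obtain ⟨Ψ, hΨ, hΨadj⟩ := hEM1
    set κ : V → G.ConnectedComponent := G.connectedComponentMk with hκ
    haveI : Countable G.ConnectedComponent :=
      Function.Surjective.countable (f := κ) Quot.mk_surjective
    set P0 : V → Circle := fun v => Ψ ((hemb (κ v)).some ⟨v, rfl⟩) with hP0
    have key : ∀ (c : G.ConnectedComponent) (v : V) (hv : κ v = c),
        P0 v = Ψ ((hemb c).some ⟨v, hv⟩) := by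
      intro c v hv
      subst hv
      rfl
    obtain ⟨d, hd⟩ := hROT V G.ConnectedComponent P0 κ
    refine ⟨fun v => d (κ v) * P0 v, ?_, ?_⟩
    · intro u v huv
      have huv' : d (κ u) * P0 u = d (κ v) * P0 v := huv
      have hk : κ u = κ v := by
        by_contra h
        apply hd u v h
        rw [huv']
        exact ratD_self _
      rw [hk] at huv'
      have h1 : P0 u = P0 v := mul_left_cancel huv'
      rw [key (κ v) u hk, key (κ v) v rfl] at h1
      exact congrArg Subtype.val ((hemb (κ v)).some.injective (hΨ h1))
    · intro u v huv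
      by_cases hk : κ u = κ v
      · show G.Adj u v ↔ RatD (d (κ u) * P0 u) (d (κ v) * P0 v)
        rw [hk, hSUB.2.2.2, key (κ v) u hk, key (κ v) v rfl, ← hΨadj, SimpleGraph.Embedding.map_adj_iff]
        · rfl
        · intro h
          exact huv (congrArg Subtype.val ((hemb (κ v)).some.injective h))
      · constructor
        · intro h
          exact absurd (SimpleGraph.ConnectedComponent.sound h.reachable) hk
        · intro h
          exact absurd h (hd u v hk)

end Pool.Agent.Lib.MPa24e3f.CR
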