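import Pool.Agent.Lib.MP_a24e3f_co.CR.Spec

/-!
# IND (MP_a24e3f_co): independence of the norm-one groups
-/

set_option autoImplicit false

namespace Pool.Agent.Lib.MPa24e3f.CR

namespace INDM

open ComplexConjugate

lemma exists_prime {a b : ℕ} (ha : Squarefree a) (hb : Squarefree b) (hab : a ≠ b) :
    ∃ p, p.Prime ∧ ((p ∣ a ∧ ¬ p ∣ b) ∨ (p ∣ b ∧ ¬ p ∣ a)) := by
  by_contra hcon
  push Not at hcon
  apply hab
  have h : a.primeFactors = b.primeFactors := by
    ext p
    simp only [Nat.mem_primeFactors]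
    constructor
    · rintro ⟨hp, h1, _⟩
      exact ⟨hp, (hcon p hp).1 h1, hb.ne_zero⟩
    · rintro ⟨hp, h1, _⟩
      exact ⟨hp, (hcon p hp).2 h1, ha.ne_zero⟩
  calc a = ∏ p ∈ a.primeFactors, p := (Nat.prod_primeFactors_of_squarefree ha).symm
    _ = ∏ p ∈ b.primeFactors, p := by rw [h]
    _ = b := Nat.prod_primeFactors_of_squarefree hb

lemma sqrt_mem {P : Finset ℕ} {m : ℕ} (hm : Squarefree m)
    (h : ∀ q, q.Prime → q ∣ m → q ∈ P) : √(m : ℝ) ∈ K P := by
  have h1 : √(m : ℝ) = ∏ q ∈ m.primeFactors, √(q : ℝ) := by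
    have h2 : ∀ s : Finset ℕ, √((∏ q ∈ s, q : ℕ) : ℝ) = ∏ q ∈ s, √(q : ℝ) := by
      intro s
      induction s using Finset.induction_on with
      | empty => simp
      | insert a s ha ih =>
        rw [Finset.prod_insert ha, Finset.prod_insert ha, Nat.cast_mul,
          Real.sqrt_mul (Nat.cast_nonneg _), ih]
    rw [← h2, Nat.prod_primeFactors_of_squarefree hm]
  rw [h1]
  refine prod_mem fun q hq => ?_
  exact Subfield.subset_closure ⟨q, h q (Nat.prime_of_mem_primeFactors hq)
    (Nat.dvd_of_mem_primeFactors hq), rfl⟩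

lemma rat_mem (L : Subfield ℝ) (q : ℚ) : (q : ℝ) ∈ L := SubfieldClass.ratCast_mem L q

lemma normSq_h {D : ℕ} {u v : ℚ} (huv : u ^ 2 + (D : ℚ) * v ^ 2 = 1) :
    Complex.normSq (h D u v) = 1 := by
  have h1 : ((u : ℝ)) ^ 2 + (D : ℝ) * (v : ℝ) ^ 2 = 1 := by exact_mod_cast huv
  rw [Complex.normSq_apply]
  show (u : ℝ) * u + ((v : ℝ) * √(D : ℝ)) * ((v : ℝ) * √(D : ℝ)) = 1
  have h2 : √(D : ℝ) * √(D : ℝ) = D := Real.mul_self_sqrt (Nat.cast_nonneg _)
  calc (u : ℝ) * u + ((v : ℝ) * √(D : ℝ)) * ((v : ℝ) * √(D : ℝ))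
      = (u : ℝ) ^ 2 + (√(D : ℝ) * √(D : ℝ)) * (v : ℝ) ^ 2 := by ring
    _ = 1 := by rw [h2, h1]

/-- both parts are in `L` -/
def PA (L : Subfield ℝ) (z : ℂ) : Prop := z.re ∈ L ∧ z.im ∈ L

/-- the real part is in `L`, the imaginary part in `L √p` -/
def PB (L : Subfield ℝ) (p : ℕ) (z : ℂ) : Prop := z.re ∈ L ∧ ∃ d ∈ L, z.im = d * √(p : ℝ)

lemma PA_mul {L : Subfield ℝ} {z w : ℂ} (hz : PA L z) (hw : PA L w) : PA L (z * w) := by
  refine ⟨?_, ?_⟩
  · rw [Complex.mul_re]
    exact L.sub_mem (L.mul_mem hz.1 hw.1) (L.mul_mem hz.2 hw.2)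
  · rw [Complex.mul_im]
    exact L.add_mem (L.mul_mem hz.1 hw.2) (L.mul_mem hz.2 hw.1)

lemma PB_mul {L : Subfield ℝ} {p : ℕ} {z w : ℂ} (hz : PB L p z) (hw : PB L p w) :
    PB L p (z * w) := by
  obtain ⟨hz1, d, hd, hz2⟩ := hz
  obtain ⟨hw1, e, he, hw2⟩ := hw
  have h2 : √(p : ℝ) * √(p : ℝ) = p := Real.mul_self_sqrt (Nat.cast_nonneg _)
  refine ⟨?_, z.re * e + d * w.re, L.add_mem (L.mul_mem hz1 he) (L.mul_mem hd hw1), ?_⟩
  · have h3 : (z * w).re = z.re * w.re - d * e * (p : ℝ) := by
      rw [Complex.mul_re, hz2, hw2]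
      linear_combination (-(d * e)) * h2
    rw [h3]
    exact L.sub_mem (L.mul_mem hz1 hw1) (L.mul_mem (L.mul_mem hd he) (natCast_mem L p))
  · rw [Complex.mul_im, hz2, hw2]
    ring

end INDM

open INDM ComplexConjugate in
theorem specIND (hTOW : SpecTOW) : SpecIND := by
  intro F u v
  induction F using Finset.strongInduction with
  | H F ih =>
    intro hsq huv hprod
    by_cases hsub : ∀ D ∈ F, ∀ D' ∈ F, D = D'
    · intro D hD
      have hF : F = {D} := by
        ext E
        rw [Finset.mem_singleton]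
        exact ⟨fun hE => hsub E hE D hD, fun hE => by rw [hE]; exact hD⟩
      rw [hF, Finset.prod_singleton] at hprod
      exact hprod
    · push Not at hsub
      obtain ⟨D₁, h1, D₂, h2, h12⟩ := hsub
      -- a prime which divides exactly one
      have hp : ∃ p, p.Prime ∧ ∃ a ∈ F, ∃ b ∈ F, p ∣ a ∧ ¬ p ∣ b := by
        obtain ⟨p, hp, h | h⟩ := exists_prime (hsq D₁ h1) (hsq D₂ h2) h12
        · exact ⟨p, hp, D₁, h1, D₂, h2, h⟩
        · exact ⟨p, hp, D₂, h2, D₁, h1, h⟩
      obtain ⟨p, hp, a, ha, b, hb, hpa, hpb⟩ := hp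
      set F1 := F.filter (fun D => p ∣ D) with hF1
      set F0 := F.filter (fun D => ¬ p ∣ D) with hF0
      have hF1s : F1 ⊂ F := by
        refine (Finset.filter_subset _ _).ssubset_of_ne fun h => hpb ?_
        have h' : b ∈ F.filter (fun D => p ∣ D) := by rw [h]; exact hb
        exact (Finset.mem_filter.1 h').2
      have hF0s : F0 ⊂ F := by
        refine (Finset.filter_subset _ _).ssubset_of_ne fun h => ?_
        have h' : a ∈ F.filter (fun D => ¬ p ∣ D) := by rw [h]; exact ha
        exact (Finset.mem_filter.1 h').2 hpa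
      set P := (F.biUnion Nat.primeFactors).erase p with hP
      have hPmem : ∀ q, q.Prime → ∀ D ∈ F, q ∣ D → q ≠ p → q ∈ P := by
        intro q hq D hD hqD hqp
        rw [hP, Finset.mem_erase, Finset.mem_biUnion]
        exact ⟨hqp, D, hD, Nat.mem_primeFactors.2 ⟨hq, hqD, (hsq D hD).ne_zero⟩⟩
      have hPp : ∀ q ∈ P, q.Prime := by
        intro q hq
        rw [hP, Finset.mem_erase, Finset.mem_biUnion] at hq
        obtain ⟨_, D, _, h⟩ := hq
        exact Nat.prime_of_mem_primeFactors h
      have hL : √(p : ℝ) ∉ K P := hTOW P p hPp hp (by rw [hP]; exact Finset.notMem_erase _ _)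
      set A := ∏ D ∈ F0, h D (u D) (v D) with hA
      set B := ∏ D ∈ F1, h D (u D) (v D) with hB
      have hAB : B * A = ∏ D ∈ F, h D (u D) (v D) :=
        Finset.prod_filter_mul_prod_filter_not F (fun D => p ∣ D) fun D => h D (u D) (v D)
      have hPA : PA (K P) A := by
        refine Finset.prod_induction _ _ (fun _ _ => PA_mul)
          ⟨by rw [Complex.one_re]; exact (K P).one_mem, by rw [Complex.one_im]; exact (K P).zero_mem⟩
          fun D hD => ?_
        obtain ⟨hDF, hDp⟩ := Finset.mem_filter.1 hD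
        refine ⟨rat_mem _ _, (K P).mul_mem (rat_mem _ _) (sqrt_mem (hsq D hDF) ?_)⟩
        intro q hq hqD
        refine hPmem q hq D hDF hqD ?_
        rintro rfl
        exact hDp hqD
      have hPB : PB (K P) p B := by
        refine Finset.prod_induction _ _ (fun _ _ => PB_mul)
          ⟨by rw [Complex.one_re]; exact (K P).one_mem, 0, (K P).zero_mem, by simp⟩
          fun D hD => ?_
        obtain ⟨hDF, m, hm⟩ := Finset.mem_filter.1 hD
        have hmsq : Squarefree m := (hsq D hDF).squarefree_of_dvd ⟨p, by rw [hm, mul_comm]⟩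
        refine ⟨rat_mem _ _, (v D : ℝ) * √(m : ℝ),
          (K P).mul_mem (rat_mem _ _) (sqrt_mem hmsq ?_), ?_⟩
        · intro q hq hqm
          refine hPmem q hq D hDF (hqm.trans ⟨p, by rw [hm, mul_comm]⟩) ?_
          rintro rfl
          have h3 : q * q ∣ D := by
            rw [hm]
            exact mul_dvd_mul_left q hqm
          exact hq.one_lt.ne' (Nat.isUnit_iff.1 (hsq D hDF q h3))
        · show (v D : ℝ) * √((D : ℕ) : ℝ) = (v D : ℝ) * √(m : ℝ) * √(p : ℝ)
          rw [hm, Nat.cast_mul, Real.sqrt_mul (Nat.cast_nonneg _)]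
          ring
      have hnA : Complex.normSq A = 1 := by
        rw [hA, map_prod]
        exact Finset.prod_eq_one fun D hD => normSq_h (huv D (Finset.mem_filter.1 hD).1)
      have hnB : Complex.normSq B = 1 := by
        rw [hB, map_prod]
        exact Finset.prod_eq_one fun D hD => normSq_h (huv D (Finset.mem_filter.1 hD).1)
      have hAA : A * conj A = 1 := by
        rw [Complex.mul_conj, hnA]
        simp
      rw [← hAB] at hprod
      have hBim : B.im ∈ K P := by
        have h3 : B * A = 1 ∨ B * A = -1 := by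
          rw [pow_two] at hprod
          exact mul_self_eq_one_iff.1 hprod
        rcases h3 with h3 | h3
        · have h4 : B = conj A := by
            calc B = B * (A * conj A) := by rw [hAA, mul_one]
              _ = (B * A) * conj A := by ring
              _ = conj A := by rw [h3, one_mul]
          rw [h4, Complex.conj_im]
          exact (K P).neg_mem hPA.2
        · have h4 : B = -conj A := by
            calc B = B * (A * conj A) := by rw [hAA, mul_one]
              _ = (B * A) * conj A := by ring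
              _ = -conj A := by rw [h3]; ring
          rw [h4, Complex.neg_im, Complex.conj_im, neg_neg]
          exact hPA.2
      obtain ⟨_, d, hd, hBd⟩ := hPB
      have hd0 : d = 0 := by
        by_contra hd0
        apply hL
        have h5 : √(p : ℝ) = B.im / d := by
          rw [hBd]
          field_simp
        rw [h5]
        exact (K P).div_mem hBim hd
      have hBim0 : B.im = 0 := by rw [hBd, hd0, zero_mul]
      have hB2 : B ^ 2 = 1 := by
        have h6 : B = (B.re : ℂ) := Complex.ext (by simp) (by simp [hBim0])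
        rw [Complex.normSq_apply, hBim0, mul_zero, add_zero] at hnB
        rw [h6, pow_two, ← Complex.ofReal_mul, hnB, Complex.ofReal_one]
      have hA2 : A ^ 2 = 1 := by
        rw [mul_pow, hB2, one_mul] at hprod
        exact hprod
      have r1 := ih F1 hF1s (fun D hD => hsq D (Finset.mem_filter.1 hD).1)
        (fun D hD => huv D (Finset.mem_filter.1 hD).1) hB2
      have r0 := ih F0 hF0s (fun D hD => hsq D (Finset.mem_filter.1 hD).1)
        (fun D hD => huv D (Finset.mem_filter.1 hD).1) hA2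
      intro D hD
      by_cases hDp : p ∣ D
      · exact r1 D (Finset.mem_filter.2 ⟨hD, hDp⟩)
      · exact r0 D (Finset.mem_filter.2 ⟨hD, hDp⟩)

end Pool.Agent.Lib.MPa24e3f.CR
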