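import Pool.Agent.Lib.MP_a24e3f_co.CR.Spec

/-!
# INF : the groups `S D` are infinite, and pairs `±` in `S 1`
-/

set_option autoImplicit false

namespace Pool.Agent.Lib.MPa24e3f.CR

open Pool.Agent.Lib.MP_a24e3f_co

namespace INFM

lemma hre (D : ℕ) (u v : ℚ) : (h D u v).re = (u : ℝ) := rfl

lemma him (D : ℕ) (u v : ℚ) : (h D u v).im = (v : ℝ) * √(D : ℝ) := rfl

lemma sqrtsq (D : ℕ) : √(D : ℝ) * √(D : ℝ) = (D : ℝ) := Real.mul_self_sqrt (Nat.cast_nonneg D)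

lemma hnorm (D : ℕ) (u v : ℚ) (huv : u ^ 2 + (D : ℚ) * v ^ 2 = 1) : ‖h D u v‖ = 1 := by
  have h1 : Complex.normSq (h D u v) = 1 := by
    rw [Complex.normSq_apply, hre, him]
    have h2 : ((u : ℝ)) ^ 2 + (D : ℝ) * (v : ℝ) ^ 2 = 1 := by exact_mod_cast huv
    have h3 := sqrtsq D
    calc (u : ℝ) * u + (v : ℝ) * √(D : ℝ) * ((v : ℝ) * √(D : ℝ))
        = (u : ℝ) ^ 2 + (√(D : ℝ) * √(D : ℝ)) * (v : ℝ) ^ 2 := by ring
      _ = 1 := by rw [h3, h2]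
  rw [Complex.normSq_eq_norm_sq] at h1
  have h4 : (0 : ℝ) ≤ ‖h D u v‖ := norm_nonneg _
  nlinarith [h1, h4]

/-- the element of the circle with value `h D u v ^ 2` -/
lemma elt (D : ℕ) (u v : ℚ) (huv : u ^ 2 + (D : ℚ) * v ^ 2 = 1) :
    ∃ s : Circle, (s : ℂ) = h D u v ^ 2 ∧ s ∈ S D := by
  have h1 : ‖h D u v ^ 2‖ = 1 := by rw [norm_pow, hnorm D u v huv, one_pow]
  exact ⟨⟨h D u v ^ 2, mem_sphere_zero_iff_norm.2 h1⟩, rfl, u, v, huv, rfl⟩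

/-- the two coordinates -/
def ca (D n : ℕ) : ℚ := (1 - (D : ℚ) * n ^ 2) / (1 + (D : ℚ) * n ^ 2)

def cb (D n : ℕ) : ℚ := 2 * n / (1 + (D : ℚ) * n ^ 2)

lemma den (D n : ℕ) : (0 : ℚ) < 1 + (D : ℚ) * n ^ 2 := by positivity

lemma cab (D n : ℕ) : ca D n ^ 2 + (D : ℚ) * cb D n ^ 2 = 1 := by
  have h1 := (den D n).ne'
  unfold ca cb
  field_simp
  ring

lemma cbnn (D n : ℕ) : 0 ≤ cb D n := by
  unfold cb
  positivity

lemma cbz (D n : ℕ) (hn : cb D n = 0) : n = 0 := by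
  unfold cb at hn
  rw [div_eq_zero_iff] at hn
  rcases hn with hn | hn
  · have h1 : (n : ℚ) = 0 := by linarith
    exact_mod_cast h1
  · exact absurd hn (den D n).ne'

lemma cainj (D n m : ℕ) (hD : 0 < D) (hnm : ca D n = ca D m) : n = m := by
  unfold ca at hnm
  rw [div_eq_div_iff (den D n).ne' (den D m).ne'] at hnm
  have hD' : (0 : ℚ) < D := by exact_mod_cast hD
  have h1 : (D : ℚ) * ((n : ℚ) ^ 2 - (m : ℚ) ^ 2) = 0 := by linarith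
  have h2 : (n : ℚ) ^ 2 - (m : ℚ) ^ 2 = 0 := by
    rcases mul_eq_zero.1 h1 with h | h
    · exact absurd h hD'.ne'
    · exact h
  have h3 : (n : ℚ) ^ 2 = (m : ℚ) ^ 2 := by linarith
  have h4 : n ^ 2 = m ^ 2 := by exact_mod_cast h3
  exact Nat.pow_left_injective (by norm_num) h4

lemma h10 (D : ℕ) : h D 1 0 = 1 := by
  apply Complex.ext
  · rw [hre]
    simp
  · rw [him]
    simp

lemma part1 (D : ℕ) (hD : 0 < D) :
    ∃ g : ℕ → Circle, Function.Injective g ∧ g 0 = 1 ∧ ∀ n, g n ∈ S D := by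
  choose g hg hgS using fun n => elt D (ca D n) (cb D n) (cab D n)
  refine ⟨g, ?_, ?_, hgS⟩
  · intro n m hnm
    have h1 : h D (ca D n) (cb D n) ^ 2 = h D (ca D m) (cb D m) ^ 2 := by
      rw [← hg n, ← hg m, hnm]
    rcases sq_eq_sq_iff_eq_or_eq_neg.1 h1 with h2 | h2
    · have h3 := congrArg Complex.re h2
      rw [hre, hre] at h3
      exact cainj D n m hD (by exact_mod_cast h3)
    · have h3 := congrArg Complex.im h2
      rw [Complex.neg_im, him, him] at h3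
      have hs : (0 : ℝ) < √(D : ℝ) := Real.sqrt_pos.2 (by exact_mod_cast hD)
      have h4 : ((cb D n : ℝ) + (cb D m : ℝ)) * √(D : ℝ) = 0 := by linarith
      have h5 : (cb D n : ℝ) + (cb D m : ℝ) = 0 := by
        rcases mul_eq_zero.1 h4 with h | h
        · exact h
        · exact absurd h hs.ne'
      have h6 : cb D n + cb D m = 0 := by exact_mod_cast h5
      have h7 := cbnn D n
      have h8 := cbnn D m
      have h9 : n = 0 := cbz D n (by linarith)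
      have h10 : m = 0 := cbz D m (by linarith)
      rw [h9, h10]
  · apply Circle.ext
    rw [hg 0]
    have h1 : ca D 0 = 1 := by simp [ca]
    have h2 : cb D 0 = 0 := by simp [cb]
    rw [h1, h2, h10, one_pow, Circle.coe_one]

/-! ## the second part: `D = 1`, `n = 2 m` -/

lemma sqrt1 : √((1 : ℕ) : ℝ) = 1 := by simp

lemma hsqre (u v : ℚ) : (h 1 u v ^ 2).re = (u : ℝ) ^ 2 - (v : ℝ) ^ 2 := by
  rw [sq, Complex.mul_re, hre, him, sqrt1]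
  ring

lemma hneg (u v : ℚ) : -(h 1 u v ^ 2) = h 1 (-v) u ^ 2 := by
  apply Complex.ext
  · rw [Complex.neg_re, hsqre, hsqre]
    push_cast
    ring
  · rw [Complex.neg_im, sq, sq, Complex.mul_im, Complex.mul_im]
    simp only [hre, him, sqrt1]
    push_cast
    ring

/-- `b = 4 m / (1 + 4 m ^ 2)` -/
lemma bb (m : ℕ) : cb 1 (2 * m) * (1 + 4 * (m : ℚ) ^ 2) = 4 * m := by
  have h1 : (0 : ℚ) < 1 + 4 * (m : ℚ) ^ 2 := by positivity
  have h2 : (1 : ℚ) + ((1 : ℕ) : ℚ) * ((2 * m : ℕ) : ℚ) ^ 2 = 1 + 4 * (m : ℚ) ^ 2 := by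
    push_cast
    ring
  unfold cb
  rw [h2, div_mul_cancel₀ _ h1.ne']
  push_cast
  ring

lemma ab1 (n : ℕ) : ca 1 n ^ 2 = 1 - cb 1 n ^ 2 := by
  have h1 := cab 1 n
  push_cast at h1
  linarith

lemma same (m m' : ℕ) (hb : cb 1 (2 * m) ^ 2 = cb 1 (2 * m') ^ 2) : m = m' := by
  have h1 : cb 1 (2 * m) = cb 1 (2 * m') := by
    rcases sq_eq_sq_iff_eq_or_eq_neg.1 hb with h | h
    · exact h
    · have h2 := cbnn 1 (2 * m)
      have h3 := cbnn 1 (2 * m')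
      linarith
  have h2 := bb m
  have h3 := bb m'
  rw [← h1] at h3
  -- `m (1 + 4 m'²) = m' (1 + 4 m²)`
  have h4 : (m : ℚ) * (1 + 4 * (m' : ℚ) ^ 2) = m' * (1 + 4 * (m : ℚ) ^ 2) := by
    have h5 : 4 * ((m : ℚ) * (1 + 4 * (m' : ℚ) ^ 2)) = 4 * (m' * (1 + 4 * (m : ℚ) ^ 2)) := by
      calc 4 * ((m : ℚ) * (1 + 4 * (m' : ℚ) ^ 2)) = (4 * m) * (1 + 4 * (m' : ℚ) ^ 2) := by ring
        _ = (cb 1 (2 * m) * (1 + 4 * (m : ℚ) ^ 2)) * (1 + 4 * (m' : ℚ) ^ 2) := by rw [h2]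
        _ = (cb 1 (2 * m) * (1 + 4 * (m' : ℚ) ^ 2)) * (1 + 4 * (m : ℚ) ^ 2) := by ring
        _ = (4 * m') * (1 + 4 * (m : ℚ) ^ 2) := by rw [h3]
        _ = 4 * (m' * (1 + 4 * (m : ℚ) ^ 2)) := by ring
    linarith
  have h6 : ((m : ℤ) - m') * (1 - 4 * m * m') = 0 := by
    have h7 : ((m : ℚ) - m') * (1 - 4 * m * m') = 0 := by linarith
    exact_mod_cast h7
  rcases mul_eq_zero.1 h6 with h | h
  · have h8 : (m : ℤ) = m' := by linarith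
    exact_mod_cast h8
  · exfalso
    have h9 : (4 : ℤ) * ((m : ℤ) * m') = 1 := by linarith
    omega

lemma diff (m m' : ℕ) (hb : cb 1 (2 * m) ^ 2 + cb 1 (2 * m') ^ 2 = 1) : False := by
  have h2 := bb m
  have h3 := bb m'
  have h4 : (16 : ℚ) * (m : ℚ) ^ 2 * (1 + 4 * (m' : ℚ) ^ 2) ^ 2
      + 16 * (m' : ℚ) ^ 2 * (1 + 4 * (m : ℚ) ^ 2) ^ 2
      = (1 + 4 * (m : ℚ) ^ 2) ^ 2 * (1 + 4 * (m' : ℚ) ^ 2) ^ 2 := by
    calc (16 : ℚ) * (m : ℚ) ^ 2 * (1 + 4 * (m' : ℚ) ^ 2) ^ 2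
          + 16 * (m' : ℚ) ^ 2 * (1 + 4 * (m : ℚ) ^ 2) ^ 2
        = (4 * m) ^ 2 * (1 + 4 * (m' : ℚ) ^ 2) ^ 2 + (4 * m') ^ 2 * (1 + 4 * (m : ℚ) ^ 2) ^ 2 := by
          ring
      _ = (cb 1 (2 * m) ^ 2 + cb 1 (2 * m') ^ 2)
          * ((1 + 4 * (m : ℚ) ^ 2) ^ 2 * (1 + 4 * (m' : ℚ) ^ 2) ^ 2) := by
          rw [← h2, ← h3]
          ring
      _ = _ := by rw [hb, one_mul]
  have h5 : 16 * m ^ 2 * (1 + 4 * m' ^ 2) ^ 2 + 16 * m' ^ 2 * (1 + 4 * m ^ 2) ^ 2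
      = (1 + 4 * m ^ 2) ^ 2 * (1 + 4 * m' ^ 2) ^ 2 := by exact_mod_cast h4
  have h6 : Odd ((1 + 4 * m ^ 2) ^ 2 * (1 + 4 * m' ^ 2) ^ 2) := by
    refine Odd.mul (Odd.pow ⟨2 * m ^ 2, by ring⟩) (Odd.pow ⟨2 * m' ^ 2, by ring⟩)
  rw [← h5] at h6
  have h7 : Even (16 * m ^ 2 * (1 + 4 * m' ^ 2) ^ 2 + 16 * m' ^ 2 * (1 + 4 * m ^ 2) ^ 2) :=
    ⟨8 * m ^ 2 * (1 + 4 * m' ^ 2) ^ 2 + 8 * m' ^ 2 * (1 + 4 * m ^ 2) ^ 2, by ring⟩
  exact (Nat.not_even_iff_odd.2 h6) h7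

lemma part2 : ∃ β : ℕ → Circle, Function.Injective β ∧ (∀ n, β n ∈ S 1) ∧
    ∀ m, β (2 * m + 1) = -β (2 * m) := by
  choose κ hκ hκS using fun m => elt 1 (ca 1 (2 * m)) (cb 1 (2 * m)) (cab 1 (2 * m))
  have hre' : ∀ m, ((κ m : ℂ)).re = 1 - 2 * ((cb 1 (2 * m) : ℚ) : ℝ) ^ 2 := by
    intro m
    rw [hκ m, hsqre]
    have h1 := ab1 (2 * m)
    have h2 : ((ca 1 (2 * m) : ℚ) : ℝ) ^ 2 = 1 - ((cb 1 (2 * m) : ℚ) : ℝ) ^ 2 := by
      exact_mod_cast h1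
    rw [h2]
    ring
  have hsame : ∀ m m', κ m = κ m' → m = m' := by
    intro m m' hm
    apply same
    have h1 := hre' m
    rw [hm, hre' m'] at h1
    have h2 : ((cb 1 (2 * m) : ℚ) : ℝ) ^ 2 = ((cb 1 (2 * m') : ℚ) : ℝ) ^ 2 := by linarith
    exact_mod_cast h2
  have hdiff : ∀ m m', κ m ≠ -κ m' := by
    intro m m' hm
    apply diff m m'
    have h1 := hre' m
    rw [hm, Circle.coe_neg, Complex.neg_re, hre' m'] at h1
    have h2 : ((cb 1 (2 * m) : ℚ) : ℝ) ^ 2 + ((cb 1 (2 * m') : ℚ) : ℝ) ^ 2 = 1 := by linarith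
    exact_mod_cast h2
  refine ⟨fun n => if n % 2 = 0 then κ (n / 2) else -κ (n / 2), ?_, ?_, ?_⟩
  · intro n n' hn
    simp only at hn
    by_cases h1 : n % 2 = 0
    · by_cases h2 : n' % 2 = 0
      · rw [if_pos h1, if_pos h2] at hn
        have h3 := hsame _ _ hn
        omega
      · rw [if_pos h1, if_neg h2] at hn
        exact absurd hn (hdiff _ _)
    · by_cases h2 : n' % 2 = 0
      · rw [if_neg h1, if_pos h2] at hn
        exact absurd hn.symm (hdiff _ _)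
      · rw [if_neg h1, if_neg h2] at hn
        have h3 := hsame _ _ (neg_injective hn)
        omega
  · intro n
    by_cases h1 : n % 2 = 0
    · simp only [if_pos h1]
      exact hκS _
    · simp only [if_neg h1]
      refine ⟨-cb 1 (2 * (n / 2)), ca 1 (2 * (n / 2)), ?_, ?_⟩
      · have h2 := ab1 (2 * (n / 2))
        push_cast
        rw [h2]
        ring
      · rw [Circle.coe_neg, hκ, hneg]
  · intro m
    have h1 : (2 * m + 1) % 2 ≠ 0 := by omega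
    have h2 : (2 * m) % 2 = 0 := by omega
    have h3 : (2 * m + 1) / 2 = m := by omega
    have h4 : 2 * m / 2 = m := by omega
    simp only [if_neg h1, if_pos h2, h3, h4]

end INFM

theorem specINF : SpecINF := ⟨fun D hD => INFM.part1 D hD, INFM.part2⟩

end Pool.Agent.Lib.MPa24e3f.CR
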