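import Pool.Agent.Lib.MP_a24e3f_co.CR.SpecA

/-!
# Module JCL of `CR/SpecA.lean` (MP_a24e3f_co): the groups `J E m`
-/

set_option autoImplicit false

namespace Pool.Agent.Lib.MPa24e3f.CR

open Pool.Agent.Lib.MP_a24e3f_co

namespace JCLM

/-- A squarefree number which is the inverse of a rational square is one. -/
theorem eq_one_of (n : ℕ) (hn : Squarefree n) (q : ℚ) (h : (n : ℚ) * q ^ 2 = 1) : n = 1 := by
  have h1 : ((n : ℚ) * q) * ((n : ℚ) * q) = (n : ℚ) := by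
    have : ((n : ℚ) * q) * ((n : ℚ) * q) = (n : ℚ) * ((n : ℚ) * q ^ 2) := by ring
    rw [this, h, mul_one]
  have h2 : IsSquare (n : ℚ) := ⟨_, h1.symm⟩
  rw [Rat.isSquare_natCast_iff] at h2
  obtain ⟨r, hr⟩ := h2
  have h3 : IsUnit r := hn r (by rw [hr])
  rw [Nat.isUnit_iff] at h3
  rw [hr, h3]

/-- The data. -/
structure Dat (m E D : ℕ) (g : ℚ) : Prop where
  mp : 0 < m
  Ep : 1 < E
  Dp : 0 < D
  gp : g ≠ 0
  sqE : Squarefree E
  sqm : Squarefree m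
  sqD : Squarefree D
  r1 : √(D : ℝ) * √(E : ℝ) = (g : ℝ) * √(m : ℝ)
  r2 : (m : ℚ) * g ^ 2 = (D : ℚ) * E

variable {m E D : ℕ} {g : ℚ}

theorem Dat.r3 (d : Dat m E D g) : √(m : ℝ) * √(D : ℝ) = ((D : ℚ) / g : ℚ) * √(E : ℝ) := by
  have hg : (g : ℝ) ≠ 0 := by exact_mod_cast d.gp
  have h1 : √(D : ℝ) * √(D : ℝ) = (D : ℝ) := Real.mul_self_sqrt (Nat.cast_nonneg D)
  have h2 := d.r1
  push_cast
  rw [div_mul_eq_mul_div, eq_div_iff hg]
  calc √(m : ℝ) * √(D : ℝ) * (g : ℝ) = √(D : ℝ) * ((g : ℝ) * √(m : ℝ)) := by ring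
    _ = √(D : ℝ) * (√(D : ℝ) * √(E : ℝ)) := by rw [h2]
    _ = (√(D : ℝ) * √(D : ℝ)) * √(E : ℝ) := by ring
    _ = (D : ℝ) * √(E : ℝ) := by rw [h1]

theorem Dat.r4 (d : Dat m E D g) : √(m : ℝ) * √(E : ℝ) = ((E : ℚ) / g : ℚ) * √(D : ℝ) := by
  have hg : (g : ℝ) ≠ 0 := by exact_mod_cast d.gp
  have h1 : √(E : ℝ) * √(E : ℝ) = (E : ℝ) := Real.mul_self_sqrt (Nat.cast_nonneg E)
  have h2 := d.r1
  push_cast
  rw [div_mul_eq_mul_div, eq_div_iff hg]
  calc √(m : ℝ) * √(E : ℝ) * (g : ℝ) = √(E : ℝ) * ((g : ℝ) * √(m : ℝ)) := by ring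
    _ = √(E : ℝ) * (√(D : ℝ) * √(E : ℝ)) := by rw [h2]
    _ = (√(E : ℝ) * √(E : ℝ)) * √(D : ℝ) := by ring
    _ = (E : ℝ) * √(D : ℝ) := by rw [h1]

theorem normSq_h (m : ℕ) (a b : ℚ) : Complex.normSq (h m a b) = ((a ^ 2 + (m : ℚ) * b ^ 2 : ℚ) : ℝ) := by
  have h1 : √(m : ℝ) * √(m : ℝ) = (m : ℝ) := Real.mul_self_sqrt (Nat.cast_nonneg m)
  simp only [h, Complex.normSq_mk]
  push_cast
  linear_combination ((b : ℝ) ^ 2) * h1

theorem normSq_h2 (D E : ℕ) (u v : ℚ) :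
    Complex.normSq (h2 D E u v) = (((D : ℚ) * u ^ 2 + (E : ℚ) * v ^ 2 : ℚ) : ℝ) := by
  have h1 : √(D : ℝ) * √(D : ℝ) = (D : ℝ) := Real.mul_self_sqrt (Nat.cast_nonneg D)
  have h3 : √(E : ℝ) * √(E : ℝ) = (E : ℝ) := Real.mul_self_sqrt (Nat.cast_nonneg E)
  simp only [h2, Complex.normSq_mk]
  push_cast
  linear_combination ((u : ℝ) ^ 2) * h1 + ((v : ℝ) ^ 2) * h3

theorem mul_st (d : Dat m E D g) (a b u v : ℚ) :
    h m a b * h2 D E u v = h2 D E (a * u - b * v * ((E : ℚ) / g)) (a * v + b * u * ((D : ℚ) / g)) := by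
  have h3 := d.r3
  have h4 := d.r4
  apply Complex.ext
  · simp only [h, h2, Complex.mul_re]
    push_cast at h4 ⊢
    linear_combination (-(b : ℝ) * v) * h4
  · simp only [h, h2, Complex.mul_im]
    push_cast at h3 ⊢
    linear_combination ((b : ℝ) * u) * h3

theorem mul_tt (d : Dat m E D g) (u v u' v' : ℚ) :
    h2 D E u v * h2 D E u' v'
      = h m ((D : ℚ) * u * u' - (E : ℚ) * v * v') ((u * v' + u' * v) * g) := by
  have h1 : √(D : ℝ) * √(D : ℝ) = (D : ℝ) := Real.mul_self_sqrt (Nat.cast_nonneg D)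
  have h3 : √(E : ℝ) * √(E : ℝ) = (E : ℝ) := Real.mul_self_sqrt (Nat.cast_nonneg E)
  have h5 := d.r1
  apply Complex.ext
  · simp only [h, h2, Complex.mul_re]
    push_cast
    linear_combination ((u : ℝ) * u') * h1 - ((v : ℝ) * v') * h3
  · simp only [h, h2, Complex.mul_im]
    push_cast
    linear_combination ((u : ℝ) * v' + (u' : ℝ) * v) * h5

theorem st_mem (d : Dat m E D g) (s s' : Circle) (hs : s ∈ S m) (hs' : s' ∈ T E D) : s * s' ∈ T E D := by
  obtain ⟨a, b, hab, hs⟩ := hs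
  obtain ⟨u, v, huv, hs'⟩ := hs'
  refine ⟨a * u - b * v * ((E : ℚ) / g), a * v + b * u * ((D : ℚ) / g), ?_, ?_⟩
  · have h1 := congrArg Complex.normSq (mul_st d a b u v)
    rw [map_mul, normSq_h, normSq_h2, normSq_h2, hab, huv] at h1
    have h2 : ((1 : ℚ) : ℝ) * ((1 : ℚ) : ℝ) = 1 := by norm_num
    rw [h2] at h1
    exact_mod_cast h1.symm
  · rw [Circle.coe_mul, hs, hs', ← mul_pow, mul_st d]

theorem tt_mem (d : Dat m E D g) (s s' : Circle) (hs : s ∈ T E D) (hs' : s' ∈ T E D) : s * s' ∈ S m := by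
  obtain ⟨a, b, hab, hs⟩ := hs
  obtain ⟨u, v, huv, hs'⟩ := hs'
  refine ⟨(D : ℚ) * a * u - (E : ℚ) * b * v, (a * v + u * b) * g, ?_, ?_⟩
  · have h1 := congrArg Complex.normSq (mul_tt d a b u v)
    rw [map_mul, normSq_h2, normSq_h2, normSq_h, hab, huv] at h1
    have h2 : ((1 : ℚ) : ℝ) * ((1 : ℚ) : ℝ) = 1 := by norm_num
    rw [h2] at h1
    exact_mod_cast h1.symm
  · rw [Circle.coe_mul, hs, hs', ← mul_pow, mul_tt d]

theorem t_inv (s : Circle) (hs : s ∈ T E D) : s⁻¹ ∈ T E D := by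
  obtain ⟨u, v, huv, hs⟩ := hs
  refine ⟨u, -v, by rw [neg_sq]; exact huv, ?_⟩
  rw [Circle.coe_inv_eq_conj, hs, map_pow]
  apply congrArg (fun z : ℂ => z ^ 2)
  apply Complex.ext
  · simp [h2]
  · simp [h2]

theorem t_countable (E D : ℕ) : (T E D).Countable := by
  have h1 : T E D ⊆ ⋃ p : ℚ × ℚ, {s : Circle | (s : ℂ) = h2 D E p.1 p.2 ^ 2} := by
    rintro s ⟨u, v, _, hs⟩
    exact Set.mem_iUnion.2 ⟨(u, v), hs⟩
  refine Set.Countable.mono h1 (Set.countable_iUnion fun p => ?_)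
  refine Set.Subsingleton.countable ?_
  intro s hs s' hs'
  apply Circle.ext
  exact (show (s : ℂ) = _ from hs).trans (show (s' : ℂ) = _ from hs').symm

theorem one_notMem (_ : Dat m E D g) (hD : D ≠ 1) (hsqD : Squarefree D) : (1 : Circle) ∉ T E D := by
  rintro ⟨u, v, huv, hs⟩
  have h1 := congrArg Complex.re hs
  have hd : √(D : ℝ) * √(D : ℝ) = (D : ℝ) := Real.mul_self_sqrt (Nat.cast_nonneg D)
  have he : √(E : ℝ) * √(E : ℝ) = (E : ℝ) := Real.mul_self_sqrt (Nat.cast_nonneg E)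
  rw [sq, Complex.mul_re] at h1
  simp only [h2, Circle.coe_one, Complex.one_re] at h1
  have h3 : (D : ℝ) * (u : ℝ) ^ 2 - (E : ℝ) * (v : ℝ) ^ 2 = 1 := by
    linear_combination -h1 - ((u : ℝ) ^ 2) * hd + ((v : ℝ) ^ 2) * he
  have h4 : (D : ℚ) * u ^ 2 - (E : ℚ) * v ^ 2 = 1 := by exact_mod_cast h3
  have h5 : (D : ℚ) * u ^ 2 = 1 := by linarith
  exact hD (eq_one_of D hsqD u h5)

theorem disj (d : Dat m E D g) (hD : D ≠ 1) (hsqD : Squarefree D) (hSUB : SpecSUB) (s : Circle)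
    (h1 : s ∈ S m) (h2 : s ∈ T E D) : False := by
  have h3 := st_mem d s⁻¹ s ((hSUB.1 m).2.2.1 s h1) h2
  rw [inv_mul_cancel] at h3
  exact one_notMem d hD hsqD h3

end JCLM

open JCLM in
theorem specJCL (hSUB : SpecSUB) (hPAR : SpecPAR) : SpecJCL := by
  intro E m hE sqE sqm
  obtain ⟨p1, p2, p3, -, -⟩ := hPAR m E sqm sqE
  obtain ⟨-, -, -, q4, q5⟩ := hPAR (par m E) E p1 sqE
  rw [p2] at q4 q5
  have hEp : 0 < E := by omega
  have hgp : 0 < Nat.gcd (par m E) E := Nat.gcd_pos_of_pos_right _ hEp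
  have d : Dat m E (par m E) ((Nat.gcd (par m E) E : ℕ) : ℚ) :=
    { mp := Nat.pos_of_ne_zero sqm.ne_zero
      Ep := hE
      Dp := Nat.pos_of_ne_zero p1.ne_zero
      gp := by exact_mod_cast hgp.ne'
      sqE := sqE
      sqm := sqm
      sqD := p1
      r1 := by rw [q5, Rat.cast_natCast]
      r2 := by exact_mod_cast q4 }
  have S1 : (1 : Circle) ∈ S m := (hSUB.1 m).1
  have Smul := (hSUB.1 m).2.1
  have Sinv := (hSUB.1 m).2.2.1
  have Scnt := (hSUB.1 m).2.2.2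
  have Tinv : ∀ s, s ∈ T E (par m E) → s⁻¹ ∈ T E (par m E) := fun s hs => t_inv s hs
  have TS : ∀ s s', s ∈ T E (par m E) → s' ∈ S m → s * s' ∈ T E (par m E) := by
    intro s s' hs hs'
    rw [mul_comm]
    exact st_mem d s' s hs' hs
  refine ⟨⟨Or.inl S1, ?_, ?_, Scnt.union (t_countable _ _)⟩, ?_, ?_, ?_, ?_⟩
  · rintro s s' (hs | hs) (hs' | hs')
    · exact Or.inl (Smul s s' hs hs')
    · exact Or.inr (st_mem d s s' hs hs')
    · exact Or.inr (TS s s' hs hs')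
    · exact Or.inl (tt_mem d s s' hs hs')
  · rintro s (hs | hs)
    · exact Or.inl (Sinv s hs)
    · exact Or.inr (Tinv s hs)
  · have hm : √(m : ℝ) * √(m : ℝ) = (m : ℝ) := Real.mul_self_sqrt (Nat.cast_nonneg m)
    rintro s (⟨a, b, hab, hs⟩ | ⟨u, v, huv, hs⟩)
    · refine ⟨a ^ 2 - (m : ℚ) * b ^ 2, 2 * a * b, ?_, ?_⟩
      · have : (a ^ 2 - (m : ℚ) * b ^ 2) ^ 2 + (m : ℚ) * (2 * a * b) ^ 2 = (a ^ 2 + (m : ℚ) * b ^ 2) ^ 2 := by
          ring
        rw [this, hab, one_pow]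
      · rw [hs]
        apply Complex.ext
        · rw [sq, Complex.mul_re]
          simp only [h]
          push_cast
          linear_combination (-(b : ℝ) ^ 2) * hm
        · rw [sq, Complex.mul_im]
          simp only [h]
          push_cast
          ring
    · refine ⟨((par m E : ℕ) : ℚ) * u * u - (E : ℚ) * v * v, (u * v + u * v) * ((Nat.gcd (par m E) E : ℕ) : ℚ),
        ?_, ?_⟩
      · have h1 := d.r2
        have : (((par m E : ℕ) : ℚ) * u * u - (E : ℚ) * v * v) ^ 2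
            + (m : ℚ) * ((u * v + u * v) * ((Nat.gcd (par m E) E : ℕ) : ℚ)) ^ 2
            = (((par m E : ℕ) : ℚ) * u ^ 2 + (E : ℚ) * v ^ 2) ^ 2 := by
          linear_combination (4 * u ^ 2 * v ^ 2) * h1
        rw [this, huv, one_pow]
      · rw [hs, sq, mul_tt d]
  · intro hm1
    have key : ∀ (A : ℕ) (p q : ℚ) (x : ℚ), p + q = 1 → p - q = -1 → q = (A : ℚ) * x ^ 2 →
        Squarefree A → A = 1 := by
      intro A p q x h1 h2 h3 h4
      apply eq_one_of A h4 x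
      linarith
    have hmm : √(m : ℝ) * √(m : ℝ) = (m : ℝ) := Real.mul_self_sqrt (Nat.cast_nonneg m)
    have hd : √((par m E : ℕ) : ℝ) * √((par m E : ℕ) : ℝ) = ((par m E : ℕ) : ℝ) :=
      Real.mul_self_sqrt (Nat.cast_nonneg _)
    have he : √(E : ℝ) * √(E : ℝ) = (E : ℝ) := Real.mul_self_sqrt (Nat.cast_nonneg E)
    rintro (⟨a, b, hab, hs⟩ | ⟨u, v, huv, hs⟩)
    · have h1 := congrArg Complex.re hs
      rw [sq, Complex.mul_re] at h1
      simp only [h] at h1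
      have h3 : (a : ℝ) ^ 2 - (m : ℝ) * (b : ℝ) ^ 2 = -1 := by
        have h4 : (((-1 : Circle) : ℂ)).re = -1 := by simp
        rw [h4] at h1
        linear_combination -h1 + ((b : ℝ) ^ 2) * hmm
      have h5 : a ^ 2 - (m : ℚ) * b ^ 2 = -1 := by exact_mod_cast h3
      exact hm1 (key m (a ^ 2) ((m : ℚ) * b ^ 2) b hab h5 rfl sqm)
    · have h1 := congrArg Complex.re hs
      rw [sq, Complex.mul_re] at h1
      simp only [h2] at h1
      have h3 : ((par m E : ℕ) : ℝ) * (u : ℝ) ^ 2 - (E : ℝ) * (v : ℝ) ^ 2 = -1 := by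
        have h4 : (((-1 : Circle) : ℂ)).re = -1 := by simp
        rw [h4] at h1
        linear_combination -h1 - ((u : ℝ) ^ 2) * hd + ((v : ℝ) ^ 2) * he
      have h5 : ((par m E : ℕ) : ℚ) * u ^ 2 - (E : ℚ) * v ^ 2 = -1 := by exact_mod_cast h3
      have := key E (((par m E : ℕ) : ℚ) * u ^ 2) ((E : ℚ) * v ^ 2) v huv h5 rfl sqE
      omega
  · intro hmE
    have hD : par m E ≠ 1 := fun h => hmE (p3.1 h)
    have dis := fun s h1 h2 => disj d hD p1 hSUB s h1 h2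
    refine ⟨one_notMem d hD p1, ?_⟩
    rintro s s' (hs | hs) (hs' | hs')
    · have h1 : s / s' ∈ S m := by
        rw [div_eq_mul_inv]
        exact Smul _ _ hs (Sinv _ hs')
      have a1 : s ∉ T E (par m E) := fun h => dis s hs h
      have a2 : s' ∉ T E (par m E) := fun h => dis s' hs' h
      have a3 : s / s' ∉ T E (par m E) := fun h => dis _ h1 h
      tauto
    · have h1 : s / s' ∈ T E (par m E) := by
        rw [div_eq_mul_inv]
        exact st_mem d _ _ hs (Tinv _ hs')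
      have a1 : s ∉ T E (par m E) := fun h => dis s hs h
      tauto
    · have h1 : s / s' ∈ T E (par m E) := by
        rw [div_eq_mul_inv]
        exact TS _ _ hs (Sinv _ hs')
      have a2 : s' ∉ T E (par m E) := fun h => dis s' hs' h
      tauto
    · have h1 : s / s' ∈ S m := by
        rw [div_eq_mul_inv]
        exact tt_mem d _ _ hs (Tinv _ hs')
      have a3 : s / s' ∉ T E (par m E) := fun h => dis _ h1 h
      tauto
  · intro hmE
    have hD : par m E = 1 := p3.2 hmE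
    subst hmE
    unfold J
    rw [hD]
    apply Set.union_eq_right.2
    rintro s ⟨u, v, huv, hs⟩
    refine ⟨u, v, by rw [Nat.cast_one, one_mul]; exact huv, ?_⟩
    rw [hs]
    apply congrArg (fun z : ℂ => z ^ 2)
    apply Complex.ext
    · simp [h, h2]
    · simp [h, h2]

end Pool.Agent.Lib.MPa24e3f.CR
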