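import Pool.Agent.Lib.MP_a24e3f_co.CR.Spec

/-!
# Module ROT: rotations which destroy all rational distances between countably many classes
-/

set_option autoImplicit false

namespace Pool.Agent.Lib.MPa24e3f.CR

open Pool.Agent.Lib.MP_a24e3f_co

namespace ROTM

lemma closure_countable {A : Type} [Group A] {s : Set A} (hs : s.Countable) :
    Countable (Subgroup.closure s) := by
  rw [FreeGroup.closure_eq_range s]
  have h1 : Countable s := hs.to_subtype
  have h2 : Countable (FreeGroup s) := by
    have : Function.Surjective (Quot.mk (FreeGroup.Red.Step (α := s))) := Quot.mk_surjective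
    exact this.countable
  have h3 : Function.Surjective (FreeGroup.lift ((↑) : s → A)).rangeRestrict :=
    MonoidHom.rangeRestrict_surjective _
  exact h3.countable

lemma grp {A : Type} [CommGroup A] (x y p q : A) :
    y⁻¹ * x = ((x * p) / (y * q)) * q * p⁻¹ := by
  rw [div_eq_mul_inv, mul_inv, ← mul_assoc (x * p), inv_mul_cancel_right, mul_right_comm (x * p),
    mul_inv_cancel_right, mul_comm]

lemma not_countable_circle : ¬ Countable Circle := by
  intro h
  have h1 : Countable (Set.Ioc (-Real.pi) Real.pi) := Circle.argEquiv.symm.injective.countable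
  have h2 : (Set.Ioc (-Real.pi) Real.pi).Countable := Set.countable_coe_iff.1 h1
  rw [Cardinal.Real.Ioc_countable_iff] at h2
  linarith [Real.pi_pos]

lemma quot_infinite (N : Subgroup Circle) [Countable N] : Infinite (Circle ⧸ N) := by
  by_contra hcon
  rw [not_infinite_iff_finite] at hcon
  apply not_countable_circle
  have h1 : Countable (Circle ⧸ N) := Finite.to_countable
  have h2 : Countable ((Circle ⧸ N) × N) := inferInstance
  exact (Subgroup.groupEquivQuotientProdSubgroup (s := N)).injective.countable

end ROTM

open ROTM in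
theorem specROT (hSUB : SpecSUB) (hCHD : SpecCHD) : SpecROT := by
  intro V ι _ _ P κ
  obtain ⟨h1, -, h3, -⟩ := hSUB
  set R : Set Circle := {s | RatD s 1} with hR
  have hRc : R.Countable := by
    have hsub : R ⊆ ⋃ D : ℕ, (fun s : Circle => -s) '' S D := by
      intro s hs
      obtain ⟨D, _, hD⟩ := (hCHD s).1 hs
      exact Set.mem_iUnion.2 ⟨D, -s, hD, neg_neg s⟩
    exact (Set.countable_iUnion fun D => ((h1 D).2.2.2).image _).mono hsub
  set N : Subgroup Circle := Subgroup.closure (R ∪ Set.range P) with hN
  have hNc : Countable N := closure_countable (hRc.union (Set.countable_range P))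
  have := quot_infinite N
  obtain ⟨e, he⟩ := exists_injective_nat ι
  set j : ι → Circle ⧸ N := fun i => Infinite.natEmbedding (Circle ⧸ N) (e i) with hj
  have hji : Function.Injective j := (Infinite.natEmbedding (Circle ⧸ N)).injective.comp he
  refine ⟨fun i => Quotient.out (j i), ?_⟩
  intro u v huv hrat
  have hout : ∀ i, ((Quotient.out (j i) : Circle) : Circle ⧸ N) = j i := fun i =>
    QuotientGroup.out_eq' (j i)
  apply huv
  apply hji
  rw [← hout (κ u), ← hout (κ v)]
  symm
  rw [QuotientGroup.eq]
  have hPu : P u ∈ N := Subgroup.subset_closure (Or.inr ⟨u, rfl⟩)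
  have hPv : P v ∈ N := Subgroup.subset_closure (Or.inr ⟨v, rfl⟩)
  have hq : (Quotient.out (j (κ u)) * P u) / (Quotient.out (j (κ v)) * P v) ∈ N :=
    Subgroup.subset_closure (Or.inl ((h3 _ _).1 hrat))
  have e1 : (Quotient.out (j (κ v)))⁻¹ * Quotient.out (j (κ u)) =
      ((Quotient.out (j (κ u)) * P u) / (Quotient.out (j (κ v)) * P v)) * P v * (P u)⁻¹ := by
    exact grp _ _ _ _
  rw [e1]
  exact N.mul_mem (N.mul_mem hq hPv) (N.inv_mem hPu)

end Pool.Agent.Lib.MPa24e3f.CR
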