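import Pool.Agent.Lib.MP_a24e3f_co.CR.Spec

/-!
# CR, module SUB: the groups `S D` (MP_a24e3f_co)
-/

set_option autoImplicit false

namespace Pool.Agent.Lib.MPa24e3f.CR

open Pool.Agent.Lib.MP_a24e3f_co

namespace SUBM

theorem h_mul (D : ℕ) (u v u' v' : ℚ) :
    h D u v * h D u' v' = h D (u * u' - (D : ℚ) * (v * v')) (u * v' + u' * v) := by
  have hs : √(D : ℝ) * √(D : ℝ) = D := Real.mul_self_sqrt (Nat.cast_nonneg D)
  apply Complex.ext
  · rw [Complex.mul_re]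
    simp only [h]
    push_cast
    linear_combination (-(v : ℝ) * v') * hs
  · rw [Complex.mul_im]
    simp only [h]
    push_cast
    ring

theorem h_one (D : ℕ) : h D 1 0 = 1 := by
  apply Complex.ext
  · simp [h]
  · simp [h]

theorem conj_h (D : ℕ) (u v : ℚ) : (starRingEnd ℂ) (h D u v) = h D u (-v) := by
  apply Complex.ext
  · simp [h]
  · simp [h]

theorem norm_div_sub (s s' : Circle) : ‖((s / s' : Circle) : ℂ) - ((1 : Circle) : ℂ)‖ = ‖(s : ℂ) - (s' : ℂ)‖ := by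
  have h0 : (s' : ℂ) ≠ 0 := Circle.coe_ne_zero s'
  have e : ((s / s' : Circle) : ℂ) - ((1 : Circle) : ℂ) = ((s : ℂ) - (s' : ℂ)) / (s' : ℂ) := by
    rw [Circle.coe_div, Circle.coe_one]
    field_simp
  rw [e, norm_div, Circle.norm_coe, div_one]

theorem norm_mul_sub (c s s' : Circle) : ‖((c * s : Circle) : ℂ) - ((c * s' : Circle) : ℂ)‖ = ‖(s : ℂ) - (s' : ℂ)‖ := by
  have e : ((c * s : Circle) : ℂ) - ((c * s' : Circle) : ℂ) = (c : ℂ) * ((s : ℂ) - (s' : ℂ)) := by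
    rw [Circle.coe_mul, Circle.coe_mul]
    ring
  rw [e, norm_mul, Circle.norm_coe, one_mul]

end SUBM

open SUBM in
theorem specSUB : SpecSUB := by
  refine ⟨fun D => ⟨?_, ?_, ?_, ?_⟩, ?_, ?_, ?_⟩
  · refine ⟨1, 0, by norm_num, ?_⟩
    rw [h_one, Circle.coe_one, one_pow]
  · rintro s s' ⟨u, v, h1, h2⟩ ⟨u', v', h1', h2'⟩
    refine ⟨u * u' - (D : ℚ) * (v * v'), u * v' + u' * v, ?_, ?_⟩
    · have : (u * u' - (D : ℚ) * (v * v')) ^ 2 + (D : ℚ) * (u * v' + u' * v) ^ 2 =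
          (u ^ 2 + (D : ℚ) * v ^ 2) * (u' ^ 2 + (D : ℚ) * v' ^ 2) := by ring
      rw [this, h1, h1', one_mul]
    · rw [Circle.coe_mul, h2, h2', ← h_mul, mul_pow]
  · rintro s ⟨u, v, h1, h2⟩
    refine ⟨u, -v, by rw [← h1]; ring, ?_⟩
    rw [Circle.coe_inv_eq_conj, h2, map_pow, conj_h]
  · refine Set.Countable.mono (s₂ := ⋃ p : ℚ × ℚ, {s : Circle | (s : ℂ) = h D p.1 p.2 ^ 2}) ?_ ?_
    · rintro s ⟨u, v, _, h2⟩
      exact Set.mem_iUnion.2 ⟨(u, v), h2⟩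
    · refine Set.countable_iUnion fun p => Set.Subsingleton.countable ?_
      intro s hs s' hs'
      have h1 : (s : ℂ) = h D p.1 p.2 ^ 2 := hs
      have h2 : (s' : ℂ) = h D p.1 p.2 ^ 2 := hs'
      exact Circle.ext (h1.trans h2.symm)
  · refine ⟨0, 1, by norm_num, ?_⟩
    have e : h 1 0 1 = Complex.I := by
      apply Complex.ext
      · simp [h]
      · simp [h]
    rw [e, Complex.I_sq]
    simp
  · intro s s'
    unfold RatD
    rw [norm_div_sub]
  · intro c s s'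
    unfold RatD
    rw [norm_mul_sub]

end Pool.Agent.Lib.MPa24e3f.CR
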