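import Pool.Agent.Lib.MP_a24e3f_co.CR.Spec

/-! # Module TOW: square roots of primes are independent -/

set_option autoImplicit false

namespace Pool.Agent.Lib.MPa24e3f.CR

namespace TOWM

lemma nat_mem (L : Subfield ℝ) (n : ℕ) : (n : ℝ) ∈ L := natCast_mem L n

/-- the elements of `K (insert p P)` -/
lemma form (P : Finset ℕ) (p : ℕ) (hp : √(p : ℝ) ∉ K P) {x : ℝ} (hx : x ∈ K (insert p P)) :
    ∃ a ∈ K P, ∃ b ∈ K P, x = a + b * √(p : ℝ) := by
  have hs : √(p : ℝ) * √(p : ℝ) = p := Real.mul_self_sqrt (Nat.cast_nonneg p)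
  unfold K at hx
  induction hx using Subfield.closure_induction with
  | mem x hx =>
    obtain ⟨q, hq, rfl⟩ := hx
    rw [Finset.coe_insert, Set.mem_insert_iff] at hq
    rcases hq with rfl | hq
    · exact ⟨0, zero_mem _, 1, one_mem _, by ring⟩
    · exact ⟨√(q : ℝ), Subfield.subset_closure ⟨q, hq, rfl⟩, 0, zero_mem _, by ring⟩
  | one => exact ⟨1, one_mem _, 0, zero_mem _, by ring⟩
  | add x y _ _ ihx ihy =>
    obtain ⟨a, ha, b, hb, rfl⟩ := ihx
    obtain ⟨c, hc, d, hd, rfl⟩ := ihy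
    exact ⟨a + c, add_mem ha hc, b + d, add_mem hb hd, by ring⟩
  | neg x _ ihx =>
    obtain ⟨a, ha, b, hb, rfl⟩ := ihx
    exact ⟨-a, neg_mem ha, -b, neg_mem hb, by ring⟩
  | inv x _ ihx =>
    obtain ⟨a, ha, b, hb, rfl⟩ := ihx
    by_cases h0 : a + b * √(p : ℝ) = 0
    · exact ⟨0, zero_mem _, 0, zero_mem _, by rw [h0]; simp⟩
    · have hN : a ^ 2 - p * b ^ 2 ≠ 0 := by
        intro hN
        by_cases hb0 : b = 0
        · subst hb0
          have : a = 0 := by
            have : a ^ 2 = 0 := by linarith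
            exact pow_eq_zero_iff (two_ne_zero) |>.1 this
          exact h0 (by rw [this]; ring)
        · have h1 : (√(p : ℝ)) ^ 2 = (a / b) ^ 2 := by
            rw [div_pow, eq_div_iff (pow_ne_zero 2 hb0), sq (√(p : ℝ)), hs]
            linarith
          rcases sq_eq_sq_iff_eq_or_eq_neg.1 h1 with h2 | h2
          · exact hp (h2 ▸ div_mem ha hb)
          · exact hp (h2 ▸ neg_mem (div_mem ha hb))
      refine ⟨a / (a ^ 2 - p * b ^ 2), div_mem ha ?_, -b / (a ^ 2 - p * b ^ 2),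
        div_mem (neg_mem hb) ?_, ?_⟩
      · exact sub_mem (pow_mem ha 2) (mul_mem (nat_mem _ p) (pow_mem hb 2))
      · exact sub_mem (pow_mem ha 2) (mul_mem (nat_mem _ p) (pow_mem hb 2))
      · have h4 : a / (a ^ 2 - p * b ^ 2) + -b / (a ^ 2 - p * b ^ 2) * √(p : ℝ) =
            (a - b * √(p : ℝ)) / (a ^ 2 - p * b ^ 2) := by ring
        rw [h4]
        refine inv_eq_of_mul_eq_one_right ?_
        rw [← mul_div_assoc, div_eq_one_iff_eq hN]
        linear_combination (-(b ^ 2)) * hs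
  | mul x y _ _ ihx ihy =>
    obtain ⟨a, ha, b, hb, rfl⟩ := ihx
    obtain ⟨c, hc, d, hd, rfl⟩ := ihy
    refine ⟨a * c + p * (b * d), add_mem (mul_mem ha hc) (mul_mem (nat_mem _ p) (mul_mem hb hd)),
      a * d + b * c, add_mem (mul_mem ha hd) (mul_mem hb hc), ?_⟩
    linear_combination (b * d) * hs

lemma base {n : ℕ} (hn : Squarefree n) (h1 : 1 < n) : √(n : ℝ) ∉ K ∅ := by
  intro h
  have hle : K ∅ ≤ (algebraMap ℚ ℝ).fieldRange := by
    unfold K
    rw [Subfield.closure_le]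
    simp
  obtain ⟨q, hq⟩ := hle h
  have hirr : Irrational √(n : ℝ) := by
    rw [irrational_sqrt_natCast_iff]
    rintro ⟨r, rfl⟩
    have h2 := hn r (dvd_refl _)
    rw [Nat.isUnit_iff] at h2
    subst h2
    simp at h1
  exact hirr ⟨q, hq⟩

lemma main (P : Finset ℕ) : (∀ q ∈ P, q.Prime) → ∀ n : ℕ, Squarefree n → 1 < n →
    (∀ q ∈ P, Nat.Coprime n q) → √(n : ℝ) ∉ K P := by
  induction P using Finset.induction_on with
  | empty =>
    intro _ n hn h1 _
    exact base hn h1
  | insert p P hpP ih =>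
    intro hP n hn h1 hc
    have hpp : p.Prime := hP p (Finset.mem_insert_self _ _)
    have hP' : ∀ q ∈ P, q.Prime := fun q hq => hP q (Finset.mem_insert_of_mem hq)
    have ih' := ih hP'
    have hcp : ∀ q ∈ P, Nat.Coprime p q := by
      intro q hq
      rw [Nat.coprime_primes hpp (hP' q hq)]
      rintro rfl
      exact hpP hq
    have hcn : ∀ q ∈ P, Nat.Coprime n q := fun q hq => hc q (Finset.mem_insert_of_mem hq)
    have hnp : Nat.Coprime n p := hc p (Finset.mem_insert_self _ _)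
    have hpL : √(p : ℝ) ∉ K P := ih' p hpp.squarefree hpp.one_lt hcp
    intro hmem
    obtain ⟨a, ha, b, hb, hab⟩ := form P p hpL hmem
    have hs : √(p : ℝ) * √(p : ℝ) = p := Real.mul_self_sqrt (Nat.cast_nonneg p)
    have hsn : √(n : ℝ) * √(n : ℝ) = n := Real.mul_self_sqrt (Nat.cast_nonneg n)
    by_cases hb0 : b = 0
    · apply ih' n hn h1 hcn
      rw [hab, hb0, zero_mul, add_zero]
      exact ha
    by_cases ha0 : a = 0
    · have h2 : √((n * p : ℕ) : ℝ) = b * p := by
        rw [Nat.cast_mul, Real.sqrt_mul (Nat.cast_nonneg n), hab, ha0, zero_add, mul_assoc, hs]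
      refine ih' (n * p) ((Nat.squarefree_mul hnp).2 ⟨hn, hpp.squarefree⟩)
        (lt_of_lt_of_le h1 (Nat.le_mul_of_pos_right n hpp.pos))
        (fun q hq => Nat.Coprime.mul_left (hcn q hq) (hcp q hq)) ?_
      rw [h2]
      exact mul_mem hb (nat_mem _ p)
    · apply hpL
      have h3 : √(p : ℝ) = (n - a ^ 2 - p * b ^ 2) / (2 * a * b) := by
        rw [eq_div_iff (mul_ne_zero (mul_ne_zero two_ne_zero ha0) hb0)]
        rw [hab] at hsn
        linear_combination hsn - b ^ 2 * hs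
      rw [h3]
      refine div_mem (sub_mem (sub_mem (nat_mem _ n) (pow_mem ha 2))
        (mul_mem (nat_mem _ p) (pow_mem hb 2))) (mul_mem (mul_mem ?_ ha) hb)
      exact_mod_cast nat_mem (K P) 2

end TOWM

theorem specTOW : SpecTOW := by
  intro P p hP hp hpP
  refine TOWM.main P hP p hp.squarefree hp.one_lt fun q hq => ?_
  rw [Nat.coprime_primes hp (hP q hq)]
  rintro rfl
  exact hpP hq

end Pool.Agent.Lib.MPa24e3f.CR
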