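import Pool.Agent.Lib.MP_a24e3f_co.CR.Spec

/-! # CR, module UNQ: uniqueness of the decomposition -/

namespace Pool.Agent.Lib.MPa24e3f.CR

/-- uniqueness of the decomposition -/
theorem specUNQ (hIND : SpecIND) (hDEC : SpecDEC) : SpecUNQ := by
  intro s t t' h1 h2
  obtain ⟨r, hrdef⟩ : ∃ r : ℕ → Circle, r = fun D => t D / t' D := ⟨_, rfl⟩
  have hr : IsDec (s / s) r := by
    rw [hrdef]
    exact (hDEC.1 s s t t' h1 h2).2
  obtain ⟨hS, hsq, hfin, hprod⟩ := hr
  have hprod1 : ∏ᶠ D, r D = 1 := by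
    rw [← hprod]
    exact div_self' s
  have hS' : ∀ D : ℕ, ∃ u v : ℚ, u ^ 2 + (D : ℚ) * v ^ 2 = 1 ∧ ((r D : Circle) : ℂ) = h D u v ^ 2 := hS
  choose u v huv hrD using hS'
  have hmem : ∀ D, D ∈ hfin.toFinset ↔ r D ≠ 1 := by
    intro D
    rw [Set.Finite.mem_toFinset]
    exact Iff.rfl
  have hF : ∏ D ∈ hfin.toFinset, r D = 1 := by
    rw [← hprod1]
    symm
    apply finprod_eq_prod_of_mulSupport_subset
    rw [Set.Finite.coe_toFinset]
  have hC : (∏ D ∈ hfin.toFinset, h D (u D) (v D)) ^ 2 = 1 := by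
    rw [← Finset.prod_pow]
    have e1 : ∏ D ∈ hfin.toFinset, h D (u D) (v D) ^ 2 =
        ∏ D ∈ hfin.toFinset, Circle.coeHom (r D) := by
      refine Finset.prod_congr rfl fun D _ => ?_
      rw [← hrD D]
      rfl
    rw [e1, ← map_prod Circle.coeHom, hF, map_one]
  have h3 := hIND hfin.toFinset u v (fun D hD => by
    by_contra hn
    exact (hmem D).mp hD (hsq D hn)) (fun D _ => huv D) hC
  have h4 : ∀ D, r D = 1 := by
    intro D
    by_contra hn
    apply hn
    have h5 := h3 D ((hmem D).mpr hn)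
    rw [← hrD D] at h5
    apply Subtype.ext
    exact h5
  funext D
  have h6 := h4 D
  rw [hrdef] at h6
  exact div_eq_one.mp h6

end Pool.Agent.Lib.MPa24e3f.CR
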