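import Pool.Agent.Lib.MP_a24e3f_co.CR.Spec
import Pool.Agent.Lib.MP_a24e3f_co.CR.TOW
import Pool.Agent.Lib.MP_a24e3f_co.CR.IND
import Pool.Agent.Lib.MP_a24e3f_co.CR.SUB
import Pool.Agent.Lib.MP_a24e3f_co.CR.INF
import Pool.Agent.Lib.MP_a24e3f_co.CR.CHD
import Pool.Agent.Lib.MP_a24e3f_co.CR.COD
import Pool.Agent.Lib.MP_a24e3f_co.CR.DEC
import Pool.Agent.Lib.MP_a24e3f_co.CR.UNQ
import Pool.Agent.Lib.MP_a24e3f_co.CR.ADJ
import Pool.Agent.Lib.MP_a24e3f_co.CR.EM1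
import Pool.Agent.Lib.MP_a24e3f_co.CR.GEN
import Pool.Agent.Lib.MP_a24e3f_co.CR.EM2
import Pool.Agent.Lib.MP_a24e3f_co.CR.ROT
import Pool.Agent.Lib.MP_a24e3f_co.CR.GEA
import Pool.Agent.Lib.MP_a24e3f_co.CR.GEB
import Pool.Agent.Lib.MP_a24e3f_co.CR.IFF
import Pool.Agent.Lib.MP_a24e3f_co.CR.FIN

namespace Pool.Agent.Lib.MPa24e3f.CR

theorem mainFIN : SpecFIN := by
  have hTOW : SpecTOW := specTOW
  have hIND : SpecIND := specIND hTOW
  have hSUB : SpecSUB := specSUB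
  have hINF : SpecINF := specINF
  have hCHD : SpecCHD := specCHD
  have hCOD : SpecCOD := specCOD hSUB
  have hDEC : SpecDEC := specDEC hSUB
  have hUNQ : SpecUNQ := specUNQ hIND hDEC
  have hADJ : SpecADJ := specADJ hSUB hCHD hDEC hUNQ
  have hEM1 : SpecEM1 := specEM1 hSUB hINF hDEC hUNQ hADJ
  have hGEN : SpecGEN := specGEN hSUB hCHD hDEC
  have hEM2 : SpecEM2 := specEM2 hSUB hCOD hDEC hADJ hGEN
  have hROT : SpecROT := specROT hSUB hCHD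
  exact specFIN specGEA specGEB (specIFF hSUB hEM1 hEM2 hROT)

end Pool.Agent.Lib.MPa24e3f.CR
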