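import Pool.Agent.Lib.MP_a24e3f_co.CR.SpecA

/-!
# PAR : the squarefree part of a product of squarefree numbers
-/

set_option autoImplicit false

namespace Pool.Agent.Lib.MPa24e3f.CR

open Pool.Agent.Lib.MP_a24e3f_co

namespace PARM

/-- the shape of two squarefree numbers -/
lemma shape (m E : ℕ) (hm : Squarefree m) (hE : Squarefree E) : ∃ g a b : ℕ, 0 < g ∧ 0 < a ∧ 0 < b ∧
    m = g * a ∧ E = g * b ∧ Nat.gcd m E = g ∧ Nat.Coprime a b ∧ Nat.Coprime g a ∧ Nat.Coprime g b ∧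
    Squarefree a ∧ Squarefree b := by
  have hm0 : 0 < m := Nat.pos_of_ne_zero hm.ne_zero
  have hE0 : 0 < E := Nat.pos_of_ne_zero hE.ne_zero
  have hg : 0 < Nat.gcd m E := Nat.gcd_pos_of_pos_left _ hm0
  obtain ⟨a, ha⟩ := Nat.gcd_dvd_left m E
  obtain ⟨b, hb⟩ := Nat.gcd_dvd_right m E
  refine ⟨Nat.gcd m E, a, b, hg, ?_, ?_, ha, hb, rfl, ?_, ?_, ?_, ?_, ?_⟩
  · apply Nat.pos_of_ne_zero
    intro h
    rw [h, mul_zero] at ha
    omega
  · apply Nat.pos_of_ne_zero
    intro h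
    rw [h, mul_zero] at hb
    omega
  · have h1 : Nat.gcd (Nat.gcd m E * a) (Nat.gcd m E * b) = Nat.gcd m E := by rw [← ha, ← hb]
    rw [Nat.gcd_mul_left] at h1
    have h2 : Nat.gcd m E * Nat.gcd a b = Nat.gcd m E * 1 := by rw [h1, mul_one]
    exact Nat.eq_of_mul_eq_mul_left hg h2
  · rw [ha] at hm
    exact Nat.coprime_of_squarefree_mul hm
  · rw [hb] at hE
    exact Nat.coprime_of_squarefree_mul hE
  · exact hm.squarefree_of_dvd ⟨Nat.gcd m E, by rw [mul_comm]; exact ha⟩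
  · exact hE.squarefree_of_dvd ⟨Nat.gcd m E, by rw [mul_comm]; exact hb⟩

lemma parval (g a b : ℕ) (hg : 0 < g) (hgcd : Nat.gcd (g * a) (g * b) = g) :
    par (g * a) (g * b) = a * b := by
  unfold par
  rw [hgcd]
  have h1 : g * a * (g * b) = g ^ 2 * (a * b) := by ring
  rw [h1]
  exact Nat.mul_div_cancel_left _ (by positivity)

end PARM

open PARM in
theorem specPAR : SpecPAR := by
  intro m E hm hE
  obtain ⟨g, a, b, hg, ha, hb, rfl, rfl, hgcd, hab, hga, hgb, hsa, hsb⟩ := shape m E hm hE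
  have hpar := parval g a b hg hgcd
  rw [hpar, hgcd]
  refine ⟨?_, ?_, ?_, ?_, ?_⟩
  · exact (Nat.squarefree_mul hab).2 ⟨hsa, hsb⟩
  · have h1 : Nat.gcd (b * a) (b * g) = b := by
      rw [Nat.gcd_mul_left, Nat.gcd_comm, hga, mul_one]
    have h2 := parval b a g hb h1
    have h3 : a * b = b * a := mul_comm _ _
    have h4 : g * b = b * g := mul_comm _ _
    rw [h3, h4, h2]
    exact mul_comm _ _
  · constructor
    · intro h
      have h1 : a = 1 := Nat.eq_one_of_mul_eq_one_right h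
      have h2 : b = 1 := Nat.eq_one_of_mul_eq_one_left h
      rw [h1, h2]
    · intro h
      have h1 : a = b := Nat.eq_of_mul_eq_mul_left hg h
      rw [h1] at hab
      have h2 : b = 1 := (Nat.coprime_self b).1 hab
      rw [h1, h2]
  · ring
  · have h1 : (((g * a : ℕ) : ℝ)) * (((g * b : ℕ) : ℝ)) = (g : ℝ) ^ 2 * (((a * b : ℕ) : ℝ)) := by
      push_cast
      ring
    rw [← Real.sqrt_mul (Nat.cast_nonneg _), h1, Real.sqrt_mul (by positivity),
      Real.sqrt_sq (Nat.cast_nonneg _)]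

end Pool.Agent.Lib.MPa24e3f.CR
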