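import Pool.Agent.Lib.MP_a24e3f_co.CR.Spec

/-!
# CR, part A: circles of any radius with rational square (MP_a24e3f_co, Q1)

THEOREM (stronger form of CircleGraphs). Let `G` be a finite or countable graph.
(1) `G` has a rational representation on a circle the SQUARE of whose radius is rational iff every
connected component of `G` is isomorphic to an induced subgraph of `Circ`.
(2) If `G` contains a triangle, then `G` has a rational representation on SOME circle (of any real
radius) iff every connected component is isomorphic to an induced subgraph of `Circ`.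

IDEA. On the circle of radius `√E`, `E > 1` squarefree, the distance of two points with quotient `s`
is rational iff `s = (u √D + v √E i)^2` for some squarefree `D`, `D u^2 + E v^2 = 1`. These sets `T E D`
together with `S m`, `m = D E / gcd^2`, form groups `J E m`, which are again independent and do not
contain `-1` for `m ≠ 1`; so a component is an induced subgraph of the Cartesian product of one
complete graph (`m = E`) and complete bipartite graphs (`m ≠ E`), and this is an induced subgraph of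
`Circ`.

HIVE. Module XXX = file CR/XXX.lean, imports ONLY this file (`Pool.Agent.Lib.MP_a24e3f_co.CR.SpecA`),
namespace `Pool.Agent.Lib.MPa24e3f.CR`, theorem `specXXX (hYYY : SpecYYY) ... : SpecXXX`, own lemmas
in the namespace `Pool.Agent.Lib.MPa24e3f.CR.XXXM`. Claim in table cra_modules, status done when on
main (git land). All facts needed are proved in the docstrings; several modules are close to landed
ones of part one (files CR/CHD, CR/DEC, CR/UNQ, CR/ADJ, CR/GEN, CR/EM2, CR/GEB), adapt those. -/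

namespace Pool.Agent.Lib.MPa24e3f.CR

open Pool.Agent.Lib.MP_a24e3f_co

/-- `h2 D E u v = u √D + v √E i`. -/
noncomputable def h2 (D E : ℕ) (u v : ℚ) : ℂ := ⟨(u : ℝ) * √(D : ℝ), (v : ℝ) * √(E : ℝ)⟩

/-- `T E D`: the squares `(u √D + v √E i)^2` with `u, v` rational and `D u^2 + E v^2 = 1`. -/
def T (E D : ℕ) : Set Circle :=
  {s | ∃ u v : ℚ, (D : ℚ) * u ^ 2 + (E : ℚ) * v ^ 2 = 1 ∧ (s : ℂ) = h2 D E u v ^ 2}

/-- `par m E = m E / gcd(m, E)^2`: for squarefree `m`, `E` the squarefree part of `m E`. -/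
def par (m E : ℕ) : ℕ := m * E / Nat.gcd m E ^ 2

/-- The group `J E m`. -/
def J (E m : ℕ) : Set Circle := S m ∪ T E (par m E)

/-- Decomposition into components in the groups `J E m`. -/
def IsDecE (E : ℕ) (s : Circle) (t : ℕ → Circle) : Prop :=
  (∀ m, t m ∈ J E m) ∧ (∀ m, ¬ Squarefree m → t m = 1) ∧ (Function.mulSupport t).Finite ∧
    s = ∏ᶠ m, t m

/-- The distance of two points of the circle of radius `√E` is rational. -/
def RatE (E : ℕ) (s s' : Circle) : Prop := ∃ q : ℚ, √(E : ℝ) * ‖(s : ℂ) - (s' : ℂ)‖ = (q : ℝ)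

/-- PAR (60 lines). PROOF. Let `g = gcd(m, E)`, `m = g m'`, `E = g E'`; `m', E'` are coprime, and
(squarefree) `g` is coprime to `m'` and to `E'`. So `par m E = m' E'`, squarefree;
`par m E * g^2 = m E`; `√m √E = √(m E) = g √(m' E')`. `gcd(m' E', g E') = E'`, so
`par (m' E') E = m' E' g E' / E'^2 = m' g = m`. `m' E' = 1` iff `m' = E' = 1` iff `m = E`. -/
def SpecPAR : Prop :=
  ∀ m E : ℕ, Squarefree m → Squarefree E →
    Squarefree (par m E) ∧ par (par m E) E = m ∧ (par m E = 1 ↔ m = E) ∧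
    par m E * Nat.gcd m E ^ 2 = m * E ∧
    √(m : ℝ) * √(E : ℝ) = (Nat.gcd m E : ℝ) * √((par m E : ℕ) : ℝ)

/-- JCL (170 lines, uses SUB, PAR). Here `E > 1` and `m` are squarefree. PROOF. Let `D = par m E`, so
`D` is squarefree, `par D E = m`, and with `g = gcd(D, E)`: `√D √E = g √m` (PAR for `D, E`), hence
`√m √D = D √E / g` and `√m √E = E √D / g`. Call `x = a + b √m i` (`a^2 + m b^2 = 1`) an S-root and
`z = u √D + v √E i` (`D u^2 + E v^2 = 1`) a T-root (`a, b, u, v` rational); all have modulus one.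
`x x'` is an S-root (SUB). `x z = (a u √D - b v √m √E) + (a v √E + b u √m √D) i =
(a u - b v E/g) √D + (a v + b u D/g) √E i` is a T-root (its modulus is one). `z z' =
(D u u' - E v v') + (u v' + u' v) g √m i` is an S-root. The conjugates (= inverses) of S-roots and
T-roots are such. So `J E m` is closed under products and inverses and contains `1`; it is countable
(as in SUB). (a) `T E D ⊆`, `S m ⊆` norm one elements: `x^2 = (a^2 - m b^2) + 2 a b √m i`,
`z^2 = (D u^2 - E v^2) + 2 u v g √m i`, both of the form `h m A B`, of modulus one, so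
`A^2 + m B^2 = 1`. (b) `-1 ∉ J E m` for `m ≠ 1`: `x^2 = -1` gives `x = ± i`, `a = 0`, `m b^2 = 1`, so the
squarefree `m` is the square of a rational, `m = 1`; `z^2 = -1` gives `z = ± i`, `u √D = 0`, `u = 0`
(`D > 0`), `E v^2 = 1`, `E = 1`, a contradiction. (c) For `m ≠ E` (so `D ≠ 1`) no element is in both
`S m` and `T E D`: `x^2 = z^2` gives `z = ± x`, `u √D = ± a`; `u ≠ 0` (else `E v^2 = 1`), so `√D` is
rational and `D = 1`, a contradiction. (d) By the product rules and (c): for `s, s' ∈ J E m`,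
`m ≠ E`: `s / s' ∈ T E D` iff exactly one of `s, s'` is in `T E D`. Last part: for `m = E`,
`par E E = 1` and `T E 1 = S E` (`h2 1 E u v = h E u v`). -/
def SpecJCL : Prop :=
  ∀ E m : ℕ, 1 < E → Squarefree E → Squarefree m →
    ((1 : Circle) ∈ J E m ∧ (∀ s s', s ∈ J E m → s' ∈ J E m → s * s' ∈ J E m) ∧
      (∀ s, s ∈ J E m → s⁻¹ ∈ J E m) ∧ (J E m).Countable) ∧
    (∀ s ∈ J E m, ∃ a b : ℚ, a ^ 2 + (m : ℚ) * b ^ 2 = 1 ∧ (s : ℂ) = h m a b) ∧
    (m ≠ 1 → (-1 : Circle) ∉ J E m) ∧
    (m ≠ E → (1 : Circle) ∉ T E (par m E) ∧ ∀ s s', s ∈ J E m → s' ∈ J E m →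
      (s / s' ∈ T E (par m E) ↔ ¬ (s ∈ T E (par m E) ↔ s' ∈ T E (par m E)))) ∧
    (m = E → J E m = T E 1)

/-- DEE (70 lines, uses JCL). `E > 1` squarefree. PROOF. As DEC, with `J E m`; for `m` not squarefree
all components are `1` (and `1 ∈ J E m` for every `m`, since `1 ∈ S m`: `h m 1 0 = 1`). -/
def SpecDEE : Prop :=
  ∀ E : ℕ, 1 < E → Squarefree E →
    (∀ (s s' : Circle) (t t' : ℕ → Circle), IsDecE E s t → IsDecE E s' t' →
      IsDecE E (s * s') (fun m => t m * t' m) ∧ IsDecE E (s / s') (fun m => t m / t' m)) ∧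
    (∀ (m : ℕ) (s : Circle), Squarefree m → s ∈ J E m → IsDecE E s (Pi.mulSingle m s))

/-- UNE (90 lines, uses IND, JCL, DEE). PROOF. By DEE `r m = t m / t' m` satisfies
`IsDecE E 1 r`. Let `F` be the mulSupport of `r` (finite, all elements squarefree). For `m ∈ F` choose
rational `a m, b m` with `a^2 + m b^2 = 1` and `r m = h m (a m) (b m)` (JCL). `∏_{m ∈ F} r m = 1`, so
the square of `∏ h m (a m) (b m)` is `1` and by IND `(h m (a m) (b m))^2 = 1`, so `r m = 1` or
`r m = -1`; for `m ≠ 1` the latter is impossible (JCL). So `r m = 1` for all `m ≠ 1`, and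
`r 1 = ∏ᶠ r = 1`. Hence `r = 1`, `t = t'`. -/
def SpecUNE : Prop :=
  ∀ E : ℕ, 1 < E → Squarefree E →
    ∀ (s : Circle) (t t' : ℕ → Circle), IsDecE E s t → IsDecE E s t' → t = t'

/-- CHE (120 lines). `E > 1` squarefree. PROOF. (←) `s = z^2`, `z = h2 D E u v`, `|z| = 1`:
`‖z^2 - 1‖ = |z| |z - conj z| = 2 |v| √E`, times `√E` is `2 |v| E`. (→) Let `s = x + y i`,
`x^2 + y^2 = 1`, `√E ‖s - 1‖ = q`. `‖s - 1‖^2 = 2 - 2 x`, so `E (2 - 2 x) = q^2`. Put `v = q/(2 E)`
(rational): `x = 1 - 2 E v^2`, `y^2 = 1 - x^2 = 4 E v^2 (1 - E v^2)`. `1 - E v^2 ≥ 0` (as `x ≥ -1`) and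
it is not `0` (a squarefree `E > 1` is not the square of a rational number). So the positive rational
`1 - E v^2` is `D u^2` with `D` squarefree, `u` rational (numerator times denominator, and
`Nat.sq_mul_squarefree`; see CHD). `y^2 = 4 E D u^2 v^2`, `y = 2 u v √D √E` or the negative of it;
replacing `v` by `-v` if necessary, `s = D u^2 - E v^2 + 2 u v √D √E i = (h2 D E u v)^2`, as
`D u^2 - E v^2 = 1 - 2 E v^2 = x`. -/
def SpecCHE : Prop :=
  ∀ E : ℕ, 1 < E → Squarefree E →
    ∀ s : Circle, RatE E s 1 ↔ ∃ D, Squarefree D ∧ s ∈ T E D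

/-- ADE (110 lines, uses PAR, JCL, DEE, UNE, CHE). `E > 1` squarefree. PROOF. `RatE E s s'` iff
`RatE E z 1`, `z = s / s'` (`‖s - s'‖ = ‖s/s' - 1‖`), iff `z ∈ T E D` for some squarefree `D` (CHE).
(→) Let `m0 = par D E` (squarefree, `par m0 E = D`), so `z ∈ J E m0` and by DEE and UNE
`t = mulSingle m0 z`. If `D = 1` then `m0 = E` (`par m0 E = 1`) and `t m = 1` for `m ≠ E`. If `D ≠ 1`
then `m0 ≠ E`, `t m0 = z ∈ T E (par m0 E)` and `t m = 1` for `m ≠ m0`. (←) First case: `z = t E ∈ J E E
= T E 1` (`finprod_eq_single`; JCL). Second case: `z = t m0 ∈ T E (par m0 E)`, squarefree. -/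
def SpecADE : Prop :=
  ∀ E : ℕ, 1 < E → Squarefree E →
    ∀ (s s' : Circle) (t : ℕ → Circle), IsDecE E (s / s') t →
      (RatE E s s' ↔ (∀ m, m ≠ E → t m = 1) ∨
        ∃ m0, m0 ≠ E ∧ Squarefree m0 ∧ t m0 ∈ T E (par m0 E) ∧ ∀ m, m ≠ m0 → t m = 1)

/-- GNE (80 lines, uses PAR, DEE, CHE). `E > 1` squarefree. PROOF. (1) As in ADE `z = s / s' ∈ T E D`,
`m0 = par D E`, `z ∈ J E m0`, `IsDecE E z (mulSingle m0 z)`. (2) Induction on a walk from `v0` to `v`,
as in GEN. (`IsDecE E 1 (mulSingle 1 1)`.) -/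
def SpecGNE : Prop :=
  ∀ E : ℕ, 1 < E → Squarefree E →
    ∀ (V : Type) (G : SimpleGraph V) (P : V → Circle), G.Connected →
      (∀ u v, G.Adj u v → RatE E (P u) (P v)) → ∀ v0 v : V, ∃ t, IsDecE E (P v / P v0) t

/-- EME (170 lines, uses JCL, DEE, ADE, GNE). `E > 1` squarefree. PROOF. Fix `v0` and choose `t v` with
`IsDecE E (P v / P v0) (t v)` (GNE); by DEE `IsDecE E (P u / P v) (t u / t v)`. For squarefree `m` let
`c m : Circle → ℕ` be injective on the countable set `J E m` with `c m 1 = 0`. Let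
`ε v ∈ {0, 1}` be the parity of the number of the squarefree `m ≠ E` with `t v m ∈ T E (par m E)` (a
finite set: `1 ∉ T E (par m E)`, so it is in the mulSupport of `t v`). Let
`φ v = (2 * c E (t v E) + ε v, x)` with `x m = c m (t v m)` for squarefree `m ≠ E` and `x m = 0`
otherwise. Injective: `φ u = φ v` gives `t u m = t v m` for all `m` (for `m` not squarefree both are
`1`; `b / 2 = c E (t E)`), so `P u / P v0 = P v / P v0`, `u = v`. Adjacency for `u ≠ v`: by hypothesis and
ADE, `G.Adj u v` iff (I) `t u m = t v m` for all `m ≠ E`, or (II) for some squarefree `m0 ≠ E`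
`t u m0 / t v m0 ∈ T E (par m0 E)` and `t u m = t v m` for all `m ≠ m0`. (I) iff the `x` are equal, and
then `ε u = ε v`, `t u E ≠ t v E` (else `u = v`), so the first coordinates differ: first case of
`Circ.Adj`; conversely the first case of `Circ.Adj` gives (I). (II): then `t u m0 ≠ t v m0` (as
`1 ∉ T`), exactly one place of `x` differs, `b / 2` is the same, and by JCL exactly one of `t u m0`,
`t v m0` is in `T E (par m0 E)`, so the two finite sets of the parities differ by exactly the element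
`m0` and `ε u ≠ ε v`: second case of `Circ.Adj`. Conversely the second case: exactly one `m0` (squarefree,
`≠ E`) has `t u m0 ≠ t v m0`, `t u E = t v E`, and `ε u ≠ ε v` (as `b` differs and `b / 2` does not), so
exactly one of `t u m0, t v m0` is in `T E (par m0 E)` (the sets of the parities agree outside `m0`), and
by JCL (II) holds. -/
def SpecEME : Prop :=
  ∀ E : ℕ, 1 < E → Squarefree E →
    ∀ (V : Type) (G : SimpleGraph V) (P : V → Circle), G.Connected → Function.Injective P →
      (∀ u v, u ≠ v → (G.Adj u v ↔ RatE E (P u) (P v))) → Nonempty (G ↪g Circ)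

/-- SCA (110 lines). PROOF. If `V` has at most one element take `E = 1`, `P = 1`. Otherwise `ρ > 0` (two
different points at distance `ρ ≥ 0` from `z`), `a = ρ^2 > 0` rational, `a = E w^2` with `E` squarefree
and `w > 0` rational (see CHD: numerator times denominator), so `ρ = w √E`. `P v` = the complex
number with real part `(f v 0 - z 0)/ρ` and imaginary part `(f v 1 - z 1)/ρ` (see GEB), and
`dist (f u) (f v) = ρ ‖P u - P v‖ = w (√E ‖P u - P v‖)`, rational iff `√E ‖P u - P v‖` is. -/
def SpecSCA : Prop :=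
  ∀ (V : Type) (G : SimpleGraph V) (f : V → Plane) (z : Plane) (ρ : ℝ) (a : ℚ),
    IsRationalRep G f → ρ ^ 2 = (a : ℝ) → (∀ v, dist (f v) z = ρ) →
    ∃ E : ℕ, Squarefree E ∧ ∃ P : V → Circle, Function.Injective P ∧
      ∀ u v, u ≠ v → (G.Adj u v ↔ RatE E (P u) (P v))

/-- TRI (90 lines). PROOF. Let `A = f x`, `B = f y`, `C = f w` and `U = B - A`, `V = C - A`,
`W = z - A`. `|U|^2`, `|V|^2`, `|U - V|^2` are squares of rational numbers, so
`U·V = (|U|^2 + |V|^2 - |U - V|^2)/2` is rational. `U, V` are linearly independent (`A, B, C` are not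
collinear), so they are a basis of the plane and the rational number
`Δ = |U|^2 |V|^2 - (U·V)^2` (the square of the determinant of `U, V`) is not `0`. As
`|W| = |W - U| = |W - V| = ρ`: `2 W·U = |U|^2`, `2 W·V = |V|^2`. Let
`α = (|U|^2 |V|^2 - (U·V) |V|^2)/(2 Δ)`, `β = (|U|^2 |V|^2 - (U·V) |U|^2)/(2 Δ)` (rational): then
`(W - α U - β V)·U = 0` and `·V = 0`, so `W = α U + β V` and
`ρ^2 = |W|^2 = W·(α U + β V) = (α |U|^2 + β |V|^2)/2` is rational. (In coordinates: everything is a
polynomial identity in the two coordinates of `U, V, W`; for instance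
`4 Δ ρ^2 = |U|^2 |V|^2 |U - V|^2` follows from the two linear equations.) -/
def SpecTRI : Prop :=
  ∀ (V : Type) (G : SimpleGraph V) (f : V → Plane) (z : Plane) (ρ : ℝ), IsRationalRep G f →
    (∀ v, dist (f v) z = ρ) → (∃ x y w, G.Adj x y ∧ G.Adj y w ∧ G.Adj x w) →
    ∃ a : ℚ, ρ ^ 2 = (a : ℝ)

/-- FNA (100 lines, uses EM2, IFF, GEA, EME, SCA, TRI). PROOF. (1) (→) SCA gives `E` and `P`. Let `c`
be a component; `G.induce c.supp` is connected and `P` restricted to it is injective with the same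
adjacency rule. If `E = 1` use EM2 (`√1 = 1`, so `RatE 1 = RatD`); otherwise `E > 1` (`E ≠ 0`,
squarefree) and EME. (←) IFF and GEA: `z = 0`, `ρ = 1`. (2) (→) TRI and (1); (←) (1). -/
def SpecFNA : Prop :=
  ∀ (V : Type) [Countable V] (G : SimpleGraph V),
    ((∃ f : V → Plane, IsRationalRep G f ∧ ∃ (z : Plane) (ρ : ℝ), (∃ a : ℚ, ρ ^ 2 = (a : ℝ)) ∧
        ∀ v, dist (f v) z = ρ) ↔
      ∀ c : G.ConnectedComponent, Nonempty (G.induce c.supp ↪g Circ)) ∧
    ((∃ x y w, G.Adj x y ∧ G.Adj y w ∧ G.Adj x w) →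
      ((∃ f : V → Plane, IsRationalRep G f ∧ ∃ (z : Plane) (ρ : ℝ), ∀ v, dist (f v) z = ρ) ↔
        ∀ c : G.ConnectedComponent, Nonempty (G.induce c.supp ↪g Circ)))

end Pool.Agent.Lib.MPa24e3f.CR
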