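import Pool.Agent.Lib.MP_a24e3f_co.CR.SpecA

/-!
# TRI: the circumradius of a triangle with rational sides (MP_a24e3f_co)
-/

namespace Pool.Agent.Lib.MPa24e3f.CR

open Pool.Agent.Lib.MP_a24e3f_co

namespace TRIM

theorem dist_sq_plane (a b : Plane) : dist a b ^ 2 = (a 0 - b 0) ^ 2 + (a 1 - b 1) ^ 2 := by
  rw [EuclideanSpace.dist_eq, Real.sq_sqrt (by positivity), Fin.sum_univ_two, Real.dist_eq,
    Real.dist_eq, sq_abs, sq_abs]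

/-- The polynomial identity `4 Δ ρ^2 = |U|^2 |V|^2 |U - V|^2`. -/
theorem key (u0 u1 v0 v1 w0 w1 : ℝ) (h1 : 2 * (w0 * u0 + w1 * u1) = u0 ^ 2 + u1 ^ 2)
    (h2 : 2 * (w0 * v0 + w1 * v1) = v0 ^ 2 + v1 ^ 2) :
    4 * (u0 * v1 - u1 * v0) ^ 2 * (w0 ^ 2 + w1 ^ 2) =
      (u0 ^ 2 + u1 ^ 2) * (v0 ^ 2 + v1 ^ 2) * ((u0 - v0) ^ 2 + (u1 - v1) ^ 2) := by
  have e0 : 2 * w0 * (u0 * v1 - u1 * v0) = (u0 ^ 2 + u1 ^ 2) * v1 - (v0 ^ 2 + v1 ^ 2) * u1 := by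
    rw [← h1, ← h2]
    ring
  have e1 : 2 * w1 * (u0 * v1 - u1 * v0) = (v0 ^ 2 + v1 ^ 2) * u0 - (u0 ^ 2 + u1 ^ 2) * v0 := by
    rw [← h1, ← h2]
    ring
  have e2 : 4 * (u0 * v1 - u1 * v0) ^ 2 * (w0 ^ 2 + w1 ^ 2) =
      (2 * w0 * (u0 * v1 - u1 * v0)) ^ 2 + (2 * w1 * (u0 * v1 - u1 * v0)) ^ 2 := by
    ring
  rw [e2, e0, e1]
  ring

theorem collinear_of_det (A B C : Plane) (hAB : A ≠ B)
    (hdet : (B 0 - A 0) * (C 1 - A 1) - (B 1 - A 1) * (C 0 - A 0) = 0) :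
    Collinear ℝ ({A, B, C} : Set Plane) := by
  have ha : (B 0 - A 0) ^ 2 + (B 1 - A 1) ^ 2 ≠ 0 := by
    intro h
    apply hAB
    have h0 : B 0 - A 0 = 0 := by nlinarith [sq_nonneg (B 0 - A 0), sq_nonneg (B 1 - A 1)]
    have h1 : B 1 - A 1 = 0 := by nlinarith [sq_nonneg (B 0 - A 0), sq_nonneg (B 1 - A 1)]
    ext i
    fin_cases i
    · change A 0 = B 0
      linarith
    · change A 1 = B 1
      linarith
  rw [collinear_iff_of_mem (p₀ := A) (by simp)]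
  refine ⟨B - A, ?_⟩
  intro p hp
  rcases hp with rfl | rfl | hp
  · exact ⟨0, by simp⟩
  · exact ⟨1, by simp⟩
  · rw [Set.mem_singleton_iff] at hp
    subst hp
    refine ⟨((B 0 - A 0) * (p 0 - A 0) + (B 1 - A 1) * (p 1 - A 1)) /
      ((B 0 - A 0) ^ 2 + (B 1 - A 1) ^ 2), ?_⟩
    ext i
    fin_cases i
    · change p 0 = ((B 0 - A 0) * (p 0 - A 0) + (B 1 - A 1) * (p 1 - A 1)) /
        ((B 0 - A 0) ^ 2 + (B 1 - A 1) ^ 2) * (B 0 - A 0) + A 0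
      rw [← sub_eq_iff_eq_add, div_mul_eq_mul_div, eq_div_iff ha]
      linear_combination (-(B 1 - A 1)) * hdet
    · change p 1 = ((B 0 - A 0) * (p 0 - A 0) + (B 1 - A 1) * (p 1 - A 1)) /
        ((B 0 - A 0) ^ 2 + (B 1 - A 1) ^ 2) * (B 1 - A 1) + A 1
      rw [← sub_eq_iff_eq_add, div_mul_eq_mul_div, eq_div_iff ha]
      linear_combination (B 0 - A 0) * hdet

end TRIM

open TRIM in
theorem specTRI : SpecTRI := by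
  intro V G f z ρ hrep hρ hex
  obtain ⟨x, y, w, hxy, hyw, hxw⟩ := hex
  obtain ⟨q1, hq1⟩ := (hrep.adj_iff y x hxy.ne').1 hxy.symm
  obtain ⟨q2, hq2⟩ := (hrep.adj_iff w x hxw.ne').1 hxw.symm
  obtain ⟨q3, hq3⟩ := (hrep.adj_iff y w hyw.ne).1 hyw
  have h1 := dist_sq_plane (f y) (f x)
  have h2 := dist_sq_plane (f w) (f x)
  have h3 := dist_sq_plane (f y) (f w)
  rw [hq1] at h1
  rw [hq2] at h2
  rw [hq3] at h3
  have k1 := dist_sq_plane (f x) z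
  have k2 := dist_sq_plane (f y) z
  have k3 := dist_sq_plane (f w) z
  rw [hρ] at k1 k2 k3
  have hdet : (f y 0 - f x 0) * (f w 1 - f x 1) - (f y 1 - f x 1) * (f w 0 - f x 0) ≠ 0 := by
    intro h
    exact hrep.no_three_collinear x y w hxy.ne hyw.ne hxw.ne
      (collinear_of_det _ _ _ (hrep.injective.ne hxy.ne) h)
  have hk := key (f y 0 - f x 0) (f y 1 - f x 1) (f w 0 - f x 0) (f w 1 - f x 1)
    (z 0 - f x 0) (z 1 - f x 1) (by linear_combination k2 - k1) (by linear_combination k3 - k1)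
  have hW : (z 0 - f x 0) ^ 2 + (z 1 - f x 1) ^ 2 = ρ ^ 2 := by
    rw [k1]
    ring
  have hUV : (f y 0 - f x 0 - (f w 0 - f x 0)) ^ 2 + (f y 1 - f x 1 - (f w 1 - f x 1)) ^ 2 =
      (q3 : ℝ) ^ 2 := by
    rw [h3]
    ring
  rw [hW, hUV, ← h1, ← h2] at hk
  have hΔ : ((f y 0 - f x 0) * (f w 1 - f x 1) - (f y 1 - f x 1) * (f w 0 - f x 0)) ^ 2 =
      ((q1 ^ 2 * q2 ^ 2 - ((q1 ^ 2 + q2 ^ 2 - q3 ^ 2) / 2) ^ 2 : ℚ) : ℝ) := by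
    push_cast
    rw [h1, h2, h3]
    ring
  have hΔ0 : ((q1 ^ 2 * q2 ^ 2 - ((q1 ^ 2 + q2 ^ 2 - q3 ^ 2) / 2) ^ 2 : ℚ) : ℝ) ≠ 0 := by
    rw [← hΔ]
    exact pow_ne_zero 2 hdet
  rw [hΔ] at hk
  refine ⟨q1 ^ 2 * q2 ^ 2 * q3 ^ 2 /
    (4 * (q1 ^ 2 * q2 ^ 2 - ((q1 ^ 2 + q2 ^ 2 - q3 ^ 2) / 2) ^ 2)), ?_⟩
  rw [Rat.cast_div, eq_div_iff]
  · rw [Rat.cast_mul 4, Rat.cast_ofNat, mul_comm, hk]
    push_cast
    ring
  · rw [Rat.cast_mul 4, Rat.cast_ofNat]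
    exact mul_ne_zero (by norm_num) hΔ0

end Pool.Agent.Lib.MPa24e3f.CR
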