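import Pool.Agent.Lib.MP_a24e3f_co.CR.SpecA

/-! # CR, module UNE: uniqueness of the decomposition, groups `J E m` -/

set_option autoImplicit false

namespace Pool.Agent.Lib.MPa24e3f.CR

namespace UNEM

theorem one_or_neg {s : Circle} (h : (s : ℂ) ^ 2 = 1) : s = 1 ∨ s = -1 := by
  have h1 : ((s : ℂ) - 1) * ((s : ℂ) + 1) = 0 := by linear_combination h
  rcases mul_eq_zero.1 h1 with h2 | h2
  · left
    apply Circle.ext
    rw [Circle.coe_one]
    exact sub_eq_zero.1 h2
  · right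
    apply Circle.ext
    rw [Circle.coe_neg, Circle.coe_one]
    exact eq_neg_of_add_eq_zero_left h2

end UNEM

open UNEM

/-- uniqueness of the decomposition -/
theorem specUNE (hIND : SpecIND) (hJCL : SpecJCL) (hDEE : SpecDEE) : SpecUNE := by
  intro E hE1 hE s t t' h1 h2
  obtain ⟨r, hrdef⟩ : ∃ r : ℕ → Circle, r = fun m => t m / t' m := ⟨_, rfl⟩
  have hr : IsDecE E (s / s) r := by
    rw [hrdef]
    exact ((hDEE E hE1 hE).1 s s t t' h1 h2).2
  obtain ⟨hS, hsq, hfin, hprod⟩ := hr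
  have hprod1 : ∏ᶠ m, r m = 1 := by
    rw [← hprod]
    exact div_self' s
  have hS' : ∀ m : ℕ, ∃ a b : ℚ, Squarefree m →
      a ^ 2 + (m : ℚ) * b ^ 2 = 1 ∧ ((r m : Circle) : ℂ) = h m a b := by
    intro m
    by_cases hm : Squarefree m
    · obtain ⟨a, b, h3, h4⟩ := (hJCL E m hE1 hE hm).2.1 (r m) (hS m)
      exact ⟨a, b, fun _ => ⟨h3, h4⟩⟩
    · exact ⟨0, 0, fun h => absurd h hm⟩
  choose u v huv using hS'
  have hmem : ∀ m, m ∈ hfin.toFinset ↔ r m ≠ 1 := by
    intro m
    rw [Set.Finite.mem_toFinset]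
    exact Iff.rfl
  have hsqF : ∀ m ∈ hfin.toFinset, Squarefree m := by
    intro m hm
    by_contra hn
    exact (hmem m).mp hm (hsq m hn)
  have hF : ∏ m ∈ hfin.toFinset, r m = 1 := by
    rw [← hprod1]
    symm
    apply finprod_eq_prod_of_mulSupport_subset
    rw [Set.Finite.coe_toFinset]
  have hC : (∏ m ∈ hfin.toFinset, h m (u m) (v m)) ^ 2 = 1 := by
    have e1 : ∏ m ∈ hfin.toFinset, h m (u m) (v m) =
        ∏ m ∈ hfin.toFinset, Circle.coeHom (r m) := by
      refine Finset.prod_congr rfl fun m hm => ?_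
      rw [← (huv m (hsqF m hm)).2]
      rfl
    rw [e1, ← map_prod Circle.coeHom, hF, map_one, one_pow]
  have h3 := hIND hfin.toFinset u v hsqF (fun m hm => (huv m (hsqF m hm)).1) hC
  have h4 : ∀ m, m ≠ 1 → r m = 1 := by
    intro m hm1
    by_contra hn
    have hm := (hmem m).mpr hn
    have h5 := h3 m hm
    rw [← (huv m (hsqF m hm)).2] at h5
    rcases one_or_neg h5 with h6 | h6
    · exact hn h6
    · apply (hJCL E m hE1 hE (hsqF m hm)).2.2.1 hm1
      rw [← h6]
      exact hS m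
  have h5 : r 1 = 1 := by
    rw [← hprod1]
    symm
    exact finprod_eq_single r 1 h4
  funext m
  have h6 : r m = 1 := by
    by_cases hm : m = 1
    · rw [hm]
      exact h5
    · exact h4 m hm
  rw [hrdef] at h6
  exact div_eq_one.mp h6

end Pool.Agent.Lib.MPa24e3f.CR
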