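import Pool.Agent.Lib.MP_a24e3f_co.CR.Main
import Pool.Agent.Lib.MP_a24e3f_co.CR.SpecA
import Pool.Agent.Lib.MP_a24e3f_co.CR.PAR
import Pool.Agent.Lib.MP_a24e3f_co.CR.JCL
import Pool.Agent.Lib.MP_a24e3f_co.CR.DEE
import Pool.Agent.Lib.MP_a24e3f_co.CR.UNE
import Pool.Agent.Lib.MP_a24e3f_co.CR.CHE
import Pool.Agent.Lib.MP_a24e3f_co.CR.ADE
import Pool.Agent.Lib.MP_a24e3f_co.CR.GNE
import Pool.Agent.Lib.MP_a24e3f_co.CR.EME
import Pool.Agent.Lib.MP_a24e3f_co.CR.SCA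
import Pool.Agent.Lib.MP_a24e3f_co.CR.TRI
import Pool.Agent.Lib.MP_a24e3f_co.CR.FNA

namespace Pool.Agent.Lib.MPa24e3f.CR

theorem mainFNA : SpecFNA := by
  have hTOW : SpecTOW := specTOW
  have hIND : SpecIND := specIND hTOW
  have hSUB : SpecSUB := specSUB
  have hINF : SpecINF := specINF
  have hCHD : SpecCHD := specCHD
  have hCOD : SpecCOD := specCOD hSUB
  have hDEC : SpecDEC := specDEC hSUB
  have hUNQ : SpecUNQ := specUNQ hIND hDEC
  have hADJ : SpecADJ := specADJ hSUB hCHD hDEC hUNQ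
  have hEM1 : SpecEM1 := specEM1 hSUB hINF hDEC hUNQ hADJ
  have hGEN : SpecGEN := specGEN hSUB hCHD hDEC
  have hEM2 : SpecEM2 := specEM2 hSUB hCOD hDEC hADJ hGEN
  have hROT : SpecROT := specROT hSUB hCHD
  have hIFF : SpecIFF := specIFF hSUB hEM1 hEM2 hROT
  have hPAR : SpecPAR := specPAR
  have hJCL : SpecJCL := specJCL hSUB hPAR
  have hDEE : SpecDEE := specDEE hJCL
  have hUNE : SpecUNE := specUNE hIND hJCL hDEE
  have hCHE : SpecCHE := specCHE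
  have hADE : SpecADE := specADE hPAR hJCL hDEE hUNE hCHE
  have hGNE : SpecGNE := specGNE hPAR hDEE hCHE
  have hEME : SpecEME := specEME hJCL hDEE hADE hGNE
  exact specFNA hEM2 hIFF specGEA hEME specSCA specTRI

end Pool.Agent.Lib.MPa24e3f.CR
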