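import Pool.Agent.Lib.MP_a24e3f_co.CR.SpecA

/-!
# SCA: from a circle whose radius has a rational square to the circle of radius `√E`
(MP_a24e3f_co)
-/

namespace Pool.Agent.Lib.MPa24e3f.CR

open Pool.Agent.Lib.MP_a24e3f_co

namespace SCAM

theorem dist_plane (a b : Plane) : dist a b = √((a 0 - b 0) ^ 2 + (a 1 - b 1) ^ 2) := by
  rw [EuclideanSpace.dist_eq]
  congr 1
  rw [Fin.sum_univ_two, Real.dist_eq, Real.dist_eq, sq_abs, sq_abs]

theorem rat_form (r : ℚ) (hr : 0 ≤ r) : ∃ (D : ℕ) (w : ℚ), Squarefree D ∧ r = (D : ℚ) * w ^ 2 := by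
  obtain ⟨D, k, hk, hD⟩ := Nat.sq_mul_squarefree (r.num.toNat * r.den)
  refine ⟨D, (k : ℚ) / (r.den : ℚ), hD, ?_⟩
  have hden : (r.den : ℚ) ≠ 0 := Nat.cast_ne_zero.mpr r.den_ne_zero
  have hnum : ((r.num.toNat : ℕ) : ℚ) = (r.num : ℚ) := by
    have h1 : ((r.num.toNat : ℕ) : ℤ) = r.num := Int.toNat_of_nonneg (Rat.num_nonneg.mpr hr)
    exact_mod_cast congrArg (Int.cast : ℤ → ℚ) h1
  have hk' : (k : ℚ) ^ 2 * (D : ℚ) = (r.num : ℚ) * (r.den : ℚ) := by
    rw [← hnum]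
    exact_mod_cast hk
  have hr' : r = (r.num : ℚ) / (r.den : ℚ) := (Rat.num_div_den r).symm
  have h2 : (D : ℚ) * ((k : ℚ) / (r.den : ℚ)) ^ 2 = ((k : ℚ) ^ 2 * (D : ℚ)) / (r.den : ℚ) ^ 2 := by
    rw [div_pow]
    ring
  rw [h2, hk', sq, mul_div_mul_right _ _ hden]
  exact hr'

end SCAM

open SCAM in
theorem specSCA : SpecSCA := by
  intro V G f z ρ a hrep hρa hr
  have hinj : Function.Injective f := hrep.1
  by_cases hsub : Subsingleton V
  · exact ⟨1, squarefree_one, fun _ => 1, fun u v _ => Subsingleton.elim u v, fun u v huv =>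
      absurd (Subsingleton.elim u v) huv⟩
  rw [not_subsingleton_iff_nontrivial] at hsub
  obtain ⟨u0, v0, h0⟩ := hsub
  have hrpos : (0 : ℝ) < ρ := by
    rcases lt_or_eq_of_le (show (0 : ℝ) ≤ ρ by rw [← hr u0]; exact dist_nonneg) with h | h
    · exact h
    · exfalso
      have h1 := hr u0
      have h2 := hr v0
      rw [← h, dist_eq_zero] at h1 h2
      exact h0 (hinj (h1.trans h2.symm))
  have hapos : (0 : ℝ) < (a : ℝ) := by rw [← hρa]; positivity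
  have ha0 : (0 : ℚ) < a := by exact_mod_cast hapos
  obtain ⟨E, w, hE, hw⟩ := rat_form a ha0.le
  have hw0 : w ≠ 0 := by
    rintro rfl
    rw [hw] at ha0
    norm_num at ha0
  have hwr : (0 : ℝ) < |(w : ℝ)| := abs_pos.2 (by exact_mod_cast hw0)
  have hρ : ρ = |(w : ℝ)| * √(E : ℝ) := by
    have h1 : ρ ^ 2 = (E : ℝ) * (w : ℝ) ^ 2 := by
      rw [hρa, hw]
      push_cast
      ring
    have h2 : ρ = √((E : ℝ) * (w : ℝ) ^ 2) := by
      rw [← h1, Real.sqrt_sq hrpos.le]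
    rw [h2, Real.sqrt_mul (Nat.cast_nonneg E), Real.sqrt_sq_eq_abs]
    ring
  have hsq : ∀ v, (f v 0 - z 0) ^ 2 + (f v 1 - z 1) ^ 2 = ρ ^ 2 := by
    intro v
    have h1 := hr v
    rw [dist_plane] at h1
    rw [← h1, Real.sq_sqrt (by positivity)]
  have hnorm : ∀ v, ‖(⟨(f v 0 - z 0) / ρ, (f v 1 - z 1) / ρ⟩ : ℂ)‖ = 1 := by
    intro v
    rw [Complex.norm_def, Real.sqrt_eq_one, Complex.normSq_mk]
    have := hsq v
    field_simp
    linarith
  let P : V → Circle := fun v => ⟨⟨(f v 0 - z 0) / ρ, (f v 1 - z 1) / ρ⟩, by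
    exact mem_sphere_zero_iff_norm.2 (hnorm v)⟩
  have hd : ∀ u v, ‖(P u : ℂ) - (P v : ℂ)‖ = dist (f u) (f v) / ρ := by
    intro u v
    have e1 : (P u : ℂ) - (P v : ℂ) = ⟨(f u 0 - f v 0) / ρ, (f u 1 - f v 1) / ρ⟩ := by
      apply Complex.ext
      · change (f u 0 - z 0) / ρ - (f v 0 - z 0) / ρ = (f u 0 - f v 0) / ρ
        ring
      · change (f u 1 - z 1) / ρ - (f v 1 - z 1) / ρ = (f u 1 - f v 1) / ρ
        ring
    rw [e1, dist_plane, Complex.norm_def, Complex.normSq_mk]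
    rw [show (f u 0 - f v 0) / ρ * ((f u 0 - f v 0) / ρ) +
      (f u 1 - f v 1) / ρ * ((f u 1 - f v 1) / ρ) =
      ((f u 0 - f v 0) ^ 2 + (f u 1 - f v 1) ^ 2) / ρ ^ 2 by field_simp]
    rw [Real.sqrt_div (by positivity), Real.sqrt_sq hrpos.le]
  have hrat : ∀ u v, RatE E (P u) (P v) ↔ ∃ q : ℚ, dist (f u) (f v) = (q : ℝ) := by
    intro u v
    unfold RatE
    have hkey : dist (f u) (f v) = |(w : ℝ)| * (√(E : ℝ) * ‖(P u : ℂ) - (P v : ℂ)‖) := by
      rw [hd, ← mul_assoc, ← hρ, mul_div_cancel₀ _ hrpos.ne']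
    constructor
    · rintro ⟨q, hq⟩
      refine ⟨|w| * q, ?_⟩
      rw [hkey, hq]
      push_cast
      rfl
    · rintro ⟨q, hq⟩
      refine ⟨q / |w|, ?_⟩
      rw [hq] at hkey
      push_cast
      rw [hkey, mul_div_cancel_left₀ _ hwr.ne']
  refine ⟨E, hE, P, fun u v huv => ?_, fun u v huv => ?_⟩
  · have h1 := hd u v
    rw [huv, sub_self, norm_zero] at h1
    have h2 : dist (f u) (f v) = 0 := by
      rcases div_eq_zero_iff.1 h1.symm with h | h
      · exact h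
      · exact absurd h hrpos.ne'
    exact hinj (dist_eq_zero.1 h2)
  · rw [hrat]
    exact hrep.adj_iff u v huv

end Pool.Agent.Lib.MPa24e3f.CR
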