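import Mathlib
import Pool.Agent.Lib.MP_a24e3f_co.Defs

/-!
# CR: graphs with a rational representation on a circle of rational radius (MP_a24e3f_co, Q1)

THEOREM (CircleGraphs). Let `V` be finite or countable and `G` a graph on `V`. Then `G` has a
rational representation all of whose points lie on one circle of rational radius if and only if
every connected component of `G` is isomorphic to an induced subgraph of the graph `Circ` below.
In particular all these graphs are rational graphs.

IDEA. On the unit circle let `P_u, P_v` be two points, `s = P_u / P_v` (a complex number of modulus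
one). The distance `|s - 1|` is rational iff `-s` is in `S D` for some squarefree `D >= 1`, where
`S D` is the group of the squares of the elements of norm one of `Q(√-D)`. These groups `S D` (`D`
squarefree) are INDEPENDENT. So in every connected component `P_u / P_v` has a unique decomposition
into components `t D ∈ S D`, and the distance is rational iff all components `t D`, `D ≠ 1`, are
trivial, or all but one of them are trivial and `t 1 = -1`. That is the graph `Circ`.

HIVE. Module XXX = file CR/XXX.lean, imports ONLY this file (`Pool.Agent.Lib.MP_a24e3f_co.CR.Spec`),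
namespace `Pool.Agent.Lib.MPa24e3f.CR`, theorem `specXXX (hYYY : SpecYYY) ... : SpecXXX`, own lemmas
in the namespace `Pool.Agent.Lib.MPa24e3f.CR.XXXM`. Claim in table cr_modules, status done when on
main (git land). All facts needed are proved in the docstrings. -/

namespace Pool.Agent.Lib.MPa24e3f.CR

open Pool.Agent.Lib.MP_a24e3f_co

/-- The universal graph of the circle. Vertices: pairs `(b, x)`, `b` a natural number, `x` a finitely
supported sequence of natural numbers. `(b, x)` and `(b', x')` are adjacent iff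
* `x = x'` and `b ≠ b'`, or
* `x` and `x'` differ in exactly one place and `{b, b'} = {2 m, 2 m + 1}` for some `m`. -/
def Circ : SimpleGraph (ℕ × (ℕ →₀ ℕ)) where
  Adj p q := (p.2 = q.2 ∧ p.1 ≠ q.1) ∨
    ((∃ k, p.2 k ≠ q.2 k ∧ ∀ j, j ≠ k → p.2 j = q.2 j) ∧ p.1 / 2 = q.1 / 2 ∧ p.1 ≠ q.1)
  symm := ⟨by
    rintro p q (⟨h1, h2⟩ | ⟨⟨k, h1, h2⟩, h3, h4⟩)
    · exact Or.inl ⟨h1.symm, h2.symm⟩
    · exact Or.inr ⟨⟨k, h1.symm, fun j hj => (h2 j hj).symm⟩, h3.symm, h4.symm⟩⟩
  loopless := ⟨by
    rintro p (⟨_, h⟩ | ⟨_, _, h⟩)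
    · exact h rfl
    · exact h rfl⟩

/-- `h D u v = u + v √D i`. -/
noncomputable def h (D : ℕ) (u v : ℚ) : ℂ := ⟨(u : ℝ), (v : ℝ) * √(D : ℝ)⟩

/-- `S D`: the squares `(u + v √D i)^2` with `u, v` rational and `u^2 + D v^2 = 1`. -/
def S (D : ℕ) : Set Circle :=
  {s | ∃ u v : ℚ, u ^ 2 + (D : ℚ) * v ^ 2 = 1 ∧ (s : ℂ) = h D u v ^ 2}

/-- The real field generated by the square roots of the elements of `P`. -/
noncomputable def K (P : Finset ℕ) : Subfield ℝ :=
  Subfield.closure ((fun p : ℕ => √(p : ℝ)) '' (P : Set ℕ))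

/-- `s` is the product of the components `t D ∈ S D`; almost all components are `1`, and all those
with `D` not squarefree (in particular `D = 0`). -/
def IsDec (s : Circle) (t : ℕ → Circle) : Prop :=
  (∀ D, t D ∈ S D) ∧ (∀ D, ¬ Squarefree D → t D = 1) ∧ (Function.mulSupport t).Finite ∧
    s = ∏ᶠ D, t D

/-- The distance of two points of the unit circle is rational. -/
def RatD (s s' : Circle) : Prop := ∃ q : ℚ, ‖(s : ℂ) - (s' : ℂ)‖ = (q : ℝ)

/-- TOW (90 lines). PROOF. Show by induction on `P` (Finset.induction, all elements prime) the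
stronger statement A(P): for every squarefree `n > 1` coprime to all elements of `P`,
`√n ∉ K P` (the case `n = p` is the claim).
`P = ∅`: `K ∅` is the closure of the empty set, contained in the range of the ring hom `ℚ → ℝ`
(a subfield: `(algebraMap ℚ ℝ).fieldRange`); `√n` is irrational for a squarefree `n > 1` (if
`n = q^2`, `q` rational, then `n` is the square of a natural number, `Nat.irrational_sqrt..` or
`irrational_sqrt_natCast_iff` : `Irrational √n ↔ ¬ IsSquare n`; a squarefree square is 1).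
Step `P ∪ {p}`, `p ∉ P` prime. Let `L = K P`. Claim: every element of `K (insert p P)` is of the
form `a + b √p` with `a, b ∈ L`. By `Subfield.closure_induction`: generators: `√q = √q + 0 √p` for
`q ∈ P`, `√p = 0 + 1 √p`; `1`; sums; negatives; products `(a + b√p)(c + d√p) = (ac + pbd) +
(ad + bc)√p` (natural numbers are in `L`); inverses: if `a + b√p = 0` then the inverse is `0`;
otherwise `a^2 - p b^2 ≠ 0`: if it is `0` then `b ≠ 0` (else `a = b = 0`), and `√p = ± a / b ∈ L`,
against A(P) for `n = p` (a prime is squarefree, `> 1`, coprime to the other primes); so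
`(a + b√p)⁻¹ = (a - b√p) / (a^2 - p b^2)`. Now let `n > 1` be squarefree and coprime to `P` and `p`,
`√n = a + b√p`, `a, b ∈ L`. Squaring, `n = a^2 + p b^2 + 2 a b √p`. If `a b ≠ 0` then
`√p = (n - a^2 - p b^2) / (2 a b) ∈ L`, against A(P). If `b = 0` then `√n = a ∈ L`, against A(P).
If `a = 0` then `√n = b √p`, so `√(n p) = √n √p = b p ∈ L`; but `n p` is squarefree (`n` and `p`
squarefree and coprime: `Nat.squarefree_mul`), `> 1` and coprime to `P`: against A(P). -/
def SpecTOW : Prop :=
  ∀ (P : Finset ℕ) (p : ℕ), (∀ q ∈ P, q.Prime) → p.Prime → p ∉ P → √(p : ℝ) ∉ K P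

/-- IND (150 lines, uses TOW). PROOF. All `h D (u D) (v D)`, `D ∈ F`, have modulus one
(`normSq = u^2 + v^2 D = 1`). Strong induction on `F.card`. If `F` has at most one element, trivial.
Otherwise take `D ≠ D'` in `F`. As both are squarefree and different, some prime divides exactly one
of them (if all primes divide both or none, `D = D'`: a squarefree number is the product of its
`primeFactors`, `Nat.prod_primeFactors_of_squarefree`); fix such a prime `p`. Let `F1 = {D ∈ F, p | D}`
and `F0 = F \ F1`: both nonempty, so both have fewer elements. Put `A = ∏_{F0} h_D`,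
`B = ∏_{F1} h_D`; `|A| = |B| = 1`, `(A B)^2 = 1`, so `A B = ε`, `ε = 1` or `-1` (`sq_eq_one_iff..`).
Let `P` be the finite set of all primes `≠ p` which divide some `D ∈ F`
(`(F.biUnion primeFactors).erase p`), `L = K P`; by TOW `√p ∉ L`.
(a) For every squarefree `m` all of whose prime factors are in `P`: `√m ∈ L` (`√m` is the product of
the `√q`, `q ∈ primeFactors m`).
(b) `re A, im A ∈ L`: induction over the product; each factor has real part `u D ∈ L` and imaginary
part `v D √D ∈ L` by (a); products of complex numbers with both parts in `L` are of this kind.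
(c) `re B ∈ L` and `im B = d √p` with `d ∈ L`: induction over the product; a factor `h_D`, `p | D`,
`D = p m`, has `re = u D`, `im = (v D √m) √p`, `m` squarefree with prime factors in `P` (`p ∤ m`);
product: `(a + d√p i)(a' + d'√p i) = (a a' - p d d') + (a d' + a' d) √p i`.
From `A B = ε` and `|A| = 1`: `B = ε conj A`, so `d √p = im B = - ε im A ∈ L`. If `d ≠ 0` then
`√p = (- ε im A)/d ∈ L`, a contradiction. So `d = 0`, `im B = 0`, `B` is real with `|B| = 1`, so
`B^2 = 1`, and then `A^2 = (A B)^2 / B^2 = 1`. Apply the induction hypothesis to `F0` and to `F1`. -/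
def SpecIND : Prop :=
  ∀ (F : Finset ℕ) (u v : ℕ → ℚ), (∀ D ∈ F, Squarefree D) →
    (∀ D ∈ F, u D ^ 2 + (D : ℚ) * v D ^ 2 = 1) → (∏ D ∈ F, h D (u D) (v D)) ^ 2 = 1 →
    ∀ D ∈ F, h D (u D) (v D) ^ 2 = 1

/-- SUB (90 lines). PROOF. `h D u v * h D u' v' = h D (u u' - D v v') (u v' + u' v)` (`√D √D = D`), and
`(u u' - D v v')^2 + D (u v' + u' v)^2 = (u^2 + D v^2)(u'^2 + D v'^2) = 1`; so `S D` is closed under
products. `h D 1 0 = 1`. Inverse: `h D u (-v)` is the complex conjugate and (norm one) the inverse of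
`h D u v`. `S D` is countable: the map `S D → ℚ × ℚ`, `s ↦` (a choice of `(u, v)`) is injective
(or: `S D` is contained in the union over `(u, v) ∈ ℚ × ℚ` of the sets `{s | (s : ℂ) = h D u v ^ 2}`,
which have at most one element). `-1 ∈ S 1`: `-1 = i^2 = (h 1 0 1)^2`. Last part:
`‖s - s'‖ = ‖(s / s' - 1) s'‖ = ‖s / s' - 1‖`, as `‖s'‖ = 1`; similarly for `c * s`, `c * s'`. -/
def SpecSUB : Prop :=
  (∀ D : ℕ, (1 : Circle) ∈ S D ∧ (∀ s s', s ∈ S D → s' ∈ S D → s * s' ∈ S D) ∧
    (∀ s, s ∈ S D → s⁻¹ ∈ S D) ∧ (S D).Countable) ∧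
  (-1 : Circle) ∈ S 1 ∧
  (∀ s s' : Circle, RatD s s' ↔ RatD (s / s') 1) ∧
  (∀ c s s' : Circle, RatD (c * s) (c * s') ↔ RatD s s')

/-- INF (110 lines). PROOF. (1) Let `a_n = (1 - D n^2)/(1 + D n^2)`, `b_n = 2 n / (1 + D n^2)`
(rational), `a_n^2 + D b_n^2 = 1`, and `g n` the element of the circle with value
`(h D a_n b_n)^2` (modulus one). `g 0 = 1`. Injective: if `g n = g m` then
`h D a_n b_n = ± h D a_m b_m`. If `+`: `a_n = a_m`, so `n^2 = m^2` (`D > 0`), `n = m`. If `-`: the
imaginary parts give `b_n = - b_m`, both `>= 0`, so `b_n = b_m = 0`, `n = m = 0`.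
(2) Let `k_m = h 1 a b` with `a = (1 - 4 m^2)/(1 + 4 m^2)`, `b = 4 m/(1 + 4 m^2)` (that is
`k_m = (1 + 2 m i)^2/(1 + 4 m^2)`), `β (2 m) = k_m^2`, `β (2 m + 1) = - k_m^2 = (i k_m)^2`
(`i k_m = h 1 (-b) a`), so both are in `S 1`. Injective: suppose `k_m^2 = ± k_m'^2`. So `z = k_m /
k_m'` has `z^2 = ± 1`, that is `z` is real or `i` times a real number. With `A = 1 + 4 m m'`,
`B = 2 (m - m')` and `N = (1 + 4 m^2)(1 + 4 m'^2)`: `z = (A + B i)^2 / N = (A^2 - B^2 + 2 A B i)/N`
(up to the sign of `B`). `A B = 0` gives `B = 0`, `m = m'`; `A^2 = B^2` is impossible since `A` is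
odd and `B` even. So `m = m'`; and `k_m^2 ≠ - k_m^2`. (Any other proof is fine, e.g. compare
`re (k_m^2) = (a^2 - b^2)` as rational numbers.) -/
def SpecINF : Prop :=
  (∀ D : ℕ, 0 < D → ∃ g : ℕ → Circle, Function.Injective g ∧ g 0 = 1 ∧ ∀ n, g n ∈ S D) ∧
  ∃ β : ℕ → Circle, Function.Injective β ∧ (∀ n, β n ∈ S 1) ∧ ∀ m, β (2 * m + 1) = -β (2 * m)

/-- CHD (120 lines). PROOF. (←) `-s = h^2`, `h = h D u v`, `|h| = 1`: `‖s - 1‖ = ‖h^2 + 1‖ =
‖h (h + conj h)‖ = |2 u|`, rational.
(→) Let `s = x + y i`, `x^2 + y^2 = 1`, `‖s - 1‖ = q`. Then `q^2 = (x - 1)^2 + y^2 = 2 - 2 x`. Put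
`c = q / 2` (rational): `x = 1 - 2 c^2`, and `y^2 = 1 - x^2 = 4 c^2 (1 - c^2)`; `1 - c^2 >= 0` since
`x >= -1`. If `1 - c^2 = 0` then `s = -1`, `-s = 1 ∈ S 1` (`h 1 1 0 = 1`; `1` is squarefree).
Otherwise `1 - c^2 = m / n` with positive integers `m, n`; `m n = D k^2` with `D` squarefree, `D ≥ 1`
(`Nat.sq_mul_squarefree`), so `1 - c^2 = D (k / n)^2 = D w^2`, `w = k / n` rational. Then
`y^2 = 4 c^2 D w^2 = (2 c w √D)^2`, so `y = 2 c w √D` or `y = - 2 c w √D`. And
`-s = (2 c^2 - 1) - y i = (c ∓ w √D i)^2`, since `c^2 - D w^2 = 2 c^2 - 1`; `c^2 + D w^2 = 1`. -/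
def SpecCHD : Prop := ∀ s : Circle, RatD s 1 ↔ ∃ D, Squarefree D ∧ -s ∈ S D

/-- COD (60 lines, uses SUB). PROOF. `S D` is countable, so there is `e : Circle → ℕ` injective on
`S D` (`Set.countable_iff_exists_injOn`); put `c 1 = 0` and `c s = e s + 1` for `s ≠ 1`.
For the second part let `e` be injective on `S 1` and put `b s = 2 e (s^2) + δ s`, `δ s = 0` if
`e s < e (-s)` and `1` otherwise. For `s, s' ∈ S 1`: `s^2, -s, ... ∈ S 1` (SUB, `-s = (-1) * s`);
`b s / 2 = b s' / 2` iff `e (s^2) = e (s'^2)` iff `s^2 = s'^2` iff `s = ± s'` (in `ℂ`). If moreover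
`s' = - s` then `δ s ≠ δ s'` (as `e s ≠ e (-s)`, because `s ≠ - s`), so `b s ≠ b s'`. -/
def SpecCOD : Prop :=
  (∀ D : ℕ, ∃ c : Circle → ℕ, c 1 = 0 ∧ Set.InjOn c (S D)) ∧
  ∃ b : Circle → ℕ, ∀ s ∈ S 1, ∀ s' ∈ S 1,
    (b s = b s' ↔ s = s') ∧ (b s / 2 = b s' / 2 ↔ s = s' ∨ s = -s')

/-- DEC (70 lines, uses SUB). PROOF. Products and quotients pointwise: `S D` is closed under them
(SUB); the mulSupports are in the union of the two finite mulSupports; `finprod_mul_distrib`,
`finprod_div_distrib` (finite mulSupports). Third part: `Pi.mulSingle D s` has value `s` at `D` and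
`1` elsewhere; its mulSupport is in `{D}`; `∏ᶠ = s` (`finprod_eq_single`). -/
def SpecDEC : Prop :=
  (∀ (s s' : Circle) (t t' : ℕ → Circle), IsDec s t → IsDec s' t' →
    IsDec (s * s') (fun D => t D * t' D) ∧ IsDec (s / s') (fun D => t D / t' D)) ∧
  (∀ (D : ℕ) (s : Circle), Squarefree D → s ∈ S D → IsDec s (Pi.mulSingle D s))

/-- UNQ (80 lines, uses IND and DEC). PROOF. By DEC `r D = t D / t' D` satisfies `IsDec (s / s) r`,
so `∏ᶠ r = 1`. Let `F` be the finite set mulSupport `r`; all `D ∈ F` are squarefree (second part of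
IsDec) and `∏_{D ∈ F} r D = 1` (`finprod_eq_prod_of_mulSupport_subset`). Choose `u, v : ℕ → ℚ` with
`u D^2 + D v D^2 = 1` and `r D = (h D (u D) (v D))^2` for all `D`. Then in `ℂ`
`(∏_{F} h_D)^2 = ∏_F h_D^2 = 1` (coercion of a finite product: `map_prod Circle.coeHom`), so by IND
`r D = h_D^2 = 1` for `D ∈ F`, hence `F = ∅` and `r = 1`, `t = t'`. -/
def SpecUNQ : Prop := ∀ (s : Circle) (t t' : ℕ → Circle), IsDec s t → IsDec s t' → t = t'

/-- ADJ (110 lines, uses SUB, CHD, DEC, UNQ). PROOF. By SUB and CHD, `RatD s s'` iff `RatD z 1`,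
`z = s / s'`, iff `-z ∈ S E` for some squarefree `E`.
(→) Let `-z ∈ S E`. If `E = 1` then `z = (-1) * (-z) ∈ S 1`, so `IsDec z (mulSingle 1 z)` (DEC) and
`t = mulSingle 1 z` by UNQ: `t D = 1` for `D ≠ 1`. If `E ≠ 1`: `z = (-1) * (-z)`,
`IsDec (-1) (mulSingle 1 (-1))` and `IsDec (-z) (mulSingle E (-z))`, so `t` is the product of these
two (UNQ): `t 1 = -1` and `t D = 1` for `D ≠ 1`, `D ≠ E`.
(←) First case: `z = ∏ᶠ t = t 1 ∈ S 1` (`finprod_eq_single`), `-z = (-1) * z ∈ S 1`, `1` squarefree.
Second case: if `E = 1` or `E` is not squarefree, then `t D = 1` for all `D ≠ 1` (second part of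
IsDec) and we are in the first case. Otherwise `z = t 1 * t E = - t E` (e.g. by UNQ-free direct
computation: `∏ᶠ t = ∏ over {1, E}`), so `-z = t E ∈ S E`. -/
def SpecADJ : Prop :=
  ∀ (s s' : Circle) (t : ℕ → Circle), IsDec (s / s') t →
    (RatD s s' ↔ (∀ D, D ≠ 1 → t D = 1) ∨
      (t 1 = -1 ∧ ∃ E, ∀ D, D ≠ 1 → D ≠ E → t D = 1))

/-- EM1 (150 lines, uses SUB, INF, DEC, UNQ, ADJ). PROOF. Take `β` from INF and for every `D > 0` a
function `g D` from INF. For `p = (b, x)` let `T p D = β b` if `D = 1`, `T p D = g D (x (Nat.count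
Nat.Prime D))` if `D` is prime, and `T p D = 1` otherwise, and `Ψ p = ∏ᶠ D, T p D`. Then
`IsDec (Ψ p) (T p)`: primes and `1` are squarefree; the mulSupport is finite, as `T p D ≠ 1`, `D`
prime implies `x (count D) ≠ 0` (`g D 0 = 1`) and `count` is injective on the primes
(`Nat.nth_count`: `Nat.nth Nat.Prime (Nat.count Nat.Prime D) = D` for a prime `D`). Conversely every
`k` is `count` of the prime `Nat.nth Nat.Prime k` (`Nat.count_nth_of_infinite` or the like,
`Nat.infinite_setOf_prime`). Let `p = (b, x)`, `q = (b', x')`. By DEC `IsDec (Ψ p / Ψ q) (T p / T q)`.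
For a prime `D` with count `k`: `T p D / T q D = 1` iff `x k = x' k` (`g D` injective). At `D = 1`:
`T p 1 / T q 1 = β b / β b'` is `1` iff `b = b'`, and `-1` iff `β b = - β b'` iff `b ≠ b'` and
`b / 2 = b' / 2` (if `b' = 2 m` then `- β b' = β (2 m + 1)`, if `b' = 2 m + 1` then `- β b' = β (2 m)`;
`β` injective). Injectivity of `Ψ`: `Ψ p = Ψ q` gives `IsDec 1 (T p / T q)`, so by UNQ (the constant
`1` is a decomposition of `1`: DEC with `mulSingle 1 1`, or directly) `T p = T q`, so `p = q`.
Adjacency for `p ≠ q`, by ADJ: `RatD (Ψ p) (Ψ q)` iff `x = x'` (then `b ≠ b'`), or [`β b = - β b'`,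
and at most one prime `D` has `x k ≠ x' k`]; the second case with no such `D` is contained in the
first. That is `Circ.Adj p q`. -/
def SpecEM1 : Prop :=
  ∃ Ψ : ℕ × (ℕ →₀ ℕ) → Circle, Function.Injective Ψ ∧
    ∀ p q, p ≠ q → (Circ.Adj p q ↔ RatD (Ψ p) (Ψ q))

/-- GEN (70 lines, uses SUB, CHD, DEC). PROOF. (1) By SUB and CHD, `-z ∈ S D`, `z = s / s'`, `D`
squarefree. `z = (-1) * (-z)`: by DEC `IsDec (-1) (mulSingle 1 (-1))` (`1` squarefree, `-1 ∈ S 1`) and
`IsDec (-z) (mulSingle D (-z))`; multiply. (2) By induction on a walk from `v0` to `v`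
(`G.Connected` gives `Reachable`): `v = v0`: `P v / P v0 = 1`, `IsDec 1 (mulSingle 1 1)`. Step
`u ~ w`: `P w / P v0 = (P w / P u) (P u / P v0)`; `RatD (P w) (P u)`, use (1) and DEC. -/
def SpecGEN : Prop :=
  (∀ s s' : Circle, RatD s s' → ∃ t, IsDec (s / s') t) ∧
  ∀ (V : Type) (G : SimpleGraph V) (P : V → Circle), G.Connected →
    (∀ u v, G.Adj u v → RatD (P u) (P v)) → ∀ v0 v : V, ∃ t, IsDec (P v / P v0) t

/-- EM2 (130 lines, uses SUB, COD, DEC, ADJ, GEN). PROOF. Fix `v0` (`V` is nonempty). By GEN choose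
`T v` with `IsDec (P v / P v0) (T v)` for all `v`. By DEC, for all `u, v`:
`IsDec (P u / P v) (T u / T v)` (as `(P u / P v0) / (P v / P v0) = P u / P v`). By COD take `c D` with
`c D 1 = 0`, injective on `S D`, and `b`. Let `φ v = (b (T v 1), x)` with `x D = 0` if `D = 1` and
`x D = c D (T v D)` otherwise; finite support since the mulSupport of `T v` is finite. For `u, v`:
the coordinates of `φ u`, `φ v` at `D ≠ 1` agree iff `T u D = T v D`. Injective: if `φ u = φ v` then
`T u = T v`, so `P u / P v0 = ∏ᶠ T u = ∏ᶠ T v = P v / P v0`, `P u = P v`, `u = v`. Adjacency for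
`u ≠ v`: by hypothesis and ADJ, `G.Adj u v` iff (all `T u D = T v D`, `D ≠ 1`) or
(`T u 1 = - T v 1` and `T u D = T v D` for all `D` outside `{1, E}`, some `E`). In the first case
`T u 1 ≠ T v 1` (otherwise `P u = P v`), so this is exactly the first case of `Circ.Adj`. In the
second case, if it is not the first, exactly one `D ≠ 1` has `T u D ≠ T v D`; and
`T u 1 = - T v 1` iff `b (T u 1) / 2 = b (T v 1) / 2` and `b (T u 1) ≠ b (T v 1)` (COD); this is
exactly the second case of `Circ.Adj`. For `u = v` both sides are false. -/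
def SpecEM2 : Prop :=
  ∀ (V : Type) (G : SimpleGraph V) (P : V → Circle), G.Connected → Function.Injective P →
    (∀ u v, u ≠ v → (G.Adj u v ↔ RatD (P u) (P v))) → Nonempty (G ↪g Circ)

/-- ROT (110 lines, uses SUB, CHD). PROOF. Let `R = {s : Circle | RatD s 1}`; by CHD it is contained
in the union over `D` of the negatives of `S D`, countable by SUB. Let `N` be the subgroup of
`Circle` generated by `R` and the range of `P` (countable set, so `N` is countable:
`Subgroup.closure` of a countable set is countable; if no such lemma is found: `FreeGroup` on a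
countable type is countable and maps onto the closure, `FreeGroup.closure_eq_range`/
`Subgroup.closure_eq...`). The quotient `Circle ⧸ N` is infinite, even uncountable: otherwise
`Circle` would be the union of countably many cosets of `N`, so countable; but `Circle` is
uncountable (`Circle.exp` is injective on `(-π, π]`, by `Circle.arg_exp`, and
`Cardinal.mk_Ioc_real`; or any other way). So the countable type `ι` has an injection `j` into
`Circle ⧸ N`; let `c i` be a representative of `j i`. For `κ u ≠ κ v` suppose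
`RatD (c (κ u) * P u) (c (κ v) * P v)`. By SUB `(c (κ u) * P u)/(c (κ v) * P v) ∈ R ⊆ N`, and
`P u, P v ∈ N`, so `c (κ u) / c (κ v) ∈ N`, that is `j (κ u) = j (κ v)`, a contradiction. -/
def SpecROT : Prop :=
  ∀ (V ι : Type) [Countable V] [Countable ι] (P : V → Circle) (κ : V → ι), ∃ c : ι → Circle,
    ∀ u v, κ u ≠ κ v → ¬ RatD (c (κ u) * P u) (c (κ v) * P v)

/-- GEA (70 lines). PROOF. `f v = !₂[re (P v), im (P v)]`. `dist (f u) (f v) = ‖P u - P v‖`
(`EuclideanSpace.dist_eq`, `Complex.norm_def`/`Complex.norm_eq_sqrt_sq_add_sq`), `dist (f v) 0 = 1`.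
Injective since `P` is. No three collinear: three different points at distance `1` from `0` are
affinely independent (`EuclideanGeometry.Cospherical.affineIndependent_of_ne`,
`affineIndependent_iff_not_collinear_set`). Adjacency: by hypothesis. -/
def SpecGEA : Prop :=
  ∀ (V : Type) (G : SimpleGraph V) (P : V → Circle), Function.Injective P →
    (∀ u v, u ≠ v → (G.Adj u v ↔ RatD (P u) (P v))) →
    ∃ f : V → Plane, IsRationalRep G f ∧ ∀ v, dist (f v) 0 = 1

/-- GEB (90 lines). PROOF. If `V` has at most one element take `P = 1` (constant). Otherwise there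
are two different points at distance `r` from `z`, so `r > 0`. Let `P v` be the complex number with
real part `(f v 0 - z 0)/r` and imaginary part `(f v 1 - z 1)/r`; its modulus is
`dist (f v) z / r = 1`. Injective since `f` is. `‖P u - P v‖ = dist (f u) (f v) / r`, and `r ≠ 0` is
rational, so `RatD (P u) (P v)` iff `dist (f u) (f v)` is rational iff `G.Adj u v` (`u ≠ v`). -/
def SpecGEB : Prop :=
  ∀ (V : Type) (G : SimpleGraph V) (f : V → Plane) (z : Plane) (r : ℚ), IsRationalRep G f →
    (∀ v, dist (f v) z = (r : ℝ)) →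
    ∃ P : V → Circle, Function.Injective P ∧ ∀ u v, u ≠ v → (G.Adj u v ↔ RatD (P u) (P v))

/-- IFF (120 lines, uses SUB, EM1, EM2, ROT). PROOF. (→) Given `P`, let `c` be a component. The
graph `G.induce c.supp` is connected (`SimpleGraph.ConnectedComponent.connected_toSimpleGraph` or
`maximal_connected_induce_supp` or the like), and `P` restricted to `c.supp` is injective with the
same adjacency; apply EM2.
(←) Choose an embedding `e c : G.induce c.supp ↪g Circ` for every `c`, and `Ψ` from EM1. Let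
`κ v = G.connectedComponentMk v` and `P0 v = Ψ (e (κ v) ⟨v, rfl⟩)`. The type of the components is
countable (a quotient of `V`). By ROT there are `d c` with `¬ RatD (d (κ u) P0 u) (d (κ v) P0 v)` for
`κ u ≠ κ v`; put `P v = d (κ v) * P0 v`. Injective: if `P u = P v`, then `RatD (P u) (P v)` (distance
`0`), so `κ u = κ v`, `P0 u = P0 v`, and `u = v` (all injective). Adjacency for `u ≠ v`: if
`κ u ≠ κ v`, both sides are false. If `κ u = κ v = c`: `RatD (P u) (P v)` iff `RatD (P0 u) (P0 v)`
(SUB, last part) iff `Circ.Adj (e c u) (e c v)` (EM1, `e c u ≠ e c v`) iff `G.Adj u v`. (For the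
equality of components generalise: for all `c` and `hu : κ u = c`, `hv : κ v = c`, subst.) -/
def SpecIFF : Prop :=
  ∀ (V : Type) [Countable V] (G : SimpleGraph V),
    (∃ P : V → Circle, Function.Injective P ∧ ∀ u v, u ≠ v → (G.Adj u v ↔ RatD (P u) (P v))) ↔
    ∀ c : G.ConnectedComponent, Nonempty (G.induce c.supp ↪g Circ)

/-- FIN (40 lines, uses GEA, GEB, IFF). PROOF. Combine: GEB and IFF (→); IFF, GEA (`z = 0`, `r = 1`)
(←). -/
def SpecFIN : Prop :=
  ∀ (V : Type) [Countable V] (G : SimpleGraph V),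
    (∃ f : V → Plane, IsRationalRep G f ∧ ∃ (z : Plane) (r : ℚ), ∀ v, dist (f v) z = (r : ℝ)) ↔
    ∀ c : G.ConnectedComponent, Nonempty (G.induce c.supp ↪g Circ)

end Pool.Agent.Lib.MPa24e3f.CR
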